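import Pool.Agent.J4.H85.IS.Limit

/-!
# Arcs around an attracting or repelling fixed point, and the type of long words
-/

set_option autoImplicit false

open Filter Set Topology

namespace Pool.Agent.J4.H85.IS

open Pool.Agent.J4.H85.LE

/-! ### Long orbits in an arc -/

theorem long_rep {Q : ℕ → ℝ → ℝ} {K : ℕ} (HQ : Ch Q K) {x1 x2 σ1 σ2 : ℝ}
    (hinj : InjOn (lev Q K) (Icc x1 x2)) (hrep : ∀ z ∈ Icc x1 x2, 1 < dT Q K z (lev Q K z)) :
    ∃ lam τ : ℝ, 1 < lam ∧ 0 < τ ∧ ∃ J0 : ℕ, ∀ (h : ℕ → ℝ → ℝ) (x σ : ℝ), σ ∈ Icc σ1 σ2 →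
      (∀ i t, i < (2 * J0 + 1) * K → |h i t - Q i t| ≤ τ ∧ |deriv (h i) t - deriv (Q i) t| ≤ τ) →
      (∀ k, k ≤ 2 * J0 → orb h (k * K) x σ ∈ Icc x1 x2) →
      lam ≤ dT (fun i => h (J0 * K + i)) K (orb h (J0 * K) x σ) σ := by
  by_contra hcon
  push Not at hcon
  have h1 := fun n : ℕ => hcon (1 + 1 / ((n : ℝ) + 1)) (1 / ((n : ℝ) + 1))
    (by have : (0 : ℝ) < 1 / ((n : ℝ) + 1) := by positivity
        linarith) (by positivity) n
  choose h x σ hσ hclose hpos hlt using h1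
  obtain ⟨φ, hφ, z, hz, hlim⟩ := limit_block HQ hinj hσ hclose hpos
  have h2 : Tendsto (fun n : ℕ => 1 + 1 / ((φ n : ℝ) + 1)) atTop (𝓝 (1 + 0)) :=
    tendsto_const_nhds.add (tendsto_one_div_add_atTop_nhds_zero_nat.comp hφ.tendsto_atTop)
  have h3 := le_of_tendsto_of_tendsto' hlim h2 fun n => (hlt (φ n)).le
  have := hrep z hz
  linarith

theorem long_att {Q : ℕ → ℝ → ℝ} {K : ℕ} (HQ : Ch Q K) {x1 x2 σ1 σ2 : ℝ}
    (hinj : InjOn (lev Q K) (Icc x1 x2)) (hatt : ∀ z ∈ Icc x1 x2, dT Q K z (lev Q K z) < 1) :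
    ∃ lam τ : ℝ, 0 < lam ∧ lam < 1 ∧ 0 < τ ∧ ∃ J0 : ℕ, ∀ (h : ℕ → ℝ → ℝ) (x σ : ℝ),
      σ ∈ Icc σ1 σ2 →
      (∀ i t, i < (2 * J0 + 1) * K → |h i t - Q i t| ≤ τ ∧ |deriv (h i) t - deriv (Q i) t| ≤ τ) →
      (∀ k, k ≤ 2 * J0 → orb h (k * K) x σ ∈ Icc x1 x2) →
      dT (fun i => h (J0 * K + i)) K (orb h (J0 * K) x σ) σ ≤ lam := by
  by_contra hcon
  push Not at hcon
  have h1 := fun n : ℕ => hcon (1 - 1 / ((n : ℝ) + 2)) (1 / ((n : ℝ) + 1))
    (by have : 1 / ((n : ℝ) + 2) < 1 := by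
          rw [div_lt_one (by positivity)]
          have : (0 : ℝ) ≤ n := by positivity
          linarith
        linarith)
    (by have : (0 : ℝ) < 1 / ((n : ℝ) + 2) := by positivity
        linarith) (by positivity) n
  choose h x σ hσ hclose hpos hlt using h1
  obtain ⟨φ, hφ, z, hz, hlim⟩ := limit_block HQ hinj hσ hclose hpos
  have h0 : Tendsto (fun n : ℕ => 1 / ((n : ℝ) + 2)) atTop (𝓝 0) := by
    have h5 := (tendsto_one_div_add_atTop_nhds_zero_nat (𝕜 := ℝ)).comp (tendsto_add_atTop_nat 1)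
    refine h5.congr fun n => ?_
    simp only [Function.comp]
    push_cast
    congr 1
    ring
  have h2 : Tendsto (fun n : ℕ => 1 - 1 / ((φ n : ℝ) + 2)) atTop (𝓝 (1 - 0)) :=
    tendsto_const_nhds.sub (h0.comp hφ.tendsto_atTop)
  have h3 := le_of_tendsto_of_tendsto' h2 hlim fun n => (hlt (φ n)).le
  have := hatt z hz
  linarith

/-! ### Products -/

theorem dT_low {h : ℕ → ℝ → ℝ} {c : ℝ} (hc : 0 ≤ c) (hlow : ∀ i t, c ≤ deriv (h i) t) (n : ℕ)
    (t s : ℝ) : c ^ n ≤ dT h n t s := by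
  unfold dT
  have := Finset.prod_le_prod (s := Finset.range n) (f := fun _ => c)
    (g := fun l => deriv (h l) (orb h l t s)) (fun _ _ => hc) fun _ _ => hlow _ _
  simpa using this

theorem dT_high {h : ℕ → ℝ → ℝ} {C : ℝ} (h0 : ∀ i t, 0 ≤ deriv (h i) t)
    (hhigh : ∀ i t, deriv (h i) t ≤ C) (n : ℕ) (t s : ℝ) : dT h n t s ≤ C ^ n := by
  unfold dT
  have := Finset.prod_le_prod (s := Finset.range n) (g := fun _ => C)
    (f := fun l => deriv (h l) (orb h l t s)) (fun _ _ => h0 _ _) fun _ _ => hhigh _ _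
  simpa using this

theorem orb_shift (h : ℕ → ℝ → ℝ) (a b : ℕ) (x σ : ℝ) :
    orb (fun i => h (a + i)) b (orb h a x σ) σ = orb h (a + b) x σ := (orb_add h a b x σ).symm

/-- blocks -/
theorem block_rep {h : ℕ → ℝ → ℝ} {K : ℕ} {lam x σ : ℝ} (hlam : 0 ≤ lam) (L : ℕ)
    (hb : ∀ j < L, lam ≤ dT (fun i => h (j * K + i)) K (orb h (j * K) x σ) σ) :
    lam ^ L ≤ dT h (L * K) x σ := by
  induction L with
  | zero => simp [dT]
  | succ L ih =>
    rw [show (L + 1) * K = L * K + K by ring, dT_add, pow_succ']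
    exact mul_le_mul (hb L (by omega)) (ih fun j hj => hb j (by omega)) (pow_nonneg hlam _)
      (hlam.trans (hb L (by omega)))

theorem block_att {h : ℕ → ℝ → ℝ} {K : ℕ} {lam x σ : ℝ} (hi : ∀ i t, 0 < deriv (h i) t) (L : ℕ)
    (hb : ∀ j < L, dT (fun i => h (j * K + i)) K (orb h (j * K) x σ) σ ≤ lam) :
    dT h (L * K) x σ ≤ lam ^ L := by
  induction L with
  | zero => simp [dT]
  | succ L ih =>
    rw [show (L + 1) * K = L * K + K by ring, dT_add, pow_succ']
    have h1 : 0 < dT (fun i => h (L * K + i)) K (orb h (L * K) x σ) σ :=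
      dT_pos (fun i t => hi _ t) K _ _
    exact mul_le_mul (hb L (by omega)) (ih fun j hj => hb j (by omega)) (dT_pos hi _ _ _).le
      (h1.le.trans (hb L (by omega)))

/-! ### Arcs -/

theorem arc_comp {P : ℕ → ℝ → ℝ} {K : ℕ} {δ : ℝ} (_ : Ch P K) (_ : ND P K δ) {a : ℝ}
    (_ : |lev P K a| < δ) {x y z : ℝ} (hx : x ∈ Fam.comp (dp P K) δ a)
    (hy : y ∈ Fam.comp (dp P K) δ a) (hz : z ∈ Icc x y) : |lev P K z| < δ :=
  Fam.comp_sub δ a ((Fam.comp_ord δ a).out hx hy hz)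

/-- the arc around a repelling fixed point -/
theorem arc_rep {P : ℕ → ℝ → ℝ} {K : ℕ} {δ : ℝ} (HP : Ch P K) (nP : ND P K δ) {a s e : ℝ}
    (ha : lev P K a = s) (ha' : lev' P K a < 0) (he : 0 < e) (hs : |s| + e < δ) :
    ∃ x1 x2, x1 < a ∧ a < x2 ∧ lev P K x1 = s + e ∧ lev P K x2 = s - e ∧
      InjOn (lev P K) (Icc x1 x2) ∧ (∀ z ∈ Icc x1 x2, lev' P K z < 0) := by
  have hR := reg P HP nP
  obtain ⟨hs1, hs2⟩ : s + e < δ ∧ -δ < s - e := by
    have h1 := le_abs_self s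
    have h2 := neg_abs_le s
    constructor <;> linarith
  have h0 : |lev P K a| < δ := by
    rw [ha]
    linarith
  have h0' : |sol (dp P K) a| < δ := h0
  have haI : a ∈ Fam.comp (dp P K) δ a := Fam.mem_comp h0'
  obtain ⟨x1, hx1, h1⟩ := HP.fam.surjOn nP h0' (s := s + e) (by rw [abs_lt]; constructor <;> linarith)
  obtain ⟨x2, hx2, h2⟩ := HP.fam.surjOn nP h0' (s := s - e) (by rw [abs_lt]; constructor <;> linarith)
  have h1' : lev P K x1 = s + e := h1
  have h2' : lev P K x2 = s - e := h2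
  have hx1a : x1 < a := by
    rcases lt_trichotomy x1 a with h | h | h
    · exact h
    · rw [h, ha] at h1'
      linarith
    · obtain ⟨m, hm, hm1⟩ := hR.down_ge h (by linarith) ha' (by linarith)
      have := arc_comp HP nP h0 haI hx1 (z := m) ⟨hm.1.le, hm.2.le⟩
      rw [abs_lt] at this
      linarith
  have hx2a : a < x2 := by
    rcases lt_trichotomy a x2 with h | h | h
    · exact h
    · rw [← h, ha] at h2'
      linarith
    · obtain ⟨m, hm, hm1⟩ := hR.le_down h (by linarith) (by linarith) ha'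
      have := arc_comp HP nP h0 hx2 haI (z := m) ⟨hm.1.le, hm.2.le⟩
      rw [abs_lt] at this
      linarith
  refine ⟨x1, x2, hx1a, hx2a, h1', h2', ?_, ?_⟩
  · exact (HP.fam.injOn nP a).mono fun z hz => (Fam.comp_ord δ a).out hx1 hx2 hz
  · intro z hz
    have hzI := (Fam.comp_ord δ a).out hx1 hx2 hz
    have hz0 := arc_comp HP nP h0 hx1 hx2 hz
    rcases lt_or_gt_of_ne (hR.ne z hz0) with h | h
    · exact h
    · exfalso
      rw [abs_lt] at hz0
      rcases lt_trichotomy z a with h3 | h3 | h3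
      · obtain ⟨m, hm, hm1⟩ := hR.up_down h3 (by linarith) h ha'
        have := arc_comp HP nP h0 hzI haI (z := m) ⟨hm.1.le, hm.2.le⟩
        rw [abs_lt] at this
        linarith
      · rw [h3] at h
        linarith
      · obtain ⟨m, hm, hm1⟩ := hR.down_up h3 (by linarith) ha' h
        have := arc_comp HP nP h0 haI hzI (z := m) ⟨hm.1.le, hm.2.le⟩
        rw [abs_lt] at this
        linarith

/-- the arc around an attracting fixed point -/
theorem arc_att {P : ℕ → ℝ → ℝ} {K : ℕ} {δ : ℝ} (HP : Ch P K) (nP : ND P K δ) {a s e : ℝ}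
    (ha : lev P K a = s) (ha' : 0 < lev' P K a) (he : 0 < e) (hs : |s| + e < δ) :
    ∃ x1 x2, x1 < a ∧ a < x2 ∧ lev P K x1 = s - e ∧ lev P K x2 = s + e ∧
      InjOn (lev P K) (Icc x1 x2) ∧ (∀ z ∈ Icc x1 x2, 0 < lev' P K z) := by
  have hR := reg P HP nP
  obtain ⟨hs1, hs2⟩ : s + e < δ ∧ -δ < s - e := by
    have h1 := le_abs_self s
    have h2 := neg_abs_le s
    constructor <;> linarith
  have h0 : |lev P K a| < δ := by
    rw [ha]
    linarith
  have h0' : |sol (dp P K) a| < δ := h0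
  have haI : a ∈ Fam.comp (dp P K) δ a := Fam.mem_comp h0'
  obtain ⟨x1, hx1, h1⟩ := HP.fam.surjOn nP h0' (s := s - e) (by rw [abs_lt]; constructor <;> linarith)
  obtain ⟨x2, hx2, h2⟩ := HP.fam.surjOn nP h0' (s := s + e) (by rw [abs_lt]; constructor <;> linarith)
  have h1' : lev P K x1 = s - e := h1
  have h2' : lev P K x2 = s + e := h2
  have hx1a : x1 < a := by
    rcases lt_trichotomy x1 a with h | h | h
    · exact h
    · rw [h, ha] at h1'
      linarith
    · obtain ⟨m, hm, hm1⟩ := hR.up_le h (by linarith) ha' (by linarith)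
      have := arc_comp HP nP h0 haI hx1 (z := m) ⟨hm.1.le, hm.2.le⟩
      rw [abs_lt] at this
      linarith
  have hx2a : a < x2 := by
    rcases lt_trichotomy a x2 with h | h | h
    · exact h
    · rw [← h, ha] at h2'
      linarith
    · obtain ⟨m, hm, hm1⟩ := hR.ge_up h (by linarith) (by linarith) ha'
      have := arc_comp HP nP h0 hx2 haI (z := m) ⟨hm.1.le, hm.2.le⟩
      rw [abs_lt] at this
      linarith
  refine ⟨x1, x2, hx1a, hx2a, h1', h2', ?_, ?_⟩
  · exact (HP.fam.injOn nP a).mono fun z hz => (Fam.comp_ord δ a).out hx1 hx2 hz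
  · intro z hz
    have hzI := (Fam.comp_ord δ a).out hx1 hx2 hz
    have hz0 := arc_comp HP nP h0 hx1 hx2 hz
    rcases lt_or_gt_of_ne (hR.ne z hz0) with h | h
    · exfalso
      rw [abs_lt] at hz0
      rcases lt_trichotomy z a with h3 | h3 | h3
      · obtain ⟨m, hm, hm1⟩ := hR.down_up h3 (by linarith) h ha'
        have := arc_comp HP nP h0 hzI haI (z := m) ⟨hm.1.le, hm.2.le⟩
        rw [abs_lt] at this
        linarith
      · rw [h3] at h
        linarith
      · obtain ⟨m, hm, hm1⟩ := hR.up_down h3 (by linarith) ha' h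
        have := arc_comp HP nP h0 haI hzI (z := m) ⟨hm.1.le, hm.2.le⟩
        rw [abs_lt] at this
        linarith
    · exact h

end Pool.Agent.J4.H85.IS
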