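import Pool.Agent.J4.H85.LE.Leaf

/-!
# Maps which cover a map of the base, with circle fibres

The fibres of `π : N → B` are the orbits of a free circle action `ψ`, and `F` covers `f`.
-/

set_option autoImplicit false
set_option linter.unusedSectionVars false

open Filter Set Topology

universe u v

namespace Pool.Agent.J4.H85.IS

open Pool.Agent.J4.H85.LE

/-- `ψ` is a free action of `ℝ/ℤ`, its orbits are the fibres of `π`, and `F` covers `f`; the
derivative of `F` along the fibres is `ρ`. -/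
structure Circ {N : Type u} [TopologicalSpace N] {B : Type v} [TopologicalSpace B]
    (ψ : ℝ → N → N) (F : N → N) (ρ : N → ℝ) (π : N → B) (f : B → B) : Prop where
  act : Act ψ
  cont : Continuous fun q : ℝ × N => ψ q.1 q.2
  free : ∀ t y, ψ t y = y ↔ ∃ m : ℤ, t = m
  contF : Continuous F
  inj : Function.Injective F
  contρ : Continuous ρ
  pos : ∀ y, 0 < ρ y
  maps : ∀ t y, F (ψ t y) = ψ (∫ u in (0 : ℝ)..t, ρ (ψ u y)) (F y)
  contπ : Continuous π
  surj : Function.Surjective π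
  fib : ∀ y y', π y = π y' ↔ ∃ t, ψ t y = y'
  contf : Continuous f
  semi : ∀ y, π (F y) = f (π y)

/-- the position of the image -/
noncomputable def theta {N : Type u} (ψ : ℝ → N → N) (ρ : N → ℝ) (y : N) (t : ℝ) : ℝ :=
  ∫ u in (0 : ℝ)..t, ρ (ψ u y)

variable {N : Type u} {B : Type v} {ψ : ℝ → N → N} {F : N → N} {ρ : N → ℝ} {π : N → B} {f : B → B}

section top

variable [TopologicalSpace N] [TopologicalSpace B]

namespace Circ

theorem int (C : Circ ψ F ρ π f) (m : ℤ) (y : N) : ψ m y = y := (C.free _ _).2 ⟨m, rfl⟩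

theorem line (C : Circ ψ F ρ π f) (y : N) : Continuous fun t => ρ (ψ t y) :=
  C.contρ.comp (C.cont.comp (continuous_id.prodMk continuous_const))

theorem theta_der (C : Circ ψ F ρ π f) (y : N) (t : ℝ) :
    HasDerivAt (theta ψ ρ y) (ρ (ψ t y)) t :=
  intervalIntegral.integral_hasDerivAt_right ((C.line y).intervalIntegrable _ _)
    ((C.line y).stronglyMeasurableAtFilter _ _) (C.line y).continuousAt

theorem theta_deriv (C : Circ ψ F ρ π f) (y : N) : deriv (theta ψ ρ y) = fun t => ρ (ψ t y) :=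
  funext fun t => (C.theta_der y t).deriv

theorem theta_smooth (C : Circ ψ F ρ π f) (y : N) : ContDiff ℝ 1 (theta ψ ρ y) := by
  rw [contDiff_one_iff_deriv]
  refine ⟨fun t => (C.theta_der y t).differentiableAt, ?_⟩
  rw [C.theta_deriv]
  exact C.line y

theorem theta_zero (y : N) : theta ψ ρ y 0 = 0 := intervalIntegral.integral_same

theorem leaves (C : Circ ψ F ρ π f) (y : N) :
    Leaves ψ F y (fun i => theta ψ ρ (F^[i] y)) (fun _ => 1) where
  pos _ := one_pos
  closed i := by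
    have := C.int 1 (F^[i] y)
    simpa using this
  minimal i t ht h := by
    obtain ⟨m, hm⟩ := (C.free _ _).1 h
    rw [hm] at ht ⊢
    have : 0 < m := by exact_mod_cast ht
    exact_mod_cast this
  maps i t := by
    rw [C.maps, Function.iterate_succ_apply']
    rfl
  smooth i := C.theta_smooth _
  incr i t := by
    rw [C.theta_deriv]
    exact C.pos _
  zero i := theta_zero _

theorem theta_per (C : Circ ψ F ρ π f) (y : N) (t : ℝ) :
    theta ψ ρ y (t + 1) = theta ψ ρ y t + 1 := (C.leaves y).perT C.act C.inj 0 t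

theorem theta_int (C : Circ ψ F ρ π f) (y : N) (t : ℝ) (m : ℤ) :
    theta ψ ρ y (t + m) = theta ψ ρ y t + m := by
  have h1 : Function.Periodic (fun t => theta ψ ρ y t - t) 1 := by
    intro t
    show theta ψ ρ y (t + 1) - (t + 1) = theta ψ ρ y t - t
    rw [C.theta_per]
    ring
  have h2 := h1.int_mul m t
  simp only [mul_one] at h2
  linarith

/-- reduction to `[0, 1)` -/
theorem fract (C : Circ ψ F ρ π f) (y : N) (t : ℝ) : ψ (Int.fract t) y = ψ t y := by
  rw [C.act.eq_iff, mem_stab, C.free]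
  exact ⟨-⌊t⌋, by unfold Int.fract; push_cast; ring⟩

theorem pi_psi (C : Circ ψ F ρ π f) (t : ℝ) (y : N) : π (ψ t y) = π y :=
  ((C.fib y (ψ t y)).2 ⟨t, rfl⟩).symm

theorem pi_iter (C : Circ ψ F ρ π f) (i : ℕ) (y : N) : π (F^[i] y) = f^[i] (π y) := by
  induction i with
  | zero => rfl
  | succ i ih => rw [Function.iterate_succ_apply', Function.iterate_succ_apply', C.semi, ih]

/-- the chain of a periodic point -/
theorem chain (C : Circ ψ F ρ π f) {y : N} {K : ℕ} (hK : 1 ≤ K) (hy : F^[K] y = y) :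
    Chain (fun i => theta ψ ρ (F^[i] y)) (fun _ => 1) (fun _ => 0) K where
  smooth i := C.theta_smooth _
  incr i t := by
    rw [C.theta_deriv]
    exact C.pos _
  pos _ := one_pos
  perT i t := C.theta_per _ _
  one := hK
  perk _ := rfl
  shift i t := by
    rw [add_zero, add_zero, Function.iterate_add_apply, hy]

end Circ

end top

section metric

variable [MetricSpace N] [CompactSpace N] [MetricSpace B] [CompactSpace B]

namespace Circ

/-- **Lifts.** -/
theorem exists_lift (C : Circ ψ F ρ π f) : ∃ lift : B → N → N, (∀ β y, π (lift β y) = β) ∧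
    ∀ ε : ℝ, 0 < ε → ∃ η : ℝ, 0 < η ∧ ∀ β y, dist β (π y) < η → dist (lift β y) y < ε := by
  have hmin : ∀ (β : B) (y : N), ∃ x, π x = β ∧ ∀ x', π x' = β → dist x y ≤ dist x' y := by
    intro β y
    have hc : IsCompact (π ⁻¹' {β}) := (isClosed_singleton.preimage C.contπ).isCompact
    obtain ⟨x₀, hx₀⟩ := C.surj β
    obtain ⟨x, hx, hm⟩ := hc.exists_isMinOn ⟨x₀, hx₀⟩
      (continuous_id.dist (continuous_const (y := y))).continuousOn
    exact ⟨x, hx, fun x' hx' => hm hx'⟩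
  choose lift hl1 hl2 using hmin
  refine ⟨lift, hl1, ?_⟩
  by_contra hcon
  push Not at hcon
  obtain ⟨ε, hε, hcon⟩ := hcon
  have h1 := fun n : ℕ => hcon (1 / ((n : ℝ) + 1)) (by positivity)
  choose β y hβ hd using h1
  obtain ⟨⟨x₀, y₀⟩, -, φ, hφ, hlim⟩ := (isCompact_univ (X := N × N)).tendsto_subseq
    (x := fun n => (lift (β n) (y n), y n)) fun n => mem_univ _
  rw [nhds_prod_eq] at hlim
  have hx : Tendsto (fun n => lift (β (φ n)) (y (φ n))) atTop (𝓝 x₀) := tendsto_fst.comp hlim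
  have hy : Tendsto (fun n => y (φ n)) atTop (𝓝 y₀) := tendsto_snd.comp hlim
  have hπ : π x₀ = π y₀ := by
    have h1 : Tendsto (fun n => β (φ n)) atTop (𝓝 (π x₀)) := by
      refine ((C.contπ.tendsto _).comp hx).congr fun n => ?_
      simp only [Function.comp]
      exact hl1 _ _
    have h2 := (C.contπ.tendsto _).comp hy
    have h3 : Tendsto (fun n => dist (β (φ n)) (π (y (φ n)))) atTop (𝓝 (dist (π x₀) (π y₀))) :=
      h1.dist h2
    have h4 : Tendsto (fun n => dist (β (φ n)) (π (y (φ n)))) atTop (𝓝 0) := by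
      refine squeeze_zero (fun _ => dist_nonneg) (fun n => (hβ (φ n)).le) ?_
      exact tendsto_one_div_add_atTop_nhds_zero_nat.comp hφ.tendsto_atTop
    exact dist_eq_zero.1 (tendsto_nhds_unique h3 h4)
  obtain ⟨t, ht⟩ := (C.fib _ _).1 hπ
  have hc : Continuous (ψ t) := C.cont.comp (continuous_const.prodMk continuous_id)
  have h5 : Tendsto (fun n => dist (ψ t (lift (β (φ n)) (y (φ n)))) (y (φ n))) atTop (𝓝 0) := by
    have h6 := ((hc.tendsto _).comp hx).dist hy
    rw [ht, dist_self] at h6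
    exact h6
  obtain ⟨n, hn⟩ := (h5.eventually (gt_mem_nhds hε)).exists
  have h7 := hl2 (β (φ n)) (y (φ n)) (ψ t (lift (β (φ n)) (y (φ n))))
    (by rw [C.pi_psi, hl1])
  linarith [hd (φ n)]

/-- **Angles.** -/
theorem exists_angle (C : Circ ψ F ρ π f) : ∃ E : N → N → ℝ,
    (∀ x x', π x = π x' → ψ (E x x') x' = x) ∧
    ∀ ε : ℝ, 0 < ε → ∃ η : ℝ, 0 < η ∧ ∀ x x', π x = π x' → dist x x' < η → |E x x'| < ε := by
  have hex : ∀ x x', ∃ e : ℝ, π x = π x' → ψ e x' = x ∧ |e| ≤ 1 / 2 := by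
    intro x x'
    by_cases hx : π x = π x'
    · obtain ⟨t, ht⟩ := (C.fib _ _).1 hx.symm
      refine ⟨t - round t, fun _ => ⟨?_, abs_sub_round t⟩⟩
      rw [sub_eq_add_neg, C.act.add]
      have := C.int (-round t) x'
      push_cast at this
      rw [this, ht]
    · exact ⟨0, fun h => absurd h hx⟩
  choose E hE using hex
  refine ⟨E, fun x x' h => (hE x x' h).1, ?_⟩
  by_contra hcon
  push Not at hcon
  obtain ⟨ε, hε, hcon⟩ := hcon
  have h1 := fun n : ℕ => hcon (1 / ((n : ℝ) + 1)) (by positivity)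
  choose x x' hπ hd hl using h1
  obtain ⟨⟨⟨x₀, x₁⟩, e⟩, ⟨-, he⟩, φ, hφ, hlim⟩ :=
    ((isCompact_univ (X := N × N)).prod (isCompact_Icc (a := -(1 / 2 : ℝ)) (b := 1 / 2))).tendsto_subseq
    (x := fun n => ((x n, x' n), E (x n) (x' n))) fun n =>
      ⟨mem_univ _, abs_le.1 (hE _ _ (hπ n)).2⟩
  rw [nhds_prod_eq, nhds_prod_eq] at hlim
  have h1 := tendsto_fst.comp hlim
  have hx : Tendsto (fun n => x (φ n)) atTop (𝓝 x₀) := tendsto_fst.comp h1
  have hx' : Tendsto (fun n => x' (φ n)) atTop (𝓝 x₁) := tendsto_snd.comp h1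
  have hE2 : Tendsto (fun n => E (x (φ n)) (x' (φ n))) atTop (𝓝 e) := tendsto_snd.comp hlim
  have h01 : x₀ = x₁ := by
    have h4 : Tendsto (fun n => dist (x (φ n)) (x' (φ n))) atTop (𝓝 0) := by
      refine squeeze_zero (fun _ => dist_nonneg) (fun n => (hd (φ n)).le) ?_
      exact tendsto_one_div_add_atTop_nhds_zero_nat.comp hφ.tendsto_atTop
    exact dist_eq_zero.1 (tendsto_nhds_unique (hx.dist hx') h4)
  subst h01
  have h5 : ψ e x₀ = x₀ := by
    have h6 : Tendsto (fun n => ψ (E (x (φ n)) (x' (φ n))) (x' (φ n))) atTop (𝓝 (ψ e x₀)) := by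
      have h7 : Tendsto (fun n => (E (x (φ n)) (x' (φ n)), x' (φ n))) atTop (𝓝 (e, x₀)) :=
        hE2.prodMk_nhds hx'
      exact (C.cont.tendsto _).comp h7
    refine tendsto_nhds_unique h6 (hx.congr fun n => ?_)
    exact (hE _ _ (hπ (φ n))).1.symm
  obtain ⟨m, hm⟩ := (C.free _ _).1 h5
  have hle : ε ≤ |e| := ge_of_tendsto hE2.abs (Eventually.of_forall fun n => hl (φ n))
  have he' : e ∈ Icc (-(1 / 2 : ℝ)) (1 / 2) := he
  have hm0 : m = 0 := by
    have h8 : (-1 : ℝ) < m := by rw [← hm]; linarith [he'.1]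
    have h9 : (m : ℝ) < 1 := by rw [← hm]; linarith [he'.2]
    have h10 : -1 < m := by exact_mod_cast h8
    have h11 : m < 1 := by exact_mod_cast h9
    omega
  rw [hm, hm0] at hle
  simp at hle
  linarith

/-- closeness of the derivatives and of the fibre maps -/
theorem close (C : Circ ψ F ρ π f) {ε : ℝ} (hε : 0 < ε) : ∃ η : ℝ, 0 < η ∧ ∀ x y, dist x y < η →
    ∀ t, |ρ (ψ t x) - ρ (ψ t y)| ≤ ε ∧ |theta ψ ρ x t - theta ψ ρ y t| ≤ ε := by
  obtain ⟨η, hη, hcl⟩ : ∃ η : ℝ, 0 < η ∧ ∀ x y, dist x y < η →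
      ∀ t, |ρ (ψ t x) - ρ (ψ t y)| ≤ ε := by
    by_contra hcon
    push Not at hcon
    have h1 := fun n : ℕ => hcon (1 / ((n : ℝ) + 1)) (by positivity)
    choose x y hd t ht using h1
    obtain ⟨⟨⟨x₀, y₀⟩, e⟩, -, φ, hφ, hlim⟩ :=
      ((isCompact_univ (X := N × N)).prod (isCompact_Icc (a := (0 : ℝ)) (b := 1))).tendsto_subseq
      (x := fun n => ((x n, y n), Int.fract (t n))) fun n =>
        ⟨mem_univ _, ⟨Int.fract_nonneg _, (Int.fract_lt_one _).le⟩⟩
    rw [nhds_prod_eq, nhds_prod_eq] at hlim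
    have h1 := tendsto_fst.comp hlim
    have hx : Tendsto (fun n => x (φ n)) atTop (𝓝 x₀) := tendsto_fst.comp h1
    have hy : Tendsto (fun n => y (φ n)) atTop (𝓝 y₀) := tendsto_snd.comp h1
    have he : Tendsto (fun n => Int.fract (t (φ n))) atTop (𝓝 e) := tendsto_snd.comp hlim
    have h01 : x₀ = y₀ := by
      have h4 : Tendsto (fun n => dist (x (φ n)) (y (φ n))) atTop (𝓝 0) := by
        refine squeeze_zero (fun _ => dist_nonneg) (fun n => (hd (φ n)).le) ?_
        exact tendsto_one_div_add_atTop_nhds_zero_nat.comp hφ.tendsto_atTop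
      exact dist_eq_zero.1 (tendsto_nhds_unique (hx.dist hy) h4)
    subst h01
    have hc : Continuous fun q : ℝ × N => ρ (ψ q.1 q.2) := C.contρ.comp C.cont
    have h2 := (hc.tendsto (e, x₀)).comp (he.prodMk_nhds hx)
    have h3 := (hc.tendsto (e, x₀)).comp (he.prodMk_nhds hy)
    have h4 := (h2.sub h3).abs
    rw [sub_self, abs_zero] at h4
    obtain ⟨n, hn⟩ := (h4.eventually (gt_mem_nhds hε)).exists
    simp only [Function.comp, C.fract] at hn
    linarith [ht (φ n)]
  refine ⟨η, hη, fun x y hxy t => ⟨hcl x y hxy t, ?_⟩⟩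
  have key : ∀ t ∈ Icc (0 : ℝ) 1, |theta ψ ρ x t - theta ψ ρ y t| ≤ ε := by
    intro t ht
    unfold theta
    rw [← intervalIntegral.integral_sub ((C.line x).intervalIntegrable _ _)
      ((C.line y).intervalIntegrable _ _)]
    have h1 := intervalIntegral.norm_integral_le_of_norm_le_const (a := (0 : ℝ)) (b := t)
      (f := fun u => ρ (ψ u x) - ρ (ψ u y)) (C := ε) fun u _ => by
        rw [Real.norm_eq_abs]
        exact hcl x y hxy u
    rw [Real.norm_eq_abs, sub_zero, abs_of_nonneg ht.1] at h1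
    refine h1.trans ?_
    calc ε * t ≤ ε * 1 := mul_le_mul_of_nonneg_left ht.2 hε.le
      _ = ε := mul_one _
  have h2 := key (Int.fract t) ⟨Int.fract_nonneg _, (Int.fract_lt_one _).le⟩
  have h3 := C.theta_int x (Int.fract t) ⌊t⌋
  have h4 := C.theta_int y (Int.fract t) ⌊t⌋
  rw [Int.fract_add_floor] at h3 h4
  rw [h3, h4]
  have e : theta ψ ρ x (Int.fract t) + ⌊t⌋ - (theta ψ ρ y (Int.fract t) + ⌊t⌋) =
      theta ψ ρ x (Int.fract t) - theta ψ ρ y (Int.fract t) := by ring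
  rw [e]
  exact h2

end Circ

/-- Two different full orbits of `f` in the closure of the set of the periodic points have a distance
more than `e` at some time. -/
def ExpansiveWith {B : Type v} [MetricSpace B] (f : B → B) (e : ℝ) : Prop :=
  ∀ z w : ℤ → B, (∀ n, z n ∈ closure {x | ∃ k, 1 ≤ k ∧ f^[k] x = x}) →
    (∀ n, w n ∈ closure {x | ∃ k, 1 ≤ k ∧ f^[k] x = x}) →
    (∀ n, f (z n) = z (n + 1)) → (∀ n, f (w n) = w (n + 1)) →
    (∀ n, dist (z n) (w n) ≤ e) → z = w

theorem per_iter {f : B → B} {x : B} (hx : ∃ k, 1 ≤ k ∧ f^[k] x = x) (i : ℕ) :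
    ∃ k, 1 ≤ k ∧ f^[k] (f^[i] x) = f^[i] x := by
  obtain ⟨k, hk, h⟩ := hx
  refine ⟨k, hk, ?_⟩
  rw [← Function.iterate_add_apply, add_comm, Function.iterate_add_apply, h]

theorem expansive_window {f : B → B} (hf : Continuous f) {e : ℝ} (hE : ExpansiveWith f e) {τ : ℝ}
    (hτ : 0 < τ) : ∃ J : ℕ, ∀ x y, (∃ k, 1 ≤ k ∧ f^[k] x = x) → (∃ k, 1 ≤ k ∧ f^[k] y = y) →
      (∀ k, k ≤ 2 * J → dist (f^[k] x) (f^[k] y) ≤ e) → dist (f^[J] x) (f^[J] y) < τ := by
  by_contra hcon
  push Not at hcon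
  choose x y hpx hpy hk hd using hcon
  set Z : ℕ → (ℤ → B) × (ℤ → B) := fun n =>
    (fun k => f^[min ((n : ℤ) + k).toNat (2 * n)] (x n),
      fun k => f^[min ((n : ℤ) + k).toNat (2 * n)] (y n)) with hZ
  obtain ⟨⟨z, w⟩, -, φ, hφ, hlim⟩ := (isCompact_univ (X := (ℤ → B) × (ℤ → B))).tendsto_subseq
    (x := Z) fun n => mem_univ _
  rw [nhds_prod_eq] at hlim
  have h1 : Tendsto (fun n => (Z (φ n)).1) atTop (𝓝 z) := tendsto_fst.comp hlim
  have h2 : Tendsto (fun n => (Z (φ n)).2) atTop (𝓝 w) := tendsto_snd.comp hlim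
  rw [tendsto_pi_nhds] at h1 h2
  have hblock : ∀ k : ℤ, ∀ᶠ n in atTop, ∃ j : ℕ, (j : ℤ) = (φ n : ℤ) + k ∧ j + 1 ≤ 2 * φ n := by
    intro k
    filter_upwards [hφ.tendsto_atTop.eventually_ge_atTop (k.natAbs + 1)] with n hn
    exact ⟨((φ n : ℤ) + k).toNat, by omega, by omega⟩
  have hz : ∀ k, f (z k) = z (k + 1) := by
    intro k
    refine tendsto_nhds_unique ((hf.tendsto _).comp (h1 k)) ((h1 (k + 1)).congr' ?_)
    filter_upwards [hblock k] with n hn
    obtain ⟨j, hj, hj2⟩ := hn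
    have e1 : min ((φ n : ℤ) + k).toNat (2 * φ n) = j := by omega
    have e2 : min ((φ n : ℤ) + (k + 1)).toNat (2 * φ n) = j + 1 := by omega
    simp only [hZ, Function.comp]
    rw [e1, e2, Function.iterate_succ_apply']
  have hw : ∀ k, f (w k) = w (k + 1) := by
    intro k
    refine tendsto_nhds_unique ((hf.tendsto _).comp (h2 k)) ((h2 (k + 1)).congr' ?_)
    filter_upwards [hblock k] with n hn
    obtain ⟨j, hj, hj2⟩ := hn
    have e1 : min ((φ n : ℤ) + k).toNat (2 * φ n) = j := by omega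
    have e2 : min ((φ n : ℤ) + (k + 1)).toNat (2 * φ n) = j + 1 := by omega
    simp only [hZ, Function.comp]
    rw [e1, e2, Function.iterate_succ_apply']
  have hzw : ∀ k, dist (z k) (w k) ≤ e := fun k =>
    le_of_tendsto ((h1 k).dist (h2 k)) (Eventually.of_forall fun n => hk (φ n) _ (min_le_right _ _))
  have hzc : ∀ k, z k ∈ closure {x | ∃ k, 1 ≤ k ∧ f^[k] x = x} := fun k =>
    mem_closure_of_tendsto (h1 k) (Eventually.of_forall fun n => per_iter (hpx (φ n)) _)
  have hwc : ∀ k, w k ∈ closure {x | ∃ k, 1 ≤ k ∧ f^[k] x = x} := fun k =>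
    mem_closure_of_tendsto (h2 k) (Eventually.of_forall fun n => per_iter (hpy (φ n)) _)
  have heq := hE z w hzc hwc hz hw hzw
  have h3 := (h1 0).dist (h2 0)
  rw [heq, dist_self] at h3
  obtain ⟨n, hn⟩ := (h3.eventually (gt_mem_nhds hτ)).exists
  have e1 : min ((φ n : ℤ) + 0).toNat (2 * φ n) = φ n := by omega
  simp only [hZ] at hn
  rw [e1] at hn
  linarith [hd (φ n)]

end metric

end Pool.Agent.J4.H85.IS
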