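import Pool.Agent.J4.H85.IS.Track
import Pool.Agent.J4.H85.LE.Main

/-!
# Index separation for `Ω`-stable diffeomorphisms with circle fibres
-/

set_option autoImplicit false
set_option linter.unusedSectionVars false

open scoped Manifold ContDiff Topology
open Filter Set

universe u v

namespace Pool.Agent.J4.H85.IS

open Pool.Agent.H718R2.G Pool.Agent.TH80.OMS Pool.Agent.TH290.CL Pool.Agent.J4.H85.LE

/-- The periodic points of `F` which are attracting along the fibres: the derivative of `F^k` along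
the fibre is less than `1`. -/
def AttPer {N : Type u} (F : N → N) (ρ : N → ℝ) : Set N :=
  {p | ∃ k : ℕ, 1 ≤ k ∧ F^[k] p = p ∧ ∏ i ∈ Finset.range k, ρ (F^[i] p) < 1}

/-- The periodic points of `F` which are repelling along the fibres. -/
def RepPer {N : Type u} (F : N → N) (ρ : N → ℝ) : Set N :=
  {p | ∃ k : ℕ, 1 ≤ k ∧ F^[k] p = p ∧ 1 < ∏ i ∈ Finset.range k, ρ (F^[i] p)}

/-- the derivative over several periods -/
theorem prod_mul {N : Type u} {F : N → N} {ρ : N → ℝ} {p : N} {k : ℕ} (hp : F^[k] p = p) (j : ℕ) :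
    ∏ i ∈ Finset.range (k * j), ρ (F^[i] p) = (∏ i ∈ Finset.range k, ρ (F^[i] p)) ^ j := by
  induction j with
  | zero => simp
  | succ j ih =>
    rw [Nat.mul_succ, Finset.prod_range_add, ih, pow_succ]
    congr 1
    refine Finset.prod_congr rfl fun i _ => ?_
    rw [show k * j + i = i + k * j by ring, Function.iterate_add_apply, Function.iterate_mul,
      Function.iterate_fixed hp]

variable {n : ℕ} {N : Type u} [TopologicalSpace N] [T2Space N] [CompactSpace N]
  [ChartedSpace (V n) N] [IsManifold (𝓡 n) ∞ N]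

/-- nondegeneracy of tracks -/
theorem track_nondeg {ψ : ℝ → N → N} (hψ : IsFlow n N ψ)
    (hfree : ∀ t y, ψ t y = y ↔ ∃ m : ℤ, t = m) {F : N → N} {δ : ℝ}
    (hh : ∀ s, |s| < δ → ∀ p, p ∈ Per (fun y => ψ s (F y)) →
        Pool.Agent.Y504.CO.IsHyperbolicPer n (fun y => ψ s (F y)) p)
    {x : ℕ → N} {h : ℕ → ℝ → ℝ} {M : ℕ} (H : Ch h M)
    (hmaps : ∀ i t, F (ψ t (x i)) = ψ (h i t) (x (i + 1))) (hx : x M = x 0) : ND h M δ := by
  intro t s hs h0 h1
  have A := flow_act hψ
  have e0 : orb h M t s = t := by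
    have : orb h M t s - t - 0 = 0 := h0
    linarith
  have hiter : ∀ (i : ℕ) (t : ℝ), (fun y => ψ s (F y))^[i] (ψ t (x 0)) = ψ (orb h i t s) (x i) := by
    intro i t
    induction i with
    | zero => rfl
    | succ i ih =>
      rw [Function.iterate_succ_apply', ih, hmaps, ← A.add, add_comm]
      rfl
  have hp : (fun y => ψ s (F y))^[M] (ψ t (x 0)) = ψ t (x 0) := by
    rw [hiter, hx, e0]
  have hu : ψ (1 / 2) (ψ t (x 0)) ≠ ψ t (x 0) := by
    intro h2
    obtain ⟨m, hm⟩ := (hfree _ _).1 h2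
    have h3 : (2 * m : ℤ) = 1 := by
      have : (2 * m : ℝ) = 1 := by rw [← hm]; norm_num
      exact_mod_cast this
    omega
  have hρ : HasDerivAt (fun u => orb h M (u + t) s - t) (dT h M t s) 0 := by
    have h2 := orb_der H.smooth M t s
    have h3 : HasDerivAt (fun u : ℝ => (u + t, s)) ((1 : ℝ), (0 : ℝ)) 0 :=
      ((hasDerivAt_id (0 : ℝ)).add_const t).prodMk (hasDerivAt_const (0 : ℝ) s)
    have h4 : HasFDerivAt (fun q : ℝ × ℝ => orb h M q.1 q.2)
        (dT h M t s • ContinuousLinearMap.fst ℝ ℝ ℝ + dS h M t s • ContinuousLinearMap.snd ℝ ℝ ℝ)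
        ((0 : ℝ) + t, s) := by
      rw [zero_add]
      exact h2
    have h5 := HasFDerivAt.comp_hasDerivAt (f := fun u : ℝ => (u + t, s)) (0 : ℝ) h4 h3
    have h6 := h5.sub_const t
    refine h6.congr_deriv ?_
    simp
  have h7 := leaf_eig hψ hu (hh s hs _ ⟨M, H.one, hp⟩) H.one hp
    (ρ := fun u => orb h M (u + t) s - t)
    (by show orb h M (0 + t) s - t = 0; rw [zero_add, e0, sub_self]) hρ (by
      intro u
      rw [← A.add, hiter, hx, ← A.add, sub_add_cancel])
  apply h7
  have h8 : dT h M t s = 1 := by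
    have : dT h M t s - 1 = 0 := h1
    linarith
  rw [h8, abs_one]

/-- `f` expands the closure of its periodic points -/
def ExpansiveOnPer {B : Type v} [MetricSpace B] (f : B → B) : Prop :=
  ∃ e : ℝ, 0 < e ∧ ExpansiveWith f e

/-- **Index separation.** -/
theorem index_separation {B : Type v} [MetricSpace B] [CompactSpace B] {r : ℕ∞} (hr : 1 ≤ r)
    {F : DiffM n N r} (hF : OmegaStable n N r F) {ψ : ℝ → N → N} (hψ : IsFlow n N ψ)
    {ρ : N → ℝ} {π : N → B} {f : B → B} (C : Circ ψ (F : N → N) ρ π f)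
    (hX : ExpansiveOnPer f) (hS : PeriodicShadowing f) :
    Disjoint (closure (AttPer (F : N → N) ρ)) (closure (RepPer (F : N → N) ρ)) := by
  obtain ⟨δ, hδ, hh⟩ := family_hyp hr hF hψ
  obtain ⟨e, he, hX⟩ := hX
  have : SecondCountableTopology N := ChartedSpace.secondCountable_of_sigmaCompact (V n) N
  let _ : MetricSpace N := TopologicalSpace.metrizableSpaceMetric N
  obtain ⟨η, hη, hsep⟩ := separation C he hX hS hδ
    (fun x h M h1 h2 h3 => track_nondeg hψ C.free hh h1 h2 h3)
  rw [Set.disjoint_left]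
  intro x hx1 hx2
  rw [Metric.mem_closure_iff] at hx1 hx2
  obtain ⟨p, ⟨a, ha, hpa, hpp⟩, hxp⟩ := hx1 (η / 2) (by linarith)
  obtain ⟨q, ⟨b, hb, hqb, hqq⟩, hxq⟩ := hx2 (η / 2) (by linarith)
  have hab : 1 ≤ a * b := Nat.mul_pos ha hb
  have h1 := hsep p q (a * b) hab (by
      rw [Function.iterate_mul]
      exact Function.iterate_fixed hpa b) (by
      rw [mul_comm, Function.iterate_mul]
      exact Function.iterate_fixed hqb a)
    (by
      rw [prod_mul hpa]
      exact pow_lt_one₀ (Finset.prod_nonneg fun i _ => (C.pos _).le) hpp (by omega))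
    (by
      rw [mul_comm, prod_mul hqb]
      exact one_lt_pow₀ hqq (by omega))
  have h2 := dist_triangle p x q
  rw [dist_comm p x] at h2
  linarith

end Pool.Agent.J4.H85.IS
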