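import Pool.Agent.J4.H85.IS.Levels
import Pool.Agent.J4.H85.IS.Main

/-!
# Periodic pseudo-orbits have one type
-/

set_option autoImplicit false
set_option linter.unusedSectionVars false

open Filter Set Topology

universe u v

namespace Pool.Agent.J4.H85.IS

open Pool.Agent.J4.H85.LE

/-- the type does not change over short distances -/
theorem type_near {L L' : ℝ → ℝ} {δ ε : ℝ} (D : Reg L L' δ)
    (hs : ∀ t t', t ≤ t' → L t' ≤ L t + (t' - t)) {a b : ℝ} (hab : |b - a| ≤ 2 * ε)
    (ha : |L a| ≤ ε) (hb : |L b| ≤ ε) (hε : 4 * ε < δ) (h : 0 < L' a) : 0 < L' b := by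
  obtain ⟨ha1, ha2⟩ := abs_le.1 ha
  obtain ⟨hab1, hab2⟩ := abs_le.1 hab
  have hε0 : 0 ≤ ε := (abs_nonneg _).trans ha
  rcases lt_or_gt_of_ne (D.ne b (by linarith)) with h1 | h1
  · exfalso
    rcases lt_trichotomy a b with h2 | h2 | h2
    · obtain ⟨m, hm, hm1⟩ := D.up_down h2 (by linarith) h h1
      have := hs a m hm.1.le
      linarith [hm.2]
    · rw [h2] at h
      linarith
    · obtain ⟨m, hm, hm1⟩ := D.down_up h2 (by linarith [(abs_le.1 hb).2]) h1 h
      have := hs m a hm.2.le
      linarith [hm.1]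
  · exact h1

section cyc

variable {H : ℕ → ℝ → ℝ} {M : ℕ}

/-- the shifted chain -/
theorem shift_chain (HC : Ch H M) (j : ℕ) : Ch (fun i => H (j + i)) M where
  smooth i := HC.smooth _
  incr i := HC.incr _
  pos _ := one_pos
  perT i t := HC.perT _ _
  one := HC.one
  perk _ := rfl
  shift i t := by
    have := HC.shift (j + i) t
    rw [← add_assoc]
    exact this

theorem next_orb (HC : Ch H M) {s : ℝ} (h : orb H M 0 s = 0) :
    orb (fun i => H (1 + i)) M (H 0 0 + s) s = H 0 0 + s := by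
  have h1 : orb H (M + 1) 0 s = H 0 0 + s := by
    show H M (orb H M 0 s) + s = _
    have := per_fun HC 0
    rw [zero_add] at this
    rw [h, this]
  have h2 := orb_add H 1 M 0 s
  rw [add_comm 1 M, h1] at h2
  exact h2.symm

theorem next_dT (HC : Ch H M) {s : ℝ} (h : orb H M 0 s = 0) :
    dT (fun i => H (1 + i)) M (H 0 0 + s) s = dT H M 0 s := by
  have h1 : dT H (M + 1) 0 s = deriv (H 0) 0 * dT H M 0 s := by
    rw [dT_succ]
    have := per_fun HC 0
    rw [zero_add] at this
    rw [h, this]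
  have h2 := dT_add H 1 M 0 s
  rw [add_comm 1 M, h1] at h2
  have h3 : dT H 1 0 s = deriv (H 0) 0 := by
    rw [show (1 : ℕ) = 0 + 1 from rfl, dT_succ]
    simp [dT, orb]
  rw [h3, mul_comm] at h2
  exact (mul_right_cancel₀ (HC.incr 0 0).ne' h2).symm

theorem level_small (HC : Ch H M) {ε : ℝ} (h : ∀ i, |H i 0| ≤ ε) : |lev H M 0| ≤ ε := by
  have h1 : ∀ i, 0 ≤ orb H i 0 ε := by
    intro i
    induction i with
    | zero => exact le_rfl
    | succ i ih =>
      have h2 := (h_mono HC.incr i).monotone ih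
      have h3 := (abs_le.1 (h i)).1
      show 0 ≤ H i (orb H i 0 ε) + ε
      linarith
  have h2 : ∀ i, orb H i 0 (-ε) ≤ 0 := by
    intro i
    induction i with
    | zero => exact le_rfl
    | succ i ih =>
      have h2 := (h_mono HC.incr i).monotone ih
      have h3 := (abs_le.1 (h i)).2
      show H i (orb H i 0 (-ε)) + -ε ≤ 0
      linarith
  rw [abs_le]
  exact ⟨le_lev HC (h2 M), lev_le HC (h1 M)⟩

/-- the type of the next phase -/
theorem next_type (HC : Ch H M) {δ ε : ℝ} (hn : ND (fun i => H (1 + i)) M δ) (hε : 4 * ε < δ)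
    (h : ∀ i, |H i 0| ≤ ε) (hp : 0 < lev' H M 0) : 0 < lev' (fun i => H (1 + i)) M 0 := by
  have HC1 := shift_chain HC 1
  set s := lev H M 0 with hs
  have hs1 : |s| ≤ ε := level_small HC h
  have h0 : orb H M 0 s = 0 := lev_eq HC 0
  have h1 : lev (fun i => H (1 + i)) M (H 0 0 + s) = s := lev_unique HC1 (next_orb HC h0)
  have h2 : 0 < lev' (fun i => H (1 + i)) M (H 0 0 + s) := by
    rw [lev'_pos HC1, h1, next_dT HC h0]
    exact (lev'_pos HC).1 hp
  refine type_near (reg _ HC1 hn) (fun t t' ht => lev_slope HC1 ht) (a := H 0 0 + s) (b := 0)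
    (ε := ε) ?_ ?_ (level_small HC1 fun i => h _) hε h2
  · have h3 := abs_add_le (H 0 0) s
    have h4 := h 0
    rw [zero_sub, abs_neg]
    linarith
  · rw [h1]
    exact hs1

theorem all_types (HC : Ch H M) {δ ε : ℝ} (hn : ∀ j, ND (fun i => H (j + i)) M δ)
    (hε : 4 * ε < δ) (h : ∀ i, |H i 0| ≤ ε) {j : ℕ} (hp : 0 < lev' (fun i => H (j + i)) M 0)
    (k : ℕ) : 0 < lev' (fun i => H (k + i)) M 0 := by
  -- forward from `j`
  have hfor : ∀ m, 0 < lev' (fun i => H (j + m + i)) M 0 := by
    intro m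
    induction m with
    | zero => exact hp
    | succ m ih =>
      have e : (fun i => H (j + (m + 1) + i)) = fun i => (fun i => H (j + m + i)) (1 + i) := by
        funext i
        show H (j + (m + 1) + i) = H (j + m + (1 + i))
        congr 1
        ring
      rw [e]
      refine next_type (shift_chain HC (j + m)) ?_ hε (fun i => h _) ih
      have := hn (j + (m + 1))
      rw [e] at this
      exact this
  -- reach `k` modulo `M`
  have hM := HC.one
  have h1 := hfor (k + j * M - j)
  have e : (fun i => H (j + (k + j * M - j) + i)) = fun i => H (k + i) := by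
    funext i
    have h2 : j ≤ k + j * M := by
      have : j * 1 ≤ j * M := Nat.mul_le_mul_left j hM
      omega
    rw [show j + (k + j * M - j) + i = j * M + (k + i) by omega]
    exact per_mul HC j (k + i)
  rwa [e] at h1

end cyc

variable {N : Type u} {B : Type v} {ψ : ℝ → N → N} {F : N → N} {ρ : N → ℝ} {π : N → B} {f : B → B}

/-- orbits along a track -/
theorem track_iter [TopologicalSpace N] [TopologicalSpace B] (C : Circ ψ F ρ π f) {x : ℕ → N}
    {H : ℕ → ℝ → ℝ} (hm : ∀ i t, F (ψ t (x i)) = ψ (H i t) (x (i + 1))) (s t : ℝ) (j i : ℕ) :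
    (fun y => ψ s (F y))^[i] (ψ t (x j)) = ψ (orb (fun i => H (j + i)) i t s) (x (j + i)) := by
  induction i with
  | zero => rfl
  | succ i ih =>
    rw [Function.iterate_succ_apply', ih, hm, ← C.act.add, add_comm]
    rfl

section metric

variable [MetricSpace N] [CompactSpace N] [MetricSpace B] [CompactSpace B]

/-- **Shadowing of periodic pseudo-orbits by tracks.** -/
theorem shadow_chain (C : Circ ψ F ρ π f) (hS : PeriodicShadowing f) {ε : ℝ} (hε : 0 < ε) :
    ∃ η : ℝ, 0 < η ∧ ∀ (y : ℕ → N) (M : ℕ), 1 ≤ M → (∀ i, y (i + M) = y i) →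
      (∀ i, dist (F (y i)) (y (i + 1)) < η) → ∃ (x : ℕ → N) (H : ℕ → ℝ → ℝ), Ch H M ∧
        (∀ i t, F (ψ t (x i)) = ψ (H i t) (x (i + 1))) ∧ (∀ i, x (i + M) = x i) ∧
        (∀ i, dist (x i) (y i) < ε) ∧ (∀ i, |H i 0| ≤ ε) ∧
        ∀ i t, deriv (H i) t = ρ (ψ t (x i)) := by
  obtain ⟨lift, hl1, hl2⟩ := C.exists_lift
  obtain ⟨E, hE1, hE2⟩ := C.exists_angle
  obtain ⟨κ, hκ, hmod⟩ := modulus C hE2 hε
  obtain ⟨η4, hη4, hlift⟩ := hl2 (min κ ε) (by positivity)
  obtain ⟨η5, hη5, hsh⟩ := hS (η4 / 2) (by positivity)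
  have hπ := CompactSpace.uniformContinuous_of_continuous C.contπ
  rw [Metric.uniformContinuous_iff] at hπ
  obtain ⟨η6, hη6, hπu⟩ := hπ η5 hη5
  refine ⟨min η6 κ, by positivity, fun y M hM hy hd => ?_⟩
  obtain ⟨c, hc1, hc2⟩ := hsh (fun i => π (y i)) M hM (fun i => by rw [hy]) (fun i => by
    show dist (f (π (y i))) (π (y (i + 1))) ≤ η5
    rw [← C.semi]
    exact (hπu (lt_of_lt_of_le (hd i) (min_le_left _ _))).le)
  set x : ℕ → N := fun i => lift (f^[i] c) (y i) with hx
  set H : ℕ → ℝ → ℝ := fun i t => theta ψ ρ (x i) t + E (F (x i)) (x (i + 1)) with hH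
  have hxπ : ∀ i, π (x i) = f^[i] c := fun i => hl1 _ _
  have hFx : ∀ i, π (F (x i)) = π (x (i + 1)) := fun i => by
    rw [C.semi, hxπ, hxπ, Function.iterate_succ_apply']
  have hxper : ∀ i, x (i + M) = x i := by
    intro i
    simp only [hx]
    rw [Function.iterate_add_apply, hc1, hy]
  have hxy : ∀ i, dist (x i) (y i) < min κ ε := by
    intro i
    refine hlift _ _ ?_
    have := hc2 i
    linarith
  have hder : ∀ i t, HasDerivAt (H i) (ρ (ψ t (x i))) t := fun i t =>
    (C.theta_der _ t).add_const _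
  have hderiv : ∀ i t, deriv (H i) t = ρ (ψ t (x i)) := fun i t => (hder i t).deriv
  refine ⟨x, H, ?_, ?_, hxper, fun i => (hxy i).trans_le (min_le_right _ _), ?_, hderiv⟩
  · exact
      { smooth := fun i => (C.theta_smooth _).add contDiff_const
        incr := fun i t => by
          rw [hderiv]
          exact C.pos _
        pos := fun _ => one_pos
        perT := fun i t => by
          simp only [hH]
          rw [C.theta_per]
          ring
        one := hM
        perk := fun _ => rfl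
        shift := fun i t => by
          simp only [hH]
          rw [show i + M + 1 = (i + 1) + M by ring, hxper, hxper]
          ring_nf }
  · intro i t
    rw [C.maps]
    show ψ (theta ψ ρ (x i) t) _ = _
    simp only [hH]
    rw [C.act.add, hE1 _ _ (hFx i)]
  · intro i
    have h1 := (hmod (x i) (x (i + 1)) (y i) (y (i + 1)) (hFx i)
      ((hxy i).trans_le (min_le_left _ _)) ((hxy (i + 1)).trans_le (min_le_left _ _))
      ((hd i).trans_le (min_le_right _ _)) 0).1
    rw [Circ.theta_zero (y := y i), sub_zero] at h1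
    exact h1

/-- **No pseudo-orbits between the two types.** -/
theorem no_index_cycle_levels (C : Circ ψ F ρ π f) {e : ℝ} (he : 0 < e) (hX : ExpansiveWith f e)
    (hS : PeriodicShadowing f) {δ : ℝ} (hδ : 0 < δ)
    (hnd : ∀ (x : ℕ → N) (h : ℕ → ℝ → ℝ) (M : ℕ), Ch h M →
      (∀ i t, F (ψ t (x i)) = ψ (h i t) (x (i + 1))) → x M = x 0 → ND h M δ) :
    ∃ η : ℝ, 0 < η ∧ ∀ s s' : ℝ, |s| < η → |s'| < η → ∀ (y : ℕ → N) (M : ℕ), 1 ≤ M →
      (∀ i, y (i + M) = y i) → (∀ i, dist (F (y i)) (y (i + 1)) < η) →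
      ∀ i j, ∀ p ∈ AttPer (fun y => ψ s (F y)) ρ, ∀ q ∈ RepPer (fun y => ψ s' (F y)) ρ,
        dist (y i) p < η → dist (y j) q < η → False := by
  set δ' := min δ 1 with hδ'
  have hδ'0 : 0 < δ' := by positivity
  have hnd' : ∀ (x : ℕ → N) (h : ℕ → ℝ → ℝ) (M : ℕ), Ch h M →
      (∀ i t, F (ψ t (x i)) = ψ (h i t) (x (i + 1))) → x M = x 0 → ND h M δ' := by
    intro x h M h1 h2 h3 t s hs
    exact hnd x h M h1 h2 h3 t s (lt_of_lt_of_le hs (min_le_left _ _))
  obtain ⟨η, hη, hcross⟩ := cross_levels C he hX hS hδ'0 (min_le_right _ _) hnd'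
  obtain ⟨κ, hκ, hsh⟩ := shadow_chain C hS (ε := min (η / 2) (δ' / 8)) (by positivity)
  refine ⟨min (min (η / 2) κ) (δ' / 2), by positivity,
    fun s s' hs hs' y M hM hy hd i j p hp q hq hip hjq => ?_⟩
  have hsδ : |s| ≤ δ' / 2 := (hs.trans_le (min_le_right _ _)).le
  have hsδ' : |s'| ≤ δ' / 2 := (hs'.trans_le (min_le_right _ _)).le
  obtain ⟨x, H, HC, hmaps, hxper, hxy, hH0, hderiv⟩ := hsh y M hM hy
    fun i => (hd i).trans_le ((min_le_left _ _).trans (min_le_right _ _))
  set ε := min (η / 2) (δ' / 8) with hε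
  have hε1 : ε ≤ η / 2 := min_le_left _ _
  have hε2 : ε ≤ δ' / 8 := min_le_right _ _
  have hn : ∀ j, ND (fun i => H (j + i)) M δ' := fun j =>
    hnd' (fun i => x (j + i)) _ M (shift_chain HC j) (fun i t => by
      show F (ψ t (x (j + i))) = ψ (H (j + i) t) (x (j + (i + 1)))
      rw [hmaps]
      rfl) (hxper j)
  -- the points `x j` are periodic points of `ψ_s ∘ F`
  have hlevel : ∀ j, |lev (fun i => H (j + i)) M 0| ≤ ε := fun j =>
    level_small (shift_chain HC j) fun i => hH0 _
  have hfix : ∀ j, (fun y => ψ (lev (fun i => H (j + i)) M 0) (F y))^[M] (x j) = x j := by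
    intro j
    have h1 := track_iter C hmaps (lev (fun i => H (j + i)) M 0) 0 j M
    rw [C.act.zero, lev_eq (shift_chain HC j), C.act.zero, hxper] at h1
    exact h1
  have hprod : ∀ j, ∏ i ∈ Finset.range M, ρ ((fun y => ψ (lev (fun i => H (j + i)) M 0) (F y))^[i]
      (x j)) = dT (fun i => H (j + i)) M 0 (lev (fun i => H (j + i)) M 0) := by
    intro j
    unfold dT
    refine Finset.prod_congr rfl fun i _ => ?_
    have h1 := track_iter C hmaps (lev (fun i => H (j + i)) M 0) 0 j i
    rw [C.act.zero] at h1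
    rw [h1, hderiv]
  -- the type near `p`
  have hti : 0 < lev' (fun k => H (i + k)) M 0 := by
    have hne := (reg _ (shift_chain HC i) (hn i)).ne 0 (by
      have := hlevel i
      linarith)
    rcases lt_or_gt_of_ne hne with h | h
    · exfalso
      rw [lev'_neg (shift_chain HC i), ← hprod] at h
      obtain ⟨a, ha, hpa, hpp⟩ := hp
      have h1 := hcross s (lev (fun k => H (i + k)) M 0) hsδ
        (by have := hlevel i; linarith) p (x i) (a * M) (Nat.mul_pos ha hM)
        (by rw [Function.iterate_mul]; exact Function.iterate_fixed hpa M)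
        (by rw [mul_comm, Function.iterate_mul]; exact Function.iterate_fixed (hfix i) a)
        (by
          rw [prod_mul hpa]
          exact pow_lt_one₀ (Finset.prod_nonneg fun i _ => (C.pos _).le) hpp (by omega))
        (by
          rw [mul_comm, prod_mul (hfix i)]
          exact one_lt_pow₀ h (by omega))
      have h2 := dist_triangle p (y i) (x i)
      rw [dist_comm p (y i), dist_comm (y i) (x i)] at h2
      have h3 := hxy i
      have h4 := hip.trans_le ((min_le_left _ _).trans (min_le_left _ _))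
      linarith
    · exact h
  have htj := all_types HC hn (by linarith) hH0 hti j
  rw [lev'_pos (shift_chain HC j), ← hprod] at htj
  obtain ⟨b, hb, hqb, hqq⟩ := hq
  have h1 := hcross (lev (fun k => H (j + k)) M 0) s' (by have := hlevel j; linarith)
    hsδ' (x j) q (b * M) (Nat.mul_pos hb hM)
    (by rw [mul_comm, Function.iterate_mul]; exact Function.iterate_fixed (hfix j) b)
    (by rw [Function.iterate_mul]; exact Function.iterate_fixed hqb M)
    (by
      rw [mul_comm, prod_mul (hfix j)]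
      exact pow_lt_one₀ (Finset.prod_nonneg fun i _ => (C.pos _).le) htj (by omega))
    (by
      rw [prod_mul hqb]
      exact one_lt_pow₀ hqq (by omega))
  have h2 := dist_triangle (x j) (y j) q
  have h3 := hxy j
  have h4 := hjq.trans_le ((min_le_left _ _).trans (min_le_left _ _))
  linarith

theorem no_index_cycle (C : Circ ψ F ρ π f) {e : ℝ} (he : 0 < e) (hX : ExpansiveWith f e)
    (hS : PeriodicShadowing f) {δ : ℝ} (hδ : 0 < δ)
    (hnd : ∀ (x : ℕ → N) (h : ℕ → ℝ → ℝ) (M : ℕ), Ch h M →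
      (∀ i t, F (ψ t (x i)) = ψ (h i t) (x (i + 1))) → x M = x 0 → ND h M δ) :
    ∃ η : ℝ, 0 < η ∧ ∀ (y : ℕ → N) (M : ℕ), 1 ≤ M → (∀ i, y (i + M) = y i) →
      (∀ i, dist (F (y i)) (y (i + 1)) < η) → ∀ i j, ∀ p ∈ AttPer F ρ, ∀ q ∈ RepPer F ρ,
        dist (y i) p < η → dist (y j) q < η → False := by
  obtain ⟨η, hη, h⟩ := no_index_cycle_levels C he hX hS hδ hnd
  have hF0 : (fun y => ψ 0 (F y)) = F := by
    funext y
    exact C.act.zero _
  refine ⟨η, hη, fun y M hM hy hd i j p hp q hq hip hjq => ?_⟩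
  refine h 0 0 (by rwa [abs_zero]) (by rwa [abs_zero]) y M hM hy hd i j p ?_ q ?_ hip hjq
  · rw [hF0]
    exact hp
  · rw [hF0]
    exact hq

end metric

end Pool.Agent.J4.H85.IS
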