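import Mathlib

/-!
# Opposite crossings of two functions without critical points of small values
-/

set_option autoImplicit false

open Filter Set Topology

namespace Pool.Agent.J4.H85.IS

/-- `f'` is the derivative of `f`, and it does not vanish where `|f| < δ`. -/
structure Reg (f f' : ℝ → ℝ) (δ : ℝ) : Prop where
  der : ∀ t, HasDerivAt f (f' t) t
  ne : ∀ t, |f t| < δ → f' t ≠ 0

namespace Reg

variable {f f' : ℝ → ℝ} {δ : ℝ}

theorem cont (D : Reg f f' δ) : Continuous f :=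
  continuous_iff_continuousAt.2 fun t => (D.der t).continuousAt

theorem neg (D : Reg f f' δ) : Reg (fun t => -f t) (fun t => -f' t) δ where
  der t := (D.der t).neg
  ne t ht := neg_ne_zero.2 (D.ne t (by rwa [abs_neg] at ht))

theorem right_gt (D : Reg f f' δ) {y x : ℝ} (hyx : y < x) (h : 0 < f' y) :
    ∃ z ∈ Ioo y x, f y < f z := by
  have h6 := (D.der y).hasDerivWithinAt (s := Ioi y)
  rw [hasDerivWithinAt_iff_tendsto_slope' (by simp)] at h6
  have h7 := h6.eventually (lt_mem_nhds h)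
  obtain ⟨z, ⟨hz, hz1⟩, hz2⟩ := ((h7.and self_mem_nhdsWithin).and (Ioo_mem_nhdsGT hyx)).exists
  refine ⟨z, hz2, ?_⟩
  rw [slope_def_field] at hz
  have hz3 : 0 < z - y := by linarith [show y < z from hz1]
  have := (div_pos_iff_of_pos_right hz3).1 hz
  linarith

theorem left_gt (D : Reg f f' δ) {y x : ℝ} (hyx : y < x) (h : f' x < 0) :
    ∃ z ∈ Ioo y x, f x < f z := by
  have h6 := (D.der x).hasDerivWithinAt (s := Iio x)
  rw [hasDerivWithinAt_iff_tendsto_slope' (by simp)] at h6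
  have h7 := h6.eventually (gt_mem_nhds h)
  obtain ⟨z, ⟨hz, hz1⟩, hz2⟩ := ((h7.and self_mem_nhdsWithin).and (Ioo_mem_nhdsLT hyx)).exists
  refine ⟨z, hz2, ?_⟩
  rw [slope_def_field] at hz
  have hz3 : z - x < 0 := by linarith [show z < x from hz1]
  by_contra hc
  push Not at hc
  have := div_nonneg_of_nonpos (show f z - f x ≤ 0 by linarith) hz3.le
  linarith

theorem top (D : Reg f f' δ) {y x : ℝ} (hy : ∃ z ∈ Ioo y x, f y < f z)
    (hx : ∃ z ∈ Ioo y x, f x < f z) (h : ∃ z ∈ Icc y x, -δ < f z) : ∃ m ∈ Ioo y x, δ ≤ f m := by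
  obtain ⟨z1, hz1, hyz⟩ := hy
  obtain ⟨z2, hz2, hxz⟩ := hx
  obtain ⟨z3, hz3, hz⟩ := h
  have hle : y ≤ x := hz1.1.le.trans hz1.2.le
  obtain ⟨m, hm, hmax⟩ := isCompact_Icc.exists_isMaxOn (nonempty_Icc.2 hle) D.cont.continuousOn
  have hy1 : m ≠ y := by
    rintro rfl
    have : f z1 ≤ f m := hmax ⟨hz1.1.le, hz1.2.le⟩
    linarith
  have hx1 : m ≠ x := by
    rintro rfl
    have : f z2 ≤ f m := hmax ⟨hz2.1.le, hz2.2.le⟩
    linarith
  have hm' : m ∈ Ioo y x := ⟨lt_of_le_of_ne hm.1 hy1.symm, lt_of_le_of_ne hm.2 hx1⟩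
  refine ⟨m, hm', ?_⟩
  by_contra hcon
  push Not at hcon
  have h1 : f z3 ≤ f m := hmax hz3
  have h2 : |f m| < δ := by
    rw [abs_lt]
    constructor <;> linarith
  have h3 : IsLocalMax f m := hmax.isLocalMax (Icc_mem_nhds hm'.1 hm'.2)
  exact D.ne m h2 (h3.hasDerivAt_eq_zero (D.der m))

/-- going up at `y` and lower or equal at `x` -/
theorem up_le (D : Reg f f' δ) {y x : ℝ} (hyx : y < x) (hy : -δ < f y) (h1 : 0 < f' y)
    (h2 : f x ≤ f y) : ∃ m ∈ Ioo y x, δ ≤ f m := by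
  obtain ⟨z, hz, hz1⟩ := D.right_gt hyx h1
  exact D.top ⟨z, hz, hz1⟩ ⟨z, hz, by linarith⟩ ⟨y, ⟨le_rfl, hyx.le⟩, hy⟩

theorem up_down (D : Reg f f' δ) {y x : ℝ} (hyx : y < x) (hy : -δ < f y) (h1 : 0 < f' y)
    (h2 : f' x < 0) : ∃ m ∈ Ioo y x, δ ≤ f m :=
  D.top (D.right_gt hyx h1) (D.left_gt hyx h2) ⟨y, ⟨le_rfl, hyx.le⟩, hy⟩

theorem le_down (D : Reg f f' δ) {y x : ℝ} (hyx : y < x) (hx : -δ < f x) (h1 : f y ≤ f x)
    (h2 : f' x < 0) : ∃ m ∈ Ioo y x, δ ≤ f m := by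
  obtain ⟨z, hz, hz1⟩ := D.left_gt hyx h2
  exact D.top ⟨z, hz, by linarith⟩ ⟨z, hz, hz1⟩ ⟨x, ⟨hyx.le, le_rfl⟩, hx⟩

theorem down_ge (D : Reg f f' δ) {y x : ℝ} (hyx : y < x) (hy : f y < δ) (h1 : f' y < 0)
    (h2 : f y ≤ f x) : ∃ m ∈ Ioo y x, f m ≤ -δ := by
  obtain ⟨m, hm, h⟩ := D.neg.up_le hyx (by linarith) (by linarith) (by linarith)
  exact ⟨m, hm, by linarith⟩

theorem down_up (D : Reg f f' δ) {y x : ℝ} (hyx : y < x) (hy : f y < δ) (h1 : f' y < 0)
    (h2 : 0 < f' x) : ∃ m ∈ Ioo y x, f m ≤ -δ := by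
  obtain ⟨m, hm, h⟩ := D.neg.up_down hyx (by linarith) (by linarith) (by linarith)
  exact ⟨m, hm, by linarith⟩

theorem ge_up (D : Reg f f' δ) {y x : ℝ} (hyx : y < x) (hx : f x < δ) (h1 : f x ≤ f y)
    (h2 : 0 < f' x) : ∃ m ∈ Ioo y x, f m ≤ -δ := by
  obtain ⟨m, hm, h⟩ := D.neg.le_down hyx (by linarith) (by linarith) (by linarith)
  exact ⟨m, hm, by linarith⟩

end Reg

variable {p p' q q' : ℝ → ℝ} {δ : ℝ}

/-- **Between an opposite crossing and the next common barrier.** -/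
theorem cross_high (D : Reg p p' δ) (E : Reg q q' δ) {a b s κ : ℝ} (hab : a < b) (hκ : 0 < κ)
    (hs : |s| + κ < δ) (hpa : p a = s) (hqa : q a = s) (hp : 0 < p' a) (hq : q' a < 0)
    (hhigh : ∀ t ∈ Ioo a b, ¬ (s + κ ≤ p t ∧ s + κ ≤ q t))
    (hlow : ∀ t ∈ Ioo a b, ¬ (p t ≤ s - κ ∧ q t ≤ s - κ))
    (hpb : s + κ ≤ p b) (hqb : s + κ ≤ q b)
    (hopp : ∀ t ∈ Ioo a b, p t = q t → |p t - s| < κ → 0 < p' t * q' t) :
    ∀ x ∈ Icc a b, s - κ ≤ p x := by
  obtain ⟨hs1, hs2⟩ : s + κ < δ ∧ -δ < s - κ := by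
    have h1 := le_abs_self s
    have h2 := neg_abs_le s
    constructor <;> linarith
  intro x hx
  by_contra hcon
  push Not at hcon
  have hxa : a < x := lt_of_le_of_ne hx.1 (by rintro rfl; linarith)
  have hxb : x < b := lt_of_le_of_ne hx.2 (by rintro rfl; linarith)
  have hqx : s - κ < q x := by
    by_contra h
    push Not at h
    exact hlow x ⟨hxa, hxb⟩ ⟨hcon.le, h⟩
  -- the last point before `x` with `q ≤ p`
  set S := Icc a x ∩ {t | q t ≤ p t} with hS
  have hSc : IsCompact S := isCompact_Icc.inter_right (isClosed_le E.cont D.cont)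
  have hSne : S.Nonempty := ⟨a, ⟨le_rfl, hxa.le⟩, by show q a ≤ p a; rw [hpa, hqa]⟩
  obtain ⟨y, ⟨hy, hyle⟩, hymax⟩ := hSc.exists_isGreatest hSne
  have hyle' : q y ≤ p y := hyle
  have hyx : y < x := lt_of_le_of_ne hy.2 (by rintro rfl; linarith)
  have hlt : ∀ t, y < t → t ≤ x → p t < q t := by
    intro t ht1 ht2
    by_contra h
    push Not at h
    have := hymax ⟨⟨hy.1.trans ht1.le, ht2⟩, h⟩
    linarith
  have hpq : p y = q y := by
    refine le_antisymm ?_ hyle'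
    have h1 : ∀ᶠ t in 𝓝[>] y, p t ≤ q t := by
      filter_upwards [Ioo_mem_nhdsGT hyx] with t ht
      exact (hlt t ht.1 ht.2.le).le
    exact le_of_tendsto_of_tendsto (D.cont.continuousWithinAt) (E.cont.continuousWithinAt) h1
  have hya : a < y := by
    refine lt_of_le_of_ne hy.1 ?_
    rintro rfl
    -- right after `a` one has `p > q`
    obtain ⟨z, hz, hz1⟩ : ∃ z ∈ Ioo a x, p a - q a < p z - q z := by
      have D2 : Reg (fun t => p t - q t) (fun t => p' t - q' t) 0 :=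
        ⟨fun t => (D.der t).sub (E.der t), fun t ht => absurd ht (not_lt.2 (abs_nonneg _))⟩
      exact D2.right_gt hyx (by linarith)
    have := hlt z hz.1 hz.2.le
    linarith
  have hyb : y < b := hyx.trans hxb
  have hlev : |p y - s| < κ := by
    rw [abs_lt]
    constructor
    · by_contra h
      push Not at h
      exact hlow y ⟨hya, hyb⟩ ⟨by linarith, by linarith⟩
    · by_contra h
      push Not at h
      exact hhigh y ⟨hya, hyb⟩ ⟨by linarith, by linarith⟩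
  obtain ⟨hl1, hl2⟩ := abs_lt.1 hlev
  have hno := hopp y ⟨hya, hyb⟩ hpq hlev
  rcases pos_and_pos_or_neg_and_neg_of_mul_pos hno with ⟨hp1, -⟩ | ⟨hp1, hq1⟩
  · -- `p` goes up at `y`
    obtain ⟨m, hm, hm1⟩ := D.up_le hyx (by linarith) hp1 (by linarith)
    have h1 := hlt m hm.1 hm.2.le
    exact hhigh m ⟨hya.trans hm.1, hm.2.trans hxb⟩ ⟨by linarith, by linarith⟩
  · -- both go down at `y`
    obtain ⟨m, hm, hm1⟩ := E.down_ge hyb (by linarith) hq1 (by linarith)
    -- the first point after `y` with `q ≤ s - κ`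
    set S2 := Icc y b ∩ {t | q t ≤ s - κ} with hS2
    have hS2c : IsCompact S2 := isCompact_Icc.inter_right (isClosed_le E.cont continuous_const)
    have hS2ne : S2.Nonempty := ⟨m, ⟨hm.1.le, hm.2.le⟩, by show q m ≤ s - κ; linarith⟩
    obtain ⟨w, ⟨hw, hwle⟩, hwmin⟩ := hS2c.exists_isLeast hS2ne
    have hwle' : q w ≤ s - κ := hwle
    have hwb : w < b := lt_of_le_of_ne hw.2 (by rintro rfl; linarith)
    have hyw : y < w := lt_of_le_of_ne hw.1 (by rintro rfl; linarith)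
    have hbef : ∀ t, y ≤ t → t < w → s - κ < q t := by
      intro t ht1 ht2
      by_contra h
      push Not at h
      have := hwmin ⟨⟨ht1, ht2.le.trans hwb.le⟩, h⟩
      linarith
    have hxw : x < w := by
      by_contra h
      push Not at h
      have h1 := hlt w hyw h
      exact hlow w ⟨hya.trans hyw, hwb⟩ ⟨by linarith, hwle'⟩
    have hpw : s - κ < p w := by
      by_contra h
      push Not at h
      exact hlow w ⟨hya.trans hyw, hwb⟩ ⟨h, hwle'⟩
    -- the first point after `x` with `q ≤ p`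
    set S3 := Icc x w ∩ {t | q t ≤ p t} with hS3
    have hS3c : IsCompact S3 := isCompact_Icc.inter_right (isClosed_le E.cont D.cont)
    have hS3ne : S3.Nonempty := ⟨w, ⟨hxw.le, le_rfl⟩, by show q w ≤ p w; linarith⟩
    obtain ⟨z, ⟨hz, hzle⟩, hzmin⟩ := hS3c.exists_isLeast hS3ne
    have hzle' : q z ≤ p z := hzle
    have hxz : x < z := lt_of_le_of_ne hz.1 (by rintro rfl; linarith)
    have hlt3 : ∀ t, x ≤ t → t < z → p t < q t := by
      intro t ht1 ht2
      by_contra h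
      push Not at h
      have := hzmin ⟨⟨ht1, ht2.le.trans hz.2⟩, h⟩
      linarith
    have hpqz : p z = q z := by
      refine le_antisymm ?_ hzle'
      have h1 : ∀ᶠ t in 𝓝[<] z, p t ≤ q t := by
        filter_upwards [Ioo_mem_nhdsLT hxz] with t ht
        exact (hlt3 t ht.1.le ht.2).le
      exact le_of_tendsto_of_tendsto (D.cont.continuousWithinAt) (E.cont.continuousWithinAt) h1
    have hzw : z < w := lt_of_le_of_ne hz.2 (by rintro rfl; linarith)
    have hzab : z ∈ Ioo a b := ⟨hxa.trans hxz, hzw.trans hwb⟩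
    have hqz : s - κ < q z := hbef z (hyx.le.trans hxz.le) hzw
    have hqz2 : q z < s + κ := by
      by_contra h
      push Not at h
      exact hhigh z hzab ⟨by linarith, h⟩
    have hlevz : |p z - s| < κ := by
      rw [abs_lt]
      constructor <;> linarith
    rcases pos_and_pos_or_neg_and_neg_of_mul_pos (hopp z hzab hpqz hlevz) with ⟨-, hq2⟩ | ⟨hp2, -⟩
    · -- `q` goes down at `y` and up at `z`
      obtain ⟨m2, hm2, hm3⟩ := E.down_up (hyx.trans hxz) (by linarith) hq1 hq2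
      have := hbef m2 hm2.1.le (hm2.2.trans hzw)
      linarith
    · -- `p` is lower at `x` and goes down at `z`
      obtain ⟨m2, hm2, hm3⟩ := D.le_down hxz (by linarith) (by linarith) hp2
      have h1 := hlt3 m2 hm2.1.le hm2.2
      exact hhigh m2 ⟨hxa.trans hm2.1, hm2.2.trans hzab.2⟩ ⟨by linarith, by linarith⟩

theorem cross_low (D : Reg p p' δ) (E : Reg q q' δ) {a b s κ : ℝ} (hab : a < b) (hκ : 0 < κ)
    (hs : |s| + κ < δ) (hpa : p a = s) (hqa : q a = s) (hp : 0 < p' a) (hq : q' a < 0)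
    (hhigh : ∀ t ∈ Ioo a b, ¬ (s + κ ≤ p t ∧ s + κ ≤ q t))
    (hlow : ∀ t ∈ Ioo a b, ¬ (p t ≤ s - κ ∧ q t ≤ s - κ))
    (hpb : p b ≤ s - κ) (hqb : q b ≤ s - κ)
    (hopp : ∀ t ∈ Ioo a b, p t = q t → |p t - s| < κ → 0 < p' t * q' t) :
    ∀ x ∈ Icc a b, q x ≤ s + κ := by
  intro x hx
  have h1 := cross_high (s := -s) E.neg D.neg hab hκ (by rwa [abs_neg]) (by rw [hqa]) (by rw [hpa])
    (by linarith) (by linarith) (fun t ht h => hlow t ht ⟨by linarith [h.2], by linarith [h.1]⟩)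
    (fun t ht h => hhigh t ht ⟨by linarith [h.2], by linarith [h.1]⟩) (by linarith) (by linarith)
    (fun t ht h1 h2 => by
      have h3 : p t = q t := by linarith
      have h4 : |p t - s| < κ := by
        rw [h3, abs_sub_comm]
        have : s - q t = -q t - -s := by ring
        rwa [this]
      have := hopp t ht h3 h4
      nlinarith) x hx
  linarith

/-- **Opposite crossings are separated.** -/
theorem cross_sep (D : Reg p p' δ) (E : Reg q q' δ)
    (hsq : ∀ t t', t ≤ t' → q t' ≤ q t + (t' - t))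
    (hsp : ∀ t t', t ≤ t' → p t' ≤ p t + (t' - t)) {a b δ' : ℝ}
    (hab : a < b) (ha : p a = q a) (hb : p b = q b) (hal : |p a| ≤ δ') (hbl : |p b| ≤ δ')
    (hp : 0 < p' a) (hopp : p' b * q' b < 0) : δ - δ' ≤ b - a := by
  obtain ⟨h1, h2⟩ := abs_le.1 hal
  obtain ⟨h3, h4⟩ := abs_le.1 hbl
  by_contra hcon
  push Not at hcon
  have hle : ∀ t ∈ Icc a b, p t < δ := fun t ht => by
    have := hsp a t ht.1
    linarith [ht.2]
  -- `p` goes up at `b`
  have hpb : ¬ p' b < 0 := by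
    intro h
    obtain ⟨m, hm, hm1⟩ := D.up_down hab (by linarith) hp h
    have := hle m ⟨hm.1.le, hm.2.le⟩
    linarith
  have hpb2 : p' b ≠ 0 := by
    intro h
    rw [h, zero_mul] at hopp
    exact lt_irrefl _ hopp
  have hpb3 : 0 < p' b := lt_of_le_of_ne (not_lt.1 hpb) hpb2.symm
  have hqb : q' b < 0 := by
    by_contra h
    push Not at h
    have := mul_nonneg hpb3.le h
    linarith
  -- `p a < p b`
  have hpab : p a < p b := by
    by_contra h
    push Not at h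
    obtain ⟨m, hm, hm1⟩ := D.up_le hab (by linarith) hp h
    have := hle m ⟨hm.1.le, hm.2.le⟩
    linarith
  obtain ⟨m, hm, hm1⟩ := E.le_down hab (by linarith) (by linarith) hqb
  have := hsq a m hm.1.le
  linarith [hm.2]

/-- **The choice of a crossing.** -/
theorem exists_cross (D : Reg p p' δ) (E : Reg q q' δ) (hp'c : Continuous p')
    (hq'c : Continuous q') (hsp : ∀ t t', t ≤ t' → p t' ≤ p t + (t' - t))
    (hsq : ∀ t t', t ≤ t' → q t' ≤ q t + (t' - t)) (hδ : 0 < δ) {κ : ℝ} (hκ : 0 < κ)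
    (hκ1 : 8 * κ ≤ δ ^ 2) (hκ2 : 8 * κ ≤ δ) (hp0 : p 0 = 0) (hq0 : q 0 = 0)
    (h0 : p' 0 * q' 0 ≤ 0) {R : ℝ} (hR0 : 0 < R) (hR1 : R ≤ 1) (hpR : δ / 2 ≤ p R)
    (hqR : δ / 2 ≤ q R) :
    ∃ a b s, a < b ∧ b ≤ a + 1 ∧ |s| ≤ δ / 4 ∧ p a = s ∧ q a = s ∧ p' a * q' a < 0 ∧
      (∀ t ∈ Ioo a b, ¬ (s + κ ≤ p t ∧ s + κ ≤ q t)) ∧
      (∀ t ∈ Ioo a b, ¬ (p t ≤ s - κ ∧ q t ≤ s - κ)) ∧
      (∀ t ∈ Ioo a b, p t = q t → |p t - s| < κ → 0 < p' t * q' t) ∧
      ((s + κ ≤ p b ∧ s + κ ≤ q b) ∨ (p b ≤ s - κ ∧ q b ≤ s - κ)) := by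
  set X := Icc 0 R ∩ ({t | p t = q t} ∩ ({t | |p t| ≤ δ / 2} ∩ {t | p' t * q' t ≤ 0})) with hX
  have hXc : IsCompact X := by
    refine isCompact_Icc.inter_right ((isClosed_eq D.cont E.cont).inter
      ((isClosed_le D.cont.abs continuous_const).inter
        (isClosed_le (hp'c.mul hq'c) continuous_const)))
  have hX0 : (0 : ℝ) ∈ X := by
    refine ⟨⟨le_rfl, hR0.le⟩, ?_, ?_, h0⟩
    · show p 0 = q 0
      rw [hp0, hq0]
    · show |p 0| ≤ δ / 2
      rw [hp0, abs_zero]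
      linarith
  set μ := 2 * κ / δ with hμ
  have hμ0 : 0 < μ := by positivity
  have hμδ : μ * δ = 2 * κ := by rw [hμ]; field_simp
  have hμ1 : μ ≤ δ / 4 := by
    rw [hμ, div_le_iff₀ hδ]
    nlinarith
  have hΦ : Continuous fun t => |p t| - μ * t := D.cont.abs.sub (continuous_const.mul continuous_id)
  obtain ⟨a, ⟨ha, hpqa, hal, hopa⟩, hmin⟩ := hXc.exists_isMinOn ⟨0, hX0⟩ hΦ.continuousOn
  have hpqa' : p a = q a := hpqa
  have hal' : |p a| ≤ δ / 2 := hal
  have hopa' : p' a * q' a ≤ 0 := hopa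
  have h1 : |p a| - μ * a ≤ |p 0| - μ * 0 := hmin hX0
  rw [hp0, abs_zero] at h1
  have hs : |p a| ≤ δ / 4 := by
    have : μ * a ≤ μ * 1 := mul_le_mul_of_nonneg_left (ha.2.trans hR1) hμ0.le
    linarith
  have hopa2 : p' a * q' a < 0 := by
    refine lt_of_le_of_ne hopa' (mul_ne_zero (D.ne a (by linarith)) (E.ne a ?_))
    rw [← hpqa']
    linarith
  have haR : a < R := by
    refine lt_of_le_of_ne ha.2 ?_
    rintro rfl
    have := le_abs_self (p a)
    linarith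
  set s := p a with hsd
  have hs' := le_abs_self s
  set S := Icc a R ∩ ({t | s + κ ≤ p t ∧ s + κ ≤ q t} ∪ {t | p t ≤ s - κ ∧ q t ≤ s - κ}) with hS
  have hSc : IsCompact S := by
    refine isCompact_Icc.inter_right (IsClosed.union ?_ ?_)
    · exact (isClosed_le continuous_const D.cont).inter (isClosed_le continuous_const E.cont)
    · exact (isClosed_le D.cont continuous_const).inter (isClosed_le E.cont continuous_const)
  have hSne : S.Nonempty := ⟨R, ⟨haR.le, le_rfl⟩, Or.inl ⟨by linarith, by linarith⟩⟩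
  obtain ⟨b, ⟨hb, hbS⟩, hbmin⟩ := hSc.exists_isLeast hSne
  have hab : a < b := by
    refine lt_of_le_of_ne hb.1 ?_
    rintro rfl
    rcases hbS with ⟨h2, -⟩ | ⟨h2, -⟩
    · linarith
    · linarith
  refine ⟨a, b, s, hab, by linarith [hb.2, ha.1], hs, rfl, hpqa'.symm, hopa2, ?_, ?_, ?_, hbS⟩
  · intro t ht h2
    have := hbmin ⟨⟨ht.1.le, ht.2.le.trans hb.2⟩, Or.inl h2⟩
    linarith [ht.2]
  · intro t ht h2
    have := hbmin ⟨⟨ht.1.le, ht.2.le.trans hb.2⟩, Or.inr h2⟩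
    linarith [ht.2]
  · intro t ht hpq hlev
    by_contra hcon
    push Not at hcon
    have hpt : |p t| < |s| + κ := by
      calc |p t| = |(p t - s) + s| := by ring_nf
        _ ≤ |p t - s| + |s| := abs_add_le _ _
        _ < |s| + κ := by linarith
    have htX : t ∈ X := ⟨⟨ha.1.trans ht.1.le, ht.2.le.trans hb.2⟩, hpq,
      by show |p t| ≤ δ / 2; linarith, hcon⟩
    have h2 : |p a| - μ * a ≤ |p t| - μ * t := hmin htX
    have h3 : μ * (t - a) < κ := by
      have : |p a| = |s| := rfl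
      nlinarith
    have hopt : p' t * q' t < 0 := by
      refine lt_of_le_of_ne hcon (mul_ne_zero (D.ne t (by linarith)) (E.ne t ?_))
      rw [← hpq]
      linarith
    have hsep : δ - δ / 2 ≤ t - a := by
      rcases mul_neg_iff.1 hopa2 with ⟨h4, -⟩ | ⟨-, h4⟩
      · exact cross_sep D E hsq hsp ht.1 hpqa' hpq hal' (by linarith) h4 hopt
      · refine cross_sep E D hsp hsq ht.1 hpqa'.symm hpq.symm ?_ ?_ h4
          (by rw [mul_comm]; exact hopt)
        · rw [← hpqa']; exact hal'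
        · rw [← hpq]; linarith
    have h4 : μ * (δ / 2) ≤ μ * (t - a) := mul_le_mul_of_nonneg_left (by linarith) hμ0.le
    have h5 : μ * (δ / 2) = κ := by linarith
    linarith

end Pool.Agent.J4.H85.IS
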