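import Pool.Agent.J4.H85.IS.Chains

/-!
# No cycles between the types: manifold version
-/

set_option autoImplicit false
set_option linter.unusedSectionVars false

open scoped Manifold ContDiff Topology
open Filter Set

universe u v

namespace Pool.Agent.J4.H85.IS

open Pool.Agent.H718R2.G Pool.Agent.TH80.OMS Pool.Agent.TH290.CL Pool.Agent.J4.H85.LE

variable {n : ℕ} {N : Type u} [TopologicalSpace N] [T2Space N] [CompactSpace N]
  [ChartedSpace (V n) N] [IsManifold (𝓡 n) ∞ N]

/-- There are a neighbourhood `W` of the diagonal of `N × N` and `η > 0` such that no periodic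
`W`-pseudo-orbit of `F` comes `W`-close to a periodic point of some `ψ_s ∘ F` which is attracting along
the fibres, and `W`-close to a periodic point of some `ψ_s' ∘ F` which is repelling along the fibres,
`|s|, |s'| < η`. -/
def NoIndexCycles {N : Type u} [TopologicalSpace N] (ψ : ℝ → N → N) (F : N → N) (ρ : N → ℝ) : Prop :=
  ∃ (W : Set (N × N)) (η : ℝ), IsOpen W ∧ (∀ x, (x, x) ∈ W) ∧ 0 < η ∧
    ∀ (y : ℕ → N) (M : ℕ), 1 ≤ M → (∀ i, y (i + M) = y i) → (∀ i, (F (y i), y (i + 1)) ∈ W) →
    ∀ s s' : ℝ, |s| < η → |s'| < η → ∀ i j,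
    ∀ p ∈ AttPer (fun y => ψ s (F y)) ρ, ∀ q ∈ RepPer (fun y => ψ s' (F y)) ρ,
      ¬ ((y i, p) ∈ W ∧ (y j, q) ∈ W)

/-- **No cycles between the types.** -/
theorem noIndexCycles {B : Type v} [MetricSpace B] [CompactSpace B] {r : ℕ∞} (hr : 1 ≤ r)
    {F : DiffM n N r} (hF : OmegaStable n N r F) {ψ : ℝ → N → N} (hψ : IsFlow n N ψ)
    {ρ : N → ℝ} {π : N → B} {f : B → B} (C : Circ ψ (F : N → N) ρ π f)
    (hX : ExpansiveOnPer f) (hS : PeriodicShadowing f) : NoIndexCycles ψ (F : N → N) ρ := by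
  obtain ⟨δ, hδ, hh⟩ := family_hyp hr hF hψ
  obtain ⟨e, he, hX⟩ := hX
  have : SecondCountableTopology N := ChartedSpace.secondCountable_of_sigmaCompact (V n) N
  let _ : MetricSpace N := TopologicalSpace.metrizableSpaceMetric N
  obtain ⟨η, hη, hno⟩ := no_index_cycle_levels C he hX hS hδ
    (fun x h M h1 h2 h3 => track_nondeg hψ C.free hh h1 h2 h3)
  refine ⟨{z | dist z.1 z.2 < η}, η, isOpen_lt (continuous_fst.dist continuous_snd) continuous_const,
    fun x => ?_, hη, fun y M hM hy hd s s' hs hs' i j p hp q hq h => ?_⟩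
  · show dist x x < η
    rw [dist_self]
    exact hη
  · exact hno s s' hs hs' y M hM hy hd i j p hp q hq h.1 h.2

/-- each periodic point is attracting or repelling along the fibres -/
theorem per_eq {B : Type v} [TopologicalSpace B] {r : ℕ∞} (hr : 1 ≤ r)
    {F : DiffM n N r} (hF : OmegaStable n N r F) {ψ : ℝ → N → N} (hψ : IsFlow n N ψ)
    {ρ : N → ℝ} {π : N → B} {f : B → B} (C : Circ ψ (F : N → N) ρ π f) :
    Per (F : N → N) = AttPer (F : N → N) ρ ∪ RepPer (F : N → N) ρ := by
  obtain ⟨δ, hδ, hh⟩ := family_hyp hr hF hψ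
  apply Subset.antisymm
  · rintro p ⟨k, hk, hp⟩
    have hn := track_nondeg hψ C.free hh (x := fun i => (F : N → N)^[i] p)
      (h := fun i => theta ψ ρ ((F : N → N)^[i] p)) (M := k) (C.chain hk hp)
      (fun i t => by
        rw [C.maps, Function.iterate_succ_apply']
        rfl) hp
    have h0 : orb (fun i => theta ψ ρ ((F : N → N)^[i] p)) k 0 0 = 0 := by
      have : ∀ i, orb (fun i => theta ψ ρ ((F : N → N)^[i] p)) i 0 0 = 0 := by
        intro i
        induction i with
        | zero => rfl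
        | succ i ih =>
          show theta ψ ρ ((F : N → N)^[i] p) _ + 0 = 0
          rw [ih, add_zero]
          exact Circ.theta_zero _
      exact this k
    have hT : dT (fun i => theta ψ ρ ((F : N → N)^[i] p)) k 0 0 =
        ∏ i ∈ Finset.range k, ρ ((F : N → N)^[i] p) := by
      have : ∀ i, orb (fun i => theta ψ ρ ((F : N → N)^[i] p)) i 0 0 = 0 := by
        intro i
        induction i with
        | zero => rfl
        | succ i ih =>
          show theta ψ ρ ((F : N → N)^[i] p) _ + 0 = 0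
          rw [ih, add_zero]
          exact Circ.theta_zero _
      unfold dT
      refine Finset.prod_congr rfl fun i _ => ?_
      rw [this, C.theta_deriv]
      show ρ (ψ 0 ((F : N → N)^[i] p)) = _
      rw [C.act.zero]
    have h1 : ∏ i ∈ Finset.range k, ρ ((F : N → N)^[i] p) ≠ 1 := by
      intro h2
      refine hn 0 0 (by rwa [abs_zero]) ?_ ?_
      · show orb (fun i => theta ψ ρ ((F : N → N)^[i] p)) k 0 0 - 0 - 0 = 0
        rw [h0]
        ring
      · show dT (fun i => theta ψ ρ ((F : N → N)^[i] p)) k 0 0 - 1 = 0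
        rw [hT, h2, sub_self]
    rcases lt_or_gt_of_ne h1 with h2 | h2
    · exact Or.inl ⟨k, hk, hp, h2⟩
    · exact Or.inr ⟨k, hk, hp, h2⟩
  · rintro p (⟨k, hk, hp, -⟩ | ⟨k, hk, hp, -⟩)
    · exact ⟨k, hk, hp⟩
    · exact ⟨k, hk, hp⟩

end Pool.Agent.J4.H85.IS
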