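import Pool.Agent.J4.H85.LE.Chain

/-!
# Chains of circle diffeomorphisms of period `1` with closing translation `0`
-/

set_option autoImplicit false

open Filter Set Topology

namespace Pool.Agent.J4.H85.IS

open Pool.Agent.J4.H85.LE

/-- a closed chain of circle maps -/
abbrev Ch (P : ℕ → ℝ → ℝ) (K : ℕ) : Prop := Chain P (fun _ => 1) (fun _ => 0) K

/-- the displacement -/
abbrev dp (P : ℕ → ℝ → ℝ) (K : ℕ) : ℝ → ℝ → ℝ := Chain.disp P (fun _ => 0) K

/-- nondegeneracy -/
abbrev ND (P : ℕ → ℝ → ℝ) (K : ℕ) (δ : ℝ) : Prop :=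
  Fam.Nondeg (dp P K) (fun t s => dT P K t s - 1) δ

/-- the level at which `t` is a fixed point -/
noncomputable def lev (P : ℕ → ℝ → ℝ) (K : ℕ) (t : ℝ) : ℝ := sol (dp P K) t

/-- the derivative of the level -/
noncomputable def lev' (P : ℕ → ℝ → ℝ) (K : ℕ) (t : ℝ) : ℝ :=
  -(dT P K t (lev P K t) - 1) / dS P K t (lev P K t)

variable {P : ℕ → ℝ → ℝ} {K : ℕ} {δ : ℝ}

theorem lev_eq (H : Ch P K) (t : ℝ) : orb P K t (lev P K t) = t := by
  have h1 : Chain.disp P (fun _ => 0) K t (lev P K t) = 0 := H.fam.sol_zero t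
  unfold Chain.disp at h1
  linarith

theorem lev_unique (H : Ch P K) {t s : ℝ} (h : orb P K t s = t) : lev P K t = s := by
  refine H.fam.sol_eq (t := t) (s := s) ?_
  unfold Chain.disp
  rw [h]
  ring

/-- above the level the map moves to the right -/
theorem lev_up (H : Ch P K) {t s : ℝ} (h : lev P K t ≤ s) : t + (s - lev P K t) ≤ orb P K t s := by
  have h1 := orb_grow H.incr H.one t _ s h
  rw [lev_eq H] at h1
  linarith

theorem lev_down (H : Ch P K) {t s : ℝ} (h : s ≤ lev P K t) :
    orb P K t s ≤ t - (lev P K t - s) := by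
  have h1 := orb_grow H.incr H.one t s _ h
  rw [lev_eq H] at h1
  linarith

theorem lt_lev (H : Ch P K) {t s : ℝ} (h : orb P K t s < t) : s < lev P K t := by
  by_contra hc
  push Not at hc
  have := lev_up H hc
  linarith

theorem lev_lt (H : Ch P K) {t s : ℝ} (h : t < orb P K t s) : lev P K t < s := by
  by_contra hc
  push Not at hc
  have := lev_down H hc
  linarith

theorem le_lev (H : Ch P K) {t s : ℝ} (h : orb P K t s ≤ t) : s ≤ lev P K t := by
  by_contra hc
  push Not at hc
  have := lev_up H hc.le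
  linarith

theorem lev_le (H : Ch P K) {t s : ℝ} (h : t ≤ orb P K t s) : lev P K t ≤ s := by
  by_contra hc
  push Not at hc
  have := lev_down H hc.le
  linarith

/-- the level grows at most with unit speed -/
theorem lev_slope (H : Ch P K) {t t' : ℝ} (h : t ≤ t') : lev P K t' ≤ lev P K t + (t' - t) := by
  by_contra hc
  push Not at hc
  have h1 : lev P K t ≤ lev P K t' := by linarith
  have h2 := lev_up H (t := t) h1
  have h3 : orb P K t (lev P K t') ≤ orb P K t' (lev P K t') :=
    (orb_mono H.incr K (lev P K t')).monotone h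
  have h4 := lev_eq H t'
  linarith

theorem lev_per (H : Ch P K) (t : ℝ) : lev P K (t + 1) = lev P K t := H.fam.sol_per t

theorem lev_cont (H : Ch P K) : Continuous (lev P K) := H.fam.sol_cont

theorem lev_der (H : Ch P K) (t : ℝ) : HasDerivAt (lev P K) (lev' P K t) t := H.fam.sol_deriv t

theorem lev'_cont (H : Ch P K) : Continuous (lev' P K) := by
  have hc : Continuous fun t => (t, lev P K t) := continuous_id.prodMk (lev_cont H)
  have h1 : Continuous fun t => dT P K t (lev P K t) := (dT_cont H.smooth K).comp hc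
  have h2 : Continuous fun t => dS P K t (lev P K t) := (dS_cont H.smooth K).comp hc
  unfold lev'
  refine ((h1.sub continuous_const).neg).div h2 fun t => ?_
  exact (lt_of_lt_of_le one_pos (dS_one H.incr H.one t _)).ne'

theorem lev'_ne (H : Ch P K) (hn : ND P K δ) {t : ℝ} (ht : |lev P K t| < δ) : lev' P K t ≠ 0 :=
  H.fam.sol_deriv_ne hn ht

theorem lev'_pos (H : Ch P K) {t : ℝ} : 0 < lev' P K t ↔ dT P K t (lev P K t) < 1 := by
  have h2 : 0 < dS P K t (lev P K t) := lt_of_lt_of_le one_pos (dS_one H.incr H.one t _)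
  unfold lev'
  rw [div_pos_iff_of_pos_right h2]
  constructor <;> intro h <;> linarith

theorem lev'_neg (H : Ch P K) {t : ℝ} : lev' P K t < 0 ↔ 1 < dT P K t (lev P K t) := by
  have h2 : 0 < dS P K t (lev P K t) := lt_of_lt_of_le one_pos (dS_one H.incr H.one t _)
  unfold lev'
  rw [div_neg_iff]
  constructor
  · rintro (⟨-, h⟩ | ⟨h, -⟩)
    · linarith
    · linarith
  · intro h
    exact Or.inr ⟨by linarith, h2⟩

/-- the values of the level -/
theorem lev_surj (H : Ch P K) (hn : ND P K δ) {t₀ : ℝ} (h0 : |lev P K t₀| < δ) {s : ℝ}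
    (hs : |s| < δ) : ∃ t, lev P K t = s := by
  obtain ⟨t, -, ht⟩ := H.fam.surjOn hn h0 hs
  exact ⟨t, ht⟩

/-! ### Iterates -/

theorem orb_add (h : ℕ → ℝ → ℝ) (m n : ℕ) (t s : ℝ) :
    orb h (m + n) t s = orb (fun i => h (m + i)) n (orb h m t s) s := by
  induction n with
  | zero => rfl
  | succ n ih =>
    show h (m + n) (orb h (m + n) t s) + s = h (m + n) (orb (fun i => h (m + i)) n _ s) + s
    rw [ih]

theorem orb_congr {h h' : ℕ → ℝ → ℝ} (n : ℕ) (he : ∀ i < n, h i = h' i) (t s : ℝ) :
    orb h n t s = orb h' n t s := by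
  induction n with
  | zero => rfl
  | succ n ih =>
    show h n (orb h n t s) + s = h' n (orb h' n t s) + s
    rw [ih fun i hi => he i (by omega), he n (by omega)]

theorem per_fun (H : Ch P K) (i : ℕ) : P (i + K) = P i := by
  funext t
  have := H.shift i t
  simpa using this

theorem per_mul (H : Ch P K) (j i : ℕ) : P (j * K + i) = P i := by
  induction j with
  | zero => rw [Nat.zero_mul, Nat.zero_add]
  | succ j ih =>
    rw [show (j + 1) * K + i = j * K + i + K by ring, per_fun H, ih]

/-- the return map at the level `s` -/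
def g (P : ℕ → ℝ → ℝ) (K : ℕ) (s t : ℝ) : ℝ := orb P K t s

theorem g_mono (H : Ch P K) (s : ℝ) : StrictMono (g P K s) := orb_mono H.incr K s

theorem orb_mul (H : Ch P K) (j : ℕ) (t s : ℝ) : orb P (j * K) t s = (g P K s)^[j] t := by
  induction j with
  | zero => rw [Nat.zero_mul]; rfl
  | succ j ih =>
    rw [Function.iterate_succ_apply', ← ih, show (j + 1) * K = j * K + K by ring, orb_add]
    unfold g
    exact orb_congr K (fun i _ => per_mul H j i) _ _

/-! ### Comparison -/

theorem orb_le {h h' : ℕ → ℝ → ℝ} (hm : ∀ i, Monotone (h' i)) {ε : ℝ} (n : ℕ)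
    (hε : ∀ i < n, ∀ t, h i t ≤ h' i t + ε) (t t' s : ℝ) (ht : t ≤ t') :
    orb h n t s ≤ orb h' n t' (s + ε) := by
  induction n with
  | zero => exact ht
  | succ n ih =>
    have h1 := ih fun i hi => hε i (by omega)
    have h2 := hε n (by omega) (orb h n t s)
    have h3 := hm n h1
    show h n (orb h n t s) + s ≤ h' n (orb h' n t' (s + ε)) + (s + ε)
    linarith

theorem le_orb {h h' : ℕ → ℝ → ℝ} (hm : ∀ i, Monotone (h' i)) {ε : ℝ} (n : ℕ)
    (hε : ∀ i < n, ∀ t, h' i t - ε ≤ h i t) (t t' s : ℝ) (ht : t' ≤ t) :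
    orb h' n t' (s - ε) ≤ orb h n t s := by
  induction n with
  | zero => exact ht
  | succ n ih =>
    have h1 := ih fun i hi => hε i (by omega)
    have h2 := hε n (by omega) (orb h n t s)
    have h3 := hm n h1
    show h' n (orb h' n t' (s - ε)) + (s - ε) ≤ h n (orb h n t s) + s
    linarith

/-! ### Definite moves -/

theorem move_right {g : ℝ → ℝ} (hm : Monotone g) {x y c : ℝ} (hc : 0 < c) (hxy : x ≤ y)
    (hg : ∀ t ∈ Icc x y, t + c ≤ g t) {j : ℕ} (hj : y - x < j * c) {z : ℝ} (hz : x ≤ z) :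
    y < g^[j] z := by
  have key : ∀ j : ℕ, min (x + j * c) (y + c) ≤ g^[j] z := by
    intro j
    induction j with
    | zero =>
      have : min (x + ((0 : ℕ) : ℝ) * c) (y + c) ≤ x + ((0 : ℕ) : ℝ) * c := min_le_left _ _
      push_cast at this ⊢
      simp only [Function.iterate_zero, id]
      linarith
    | succ j ih =>
      rw [Function.iterate_succ_apply']
      set w := g^[j] z
      have hxw : x ≤ w := by
        refine le_trans (le_min ?_ (by linarith)) ih
        have : 0 ≤ (j : ℝ) * c := by positivity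
        linarith
      rcases le_or_gt w y with h1 | h1
      · have h2 := hg w ⟨hxw, h1⟩
        rcases le_total (x + j * c) (y + c) with h3 | h3
        · rw [min_eq_left h3] at ih
          refine (min_le_left _ _).trans ?_
          push_cast
          linarith
        · rw [min_eq_right h3] at ih
          exact (min_le_right _ _).trans (by linarith)
      · have h2 := hg y ⟨hxy, le_rfl⟩
        have h3 := hm h1.le
        exact (min_le_right _ _).trans (by linarith)
  refine lt_of_lt_of_le (lt_min (by linarith) (by linarith)) (key j)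

theorem iter_conj (g : ℝ → ℝ) (m : ℕ) (x : ℝ) :
    (fun x => -g (-x))^[m] x = -(g^[m] (-x)) := by
  induction m generalizing x with
  | zero => simp
  | succ m ih =>
    rw [Function.iterate_succ_apply, Function.iterate_succ_apply, ih]
    simp

theorem move_left {g : ℝ → ℝ} (hm : Monotone g) {x y c : ℝ} (hc : 0 < c) (hxy : x ≤ y)
    (hg : ∀ t ∈ Icc x y, g t ≤ t - c) {j : ℕ} (hj : y - x < j * c) {z : ℝ} (hz : z ≤ y) :
    g^[j] z < x := by
  have h1 := move_right (g := fun x => -g (-x)) (fun a b hab => neg_le_neg (hm (neg_le_neg hab)))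
    (x := -y) (y := -x) hc (by linarith) (fun t ht => by
      have := hg (-t) ⟨by linarith [ht.2], by linarith [ht.1]⟩
      linarith) (j := j) (by linarith) (z := -z) (by linarith)
  rw [iter_conj, neg_neg] at h1
  linarith

/-- a point which moves to the right is not passed to the left -/
theorem barr_right {g : ℝ → ℝ} (hm : Monotone g) {x z : ℝ} (hx : x ≤ g x) (hz : x ≤ z) (j : ℕ) :
    x ≤ g^[j] z := by
  induction j with
  | zero => exact hz
  | succ j ih =>
    rw [Function.iterate_succ_apply']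
    exact hx.trans (hm ih)

theorem barr_left {g : ℝ → ℝ} (hm : Monotone g) {x z : ℝ} (hx : g x ≤ x) (hz : z ≤ x) (j : ℕ) :
    g^[j] z ≤ x := by
  induction j with
  | zero => exact hz
  | succ j ih =>
    rw [Function.iterate_succ_apply']
    exact (hm ih).trans hx

theorem barr_right' {g : ℝ → ℝ} (hm : StrictMono g) {x z : ℝ} (hx : x < g x) (hz : x ≤ z) {j : ℕ}
    (hj : 1 ≤ j) : x < g^[j] z := by
  obtain ⟨i, rfl⟩ : ∃ i, j = i + 1 := ⟨j - 1, by omega⟩
  rw [Function.iterate_succ_apply']
  exact lt_of_lt_of_le hx (hm.monotone (barr_right hm.monotone hx.le hz i))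

theorem barr_left' {g : ℝ → ℝ} (hm : StrictMono g) {x z : ℝ} (hx : g x < x) (hz : z ≤ x) {j : ℕ}
    (hj : 1 ≤ j) : g^[j] z < x := by
  obtain ⟨i, rfl⟩ : ∃ i, j = i + 1 := ⟨j - 1, by omega⟩
  rw [Function.iterate_succ_apply']
  exact lt_of_le_of_lt (hm.monotone (barr_left hm.monotone hx.le hz i)) hx

/-- if the iterates go down from `t`, no point in between moves to the right -/
theorem down_of_iter {g : ℝ → ℝ} (hm : Monotone g) (hc : Continuous g) {t : ℝ} {j : ℕ}
    (h : g^[j] t < t) {x : ℝ} (hx : x ∈ Icc (g^[j] t) t) : g x ≤ x := by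
  by_contra hcon
  push Not at hcon
  have hopen : IsOpen {y | y < g y} := isOpen_lt continuous_id hc
  rcases hx.1.lt_or_eq with h1 | h1
  · have := barr_right hm hcon.le hx.2 j
    linarith
  · have hxt : x < t := by rw [← h1]; exact h
    have h2 : ∀ᶠ y in 𝓝[>] x, y < g y := nhdsWithin_le_nhds (hopen.mem_nhds hcon)
    obtain ⟨y, hy, hy1⟩ : ∃ y, y < g y ∧ y ∈ Ioo x t := (h2.and (Ioo_mem_nhdsGT hxt)).exists
    have := barr_right hm hy.le hy1.2.le j
    linarith [hy1.1]

theorem up_of_iter {g : ℝ → ℝ} (hm : Monotone g) (hc : Continuous g) {t : ℝ} {j : ℕ}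
    (h : t < g^[j] t) {x : ℝ} (hx : x ∈ Icc t (g^[j] t)) : x ≤ g x := by
  by_contra hcon
  push Not at hcon
  have hopen : IsOpen {y | g y < y} := isOpen_lt hc continuous_id
  rcases hx.2.lt_or_eq with h1 | h1
  · have := barr_left hm hcon.le hx.1 j
    linarith
  · have hxt : t < x := by rw [h1]; exact h
    have h2 : ∀ᶠ y in 𝓝[<] x, g y < y := nhdsWithin_le_nhds (hopen.mem_nhds hcon)
    obtain ⟨y, hy, hy1⟩ : ∃ y, g y < y ∧ y ∈ Ioo t x := (h2.and (Ioo_mem_nhdsLT hxt)).exists
    have := barr_left hm hy.le hy1.1.le j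
    linarith [hy1.2]

end Pool.Agent.J4.H85.IS
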