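import Pool.Agent.J4.H85.IS.Unif

/-!
# Separation of attracting and repelling periodic points of different maps `ψ_s ∘ F`
-/

set_option autoImplicit false
set_option linter.unusedSectionVars false

open Filter Set Topology

universe u v

namespace Pool.Agent.J4.H85.IS

open Pool.Agent.J4.H85.LE

section meet

variable {p p' q q' : ℝ → ℝ} {δ : ℝ}

/-- the first meeting point to the right -/
theorem meet_right (D : Reg p p' δ) (E : Reg q q' δ) (hp : 0 < p' 0) (hq : q' 0 < 0)
    (hp0 : |p 0| < δ) (hq0 : |q 0| < δ) (hle : p 0 ≤ q 0) (hper : q 1 = q 0) :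
    ∃ t, 0 ≤ t ∧ p t = q t ∧ p 0 ≤ p t ∧ p t ≤ q 0 ∧ 0 < p' t ∧ q' t < 0 := by
  obtain ⟨hp1, hp2⟩ := abs_lt.1 hp0
  obtain ⟨hq1, hq2⟩ := abs_lt.1 hq0
  -- the first point with `q ≤ -δ`
  obtain ⟨m₀, hm₀, hm₀'⟩ := E.down_ge one_pos hq2 hq (by rw [hper])
  set S := Icc 0 m₀ ∩ {t | q t ≤ -δ} with hS
  have hSc : IsCompact S := isCompact_Icc.inter_right (isClosed_le E.cont continuous_const)
  obtain ⟨m, ⟨hm, hmle⟩, hmmin⟩ := hSc.exists_isLeast ⟨m₀, ⟨hm₀.1.le, le_rfl⟩, hm₀'⟩
  have hmle' : q m ≤ -δ := hmle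
  have hm0 : 0 < m := lt_of_le_of_ne hm.1 (by rintro rfl; linarith)
  have hbef : ∀ t, 0 ≤ t → t < m → -δ < q t := by
    intro t h1 h2
    by_contra h
    push Not at h
    have := hmmin ⟨⟨h1, h2.le.trans hm.2⟩, h⟩
    linarith
  -- before `m`, `q` is at most `q 0`
  have hqle : ∀ t, 0 ≤ t → t ≤ m → q t ≤ q 0 := by
    intro t h1 h2
    by_contra h
    push Not at h
    have ht0 : 0 < t := lt_of_le_of_ne h1 (by rintro rfl; linarith)
    obtain ⟨z, hz, hz1⟩ := E.down_ge ht0 hq2 hq h.le
    have := hbef z hz.1.le (hz.2.trans_le h2)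
    linarith
  -- while `q > p`, `p ≥ p 0`
  have hple : ∀ t, 0 ≤ t → t ≤ m → (∀ z, 0 ≤ z → z < t → p z < q z) → p 0 ≤ p t := by
    intro t h1 h2 h3
    by_contra h
    push Not at h
    have ht0 : 0 < t := lt_of_le_of_ne h1 (by rintro rfl; linarith)
    obtain ⟨z, hz, hz1⟩ := D.up_le ht0 hp1 hp h.le
    have h4 := h3 z hz.1.le hz.2
    have h5 := hqle z hz.1.le (hz.2.le.trans h2)
    linarith
  set S2 := Icc 0 m ∩ {t | q t ≤ p t} with hS2
  have hS2c : IsCompact S2 := isCompact_Icc.inter_right (isClosed_le E.cont D.cont)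
  have hS2ne : S2.Nonempty := by
    by_contra hemp
    rw [Set.not_nonempty_iff_eq_empty] at hemp
    have h1 : ∀ z, 0 ≤ z → z ≤ m → p z < q z := by
      intro z hz1 hz2
      by_contra h
      push Not at h
      have : z ∈ S2 := ⟨⟨hz1, hz2⟩, h⟩
      rw [hemp] at this
      exact this
    have h2 := hple m hm.1 le_rfl fun z hz1 hz2 => h1 z hz1 hz2.le
    have h3 := h1 m hm.1 le_rfl
    linarith
  obtain ⟨t, ⟨ht, htle⟩, htmin⟩ := hS2c.exists_isLeast hS2ne
  have htle' : q t ≤ p t := htle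
  have hlt : ∀ z, 0 ≤ z → z < t → p z < q z := by
    intro z hz1 hz2
    by_contra h
    push Not at h
    have := htmin ⟨⟨hz1, hz2.le.trans ht.2⟩, h⟩
    linarith
  have hpq : p t = q t := by
    rcases ht.1.eq_or_lt with h0 | h0
    · rw [← h0] at htle' ⊢
      exact le_antisymm hle htle'
    · refine le_antisymm ?_ htle'
      have h1 : ∀ᶠ z in 𝓝[<] t, p z ≤ q z := by
        filter_upwards [Ioo_mem_nhdsLT h0] with z hz
        exact (hlt z hz.1.le hz.2).le
      exact le_of_tendsto_of_tendsto (D.cont.continuousWithinAt) (E.cont.continuousWithinAt) h1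
  have h1 := hple t ht.1 ht.2 hlt
  have h2 := hqle t ht.1 ht.2
  have hpt : |p t| < δ := by
    rw [abs_lt]
    constructor <;> linarith
  have hqt : |q t| < δ := by rw [← hpq]; exact hpt
  refine ⟨t, ht.1, hpq, h1, by linarith, ?_, ?_⟩
  · rcases lt_or_gt_of_ne (D.ne t hpt) with h | h
    · exfalso
      rcases ht.1.eq_or_lt with h0 | h0
      · rw [← h0] at h
        linarith
      · obtain ⟨z, hz, hz1⟩ := D.up_down h0 hp1 hp h
        have h4 := hlt z hz.1.le hz.2
        have h5 := hqle z hz.1.le (hz.2.le.trans ht.2)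
        linarith
    · exact h
  · rcases lt_or_gt_of_ne (E.ne t hqt) with h | h
    · exact h
    · exfalso
      rcases ht.1.eq_or_lt with h0 | h0
      · rw [← h0] at h
        linarith
      · obtain ⟨z, hz, hz1⟩ := E.down_up h0 hq2 hq h
        have := hbef z hz.1.le (hz.2.trans_le ht.2)
        linarith

/-- an increasing and a decreasing branch meet -/
theorem meet (D : Reg p p' δ) (E : Reg q q' δ) (hp : 0 < p' 0) (hq : q' 0 < 0)
    (hp0 : |p 0| < δ) (hq0 : |q 0| < δ) (hper : ∀ t, q (t + 1) = q t) :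
    ∃ t, p t = q t ∧ min (p 0) (q 0) ≤ p t ∧ p t ≤ max (p 0) (q 0) ∧ 0 < p' t ∧ q' t < 0 := by
  rcases le_total (p 0) (q 0) with hle | hle
  · obtain ⟨t, -, h1, h2, h3, h4, h5⟩ := meet_right D E hp hq hp0 hq0 hle (by
      have := hper 0
      rwa [zero_add] at this)
    exact ⟨t, h1, (min_le_left _ _).trans h2, h3.trans (le_max_right _ _), h4, h5⟩
  · have D2 : Reg (fun t => -p (-t)) (fun t => p' (-t)) δ := by
      refine ⟨fun t => ?_, fun t ht => D.ne (-t) (by rwa [abs_neg] at ht)⟩
      have h1 := (D.der (-t)).comp t (hasDerivAt_neg t)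
      have h2 := h1.neg
      refine h2.congr_deriv ?_
      ring
    have E2 : Reg (fun t => -q (-t)) (fun t => q' (-t)) δ := by
      refine ⟨fun t => ?_, fun t ht => E.ne (-t) (by rwa [abs_neg] at ht)⟩
      have h1 := (E.der (-t)).comp t (hasDerivAt_neg t)
      have h2 := h1.neg
      refine h2.congr_deriv ?_
      ring
    obtain ⟨t, -, h1, h2, h3, h4, h5⟩ := meet_right D2 E2 (by simpa using hp) (by simpa using hq)
      (by simpa using hp0) (by simpa using hq0) (by simpa using hle) (by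
        have := hper (-1)
        rw [neg_add_cancel] at this
        simp [this])
    simp only [neg_zero] at h1 h2 h3
    refine ⟨-t, by linarith, ?_, ?_, h4, h5⟩
    · rw [min_eq_right hle]
      linarith
    · rw [max_eq_left hle]
      linarith

end meet

variable {N : Type u} {B : Type v} {ψ : ℝ → N → N} {F : N → N} {ρ : N → ℝ} {π : N → B} {f : B → B}

section metric

variable [MetricSpace N] [CompactSpace N] [MetricSpace B] [CompactSpace B]

/-- the chain of a periodic point of `ψ_s ∘ F`, relative to `F` -/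
noncomputable def ach (ψ : ℝ → N → N) (F : N → N) (ρ : N → ℝ) (s : ℝ) (p : N) (i : ℕ) (t : ℝ) : ℝ :=
  theta ψ ρ ((fun y => ψ s (F y))^[i] p) t - s

theorem ach_maps (C : Circ ψ F ρ π f) (s : ℝ) (p : N) (i : ℕ) (t : ℝ) :
    F (ψ t ((fun y => ψ s (F y))^[i] p)) =
      ψ (ach ψ F ρ s p i t) ((fun y => ψ s (F y))^[i + 1] p) := by
  rw [C.maps, Function.iterate_succ_apply']
  unfold ach
  rw [← C.act.add, sub_add_cancel]
  rfl

theorem ach_chain (C : Circ ψ F ρ π f) {s : ℝ} {p : N} {K : ℕ} (hK : 1 ≤ K)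
    (hp : (fun y => ψ s (F y))^[K] p = p) : Ch (ach ψ F ρ s p) K := by
  have h := (C.fam s).chain hK hp
  have hd : ∀ i, deriv (ach ψ F ρ s p i) = deriv (theta ψ ρ ((fun y => ψ s (F y))^[i] p)) := by
    intro i
    funext t
    unfold ach
    exact deriv_sub_const _
  exact
    { smooth := fun i => (h.smooth i).sub contDiff_const
      incr := fun i t => by
        rw [hd]
        exact h.incr i t
      pos := fun _ => one_pos
      perT := fun i t => by
        have := h.perT i t
        unfold ach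
        linarith
      one := hK
      perk := fun _ => rfl
      shift := fun i t => by
        have := h.shift i t
        unfold ach
        linarith }

theorem ach_zero (s : ℝ) (p : N) (i : ℕ) : orb (ach ψ F ρ s p) i 0 s = 0 := by
  induction i with
  | zero => rfl
  | succ i ih =>
    show ach ψ F ρ s p i (orb (ach ψ F ρ s p) i 0 s) + s = 0
    rw [ih]
    unfold ach
    rw [Circ.theta_zero]
    ring

theorem ach_deriv (C : Circ ψ F ρ π f) (s : ℝ) (p : N) (i : ℕ) (t : ℝ) :
    deriv (ach ψ F ρ s p i) t = ρ (ψ t ((fun y => ψ s (F y))^[i] p)) := by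
  unfold ach
  rw [deriv_sub_const, C.theta_deriv]

theorem ach_dT (C : Circ ψ F ρ π f) (s : ℝ) (p : N) (K : ℕ) :
    dT (ach ψ F ρ s p) K 0 s = ∏ i ∈ Finset.range K, ρ ((fun y => ψ s (F y))^[i] p) := by
  unfold dT
  refine Finset.prod_congr rfl fun i _ => ?_
  rw [ach_zero, ach_deriv C, C.act.zero]

/-- the orbit of `ψ_t p` under another map `ψ_s' ∘ F` -/
theorem ach_iter (C : Circ ψ F ρ π f) (s s' : ℝ) (p : N) (t : ℝ) (i : ℕ) :
    (fun y => ψ s' (F y))^[i] (ψ t p) =
      ψ (orb (ach ψ F ρ s p) i t s') ((fun y => ψ s (F y))^[i] p) := by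
  induction i with
  | zero => rfl
  | succ i ih =>
    rw [Function.iterate_succ_apply', ih, ach_maps C s p i, ← C.act.add, add_comm]
    rfl

theorem ach_prod (C : Circ ψ F ρ π f) (s s' : ℝ) (p : N) (t : ℝ) (K : ℕ) :
    ∏ i ∈ Finset.range K, ρ ((fun y => ψ s' (F y))^[i] (ψ t p)) =
      dT (ach ψ F ρ s p) K t s' := by
  unfold dT
  refine Finset.prod_congr rfl fun i _ => ?_
  rw [ach_iter C s, ach_deriv C]

/-- **Separation at different levels.** -/
theorem cross_levels (C : Circ ψ F ρ π f) {e : ℝ} (he : 0 < e) (hX : ExpansiveWith f e)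
    (hS : PeriodicShadowing f) {δ : ℝ} (hδ : 0 < δ) (hδ1 : δ ≤ 1)
    (hnd : ∀ (x : ℕ → N) (h : ℕ → ℝ → ℝ) (M : ℕ), Ch h M →
      (∀ i t, F (ψ t (x i)) = ψ (h i t) (x (i + 1))) → x M = x 0 → ND h M δ) :
    ∃ η : ℝ, 0 < η ∧ ∀ s s' : ℝ, |s| ≤ δ / 2 → |s'| ≤ δ / 2 → ∀ p q K, 1 ≤ K →
      (fun y => ψ s (F y))^[K] p = p → (fun y => ψ s' (F y))^[K] q = q →
      ∏ i ∈ Finset.range K, ρ ((fun y => ψ s (F y))^[i] p) < 1 →
      1 < ∏ i ∈ Finset.range K, ρ ((fun y => ψ s' (F y))^[i] q) → η ≤ dist p q := by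
  obtain ⟨η, hη, hsep⟩ := separation' C he hX hS (δ := δ / 2) (by linarith)
  obtain ⟨η', hη', hflow⟩ := flow_unif C hη
  -- nondegeneracy at the other levels
  have hnd2 : ∀ s : ℝ, |s| ≤ δ / 2 → ∀ (x : ℕ → N) (h : ℕ → ℝ → ℝ) (M : ℕ), Ch h M →
      (∀ i t, ψ s (F (ψ t (x i))) = ψ (h i t) (x (i + 1))) → x M = x 0 → ND h M (δ / 2) := by
    intro s hs x h M H hmaps hx
    have horb : ∀ (i : ℕ) (t σ : ℝ), orb (fun i t => h i t - s) i t (σ + s) = orb h i t σ := by
      intro i t σ
      induction i with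
      | zero => rfl
      | succ i ih =>
        show h i (orb (fun i t => h i t - s) i t (σ + s)) - s + (σ + s) = h i (orb h i t σ) + σ
        rw [ih]
        ring
    have hd : ∀ i, deriv (fun t => h i t - s) = deriv (h i) := fun i => by
      funext t
      exact deriv_sub_const _
    have hdT : ∀ (i : ℕ) (t σ : ℝ), dT (fun i t => h i t - s) i t (σ + s) = dT h i t σ := by
      intro i t σ
      unfold dT
      refine Finset.prod_congr rfl fun j _ => ?_
      rw [horb, hd]
    have H2 : Ch (fun i t => h i t - s) M :=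
      { smooth := fun i => (H.smooth i).sub contDiff_const
        incr := fun i t => by
          rw [hd]
          exact H.incr i t
        pos := fun _ => one_pos
        perT := fun i t => by
          have := H.perT i t
          linarith
        one := H.one
        perk := fun _ => rfl
        shift := fun i t => by
          have := H.shift i t
          linarith }
    have hm2 : ∀ i t, F (ψ t (x i)) = ψ (h i t - s) (x (i + 1)) := by
      intro i t
      rw [sub_eq_neg_add, C.act.add, ← hmaps, ← C.act.add, neg_add_cancel, C.act.zero]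
    intro t σ hσ h0 h1
    have h2 : |σ + s| < δ := by
      have := abs_add_le σ s
      linarith
    refine hnd x _ M H2 hm2 hx t (σ + s) h2 ?_ ?_
    · have : orb h M t σ - t - 0 = 0 := h0
      show orb (fun i t => h i t - s) M t (σ + s) - t - 0 = 0
      rw [horb]
      exact this
    · have : dT h M t σ - 1 = 0 := h1
      show dT (fun i t => h i t - s) M t (σ + s) - 1 = 0
      rw [hdT]
      exact this
  refine ⟨η', hη', fun s s' hs hs' p q K hK hp hq hpa hqr => ?_⟩
  by_contra hcon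
  push Not at hcon
  have HA := ach_chain C hK hp
  have HB := ach_chain C hK hq
  have nA : ND _ K δ := hnd (fun i => (fun y => ψ s (F y))^[i] p) _ K HA (ach_maps C s p) hp
  have nB : ND _ K δ := hnd (fun i => (fun y => ψ s' (F y))^[i] q) _ K HB (ach_maps C s' q) hq
  have lA : lev (ach ψ F ρ s p) K 0 = s := lev_unique HA (ach_zero s p K)
  have lB : lev (ach ψ F ρ s' q) K 0 = s' := lev_unique HB (ach_zero s' q K)
  have hA' : 0 < lev' (ach ψ F ρ s p) K 0 := by rw [lev'_pos HA, lA, ach_dT C]; exact hpa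
  have hB' : lev' (ach ψ F ρ s' q) K 0 < 0 := by rw [lev'_neg HB, lB, ach_dT C]; exact hqr
  obtain ⟨t, h1, h2, h3, h4, h5⟩ := meet (reg _ HA nA) (reg _ HB nB) hA' hB'
    (by rw [lA]; linarith) (by rw [lB]; linarith) (lev_per HB)
  rw [lA, lB] at h2 h3
  set σ := lev (ach ψ F ρ s p) K t with hσ
  have hσδ : |σ| ≤ δ / 2 := by
    rw [abs_le] at hs hs' ⊢
    constructor
    · exact (le_min hs.1 hs'.1).trans h2
    · exact h3.trans (max_le hs.2 hs'.2)
  rw [lev'_pos HA, ← hσ] at h4
  rw [lev'_neg HB, ← h1] at h5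
  have hfp : (fun y => ψ σ (F y))^[K] (ψ t p) = ψ t p := by
    rw [ach_iter C s σ p t K, hp]
    congr 1
    exact lev_eq HA t
  have hfq : (fun y => ψ σ (F y))^[K] (ψ t q) = ψ t q := by
    rw [ach_iter C s' σ q t K, hq, h1]
    congr 1
    exact lev_eq HB t
  have := hsep σ (by linarith) (hnd2 σ hσδ) (ψ t p) (ψ t q) K hK hfp hfq
    (by rw [ach_prod C s σ p t K]; exact h4) (by rw [ach_prod C s' σ q t K]; exact h5)
  have h6 := hflow t p q hcon
  linarith

end metric

end Pool.Agent.J4.H85.IS
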