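import Pool.Agent.J4.H85.IS.Words

/-!
# Orbits which stay in an arc
-/

set_option autoImplicit false

open Filter Set Topology

namespace Pool.Agent.J4.H85.IS

open Pool.Agent.J4.H85.LE

theorem dT_add (h : ℕ → ℝ → ℝ) (m n : ℕ) (t s : ℝ) :
    dT h (m + n) t s = dT (fun i => h (m + i)) n (orb h m t s) s * dT h m t s := by
  induction n with
  | zero => simp [dT]
  | succ n ih =>
    rw [show m + (n + 1) = m + n + 1 by rfl, dT_succ, ih, dT_succ, orb_add, mul_assoc]

/-- continuity in the chain -/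
theorem tendsto_orb {Q : ℕ → ℝ → ℝ} (hQ : ∀ i, ContDiff ℝ 1 (Q i)) {h : ℕ → ℕ → ℝ → ℝ}
    {x σ e : ℕ → ℝ} {x₀ σ₀ : ℝ} (hx : Tendsto x atTop (𝓝 x₀)) (hσ : Tendsto σ atTop (𝓝 σ₀))
    (he : Tendsto e atTop (𝓝 0)) (K : ℕ)
    (hc : ∀ᶠ n in atTop, ∀ i < K, ∀ t, |h n i t - Q i t| ≤ e n ∧
      |deriv (h n i) t - deriv (Q i) t| ≤ e n) :
    Tendsto (fun n => orb (h n) K (x n) (σ n)) atTop (𝓝 (orb Q K x₀ σ₀)) ∧
      Tendsto (fun n => dT (h n) K (x n) (σ n)) atTop (𝓝 (dT Q K x₀ σ₀)) := by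
  have key : ∀ i ≤ K, Tendsto (fun n => orb (h n) i (x n) (σ n)) atTop (𝓝 (orb Q i x₀ σ₀)) ∧
      Tendsto (fun n => dT (h n) i (x n) (σ n)) atTop (𝓝 (dT Q i x₀ σ₀)) := by
    intro i hi
    induction i with
    | zero => exact ⟨hx, by simp [dT]⟩
    | succ i ih =>
      obtain ⟨h1, h2⟩ := ih (by omega)
      have hQ1 := ((hQ i).continuous.tendsto _).comp h1
      have hQ2 := (((hQ i).continuous_deriv le_rfl).tendsto _).comp h1
      have e1 : Tendsto (fun n => h n i (orb (h n) i (x n) (σ n)) -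
          Q i (orb (h n) i (x n) (σ n))) atTop (𝓝 0) := by
        refine squeeze_zero_norm' ?_ he
        filter_upwards [hc] with n hn
        rw [Real.norm_eq_abs]
        exact (hn i (by omega) _).1
      have e2 : Tendsto (fun n => deriv (h n i) (orb (h n) i (x n) (σ n)) -
          deriv (Q i) (orb (h n) i (x n) (σ n))) atTop (𝓝 0) := by
        refine squeeze_zero_norm' ?_ he
        filter_upwards [hc] with n hn
        rw [Real.norm_eq_abs]
        exact (hn i (by omega) _).2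
      have f1 : Tendsto (fun n => h n i (orb (h n) i (x n) (σ n))) atTop
          (𝓝 (Q i (orb Q i x₀ σ₀))) := by
        have := e1.add hQ1
        rw [zero_add] at this
        refine this.congr fun n => ?_
        simp only [Function.comp]
        ring
      have f2 : Tendsto (fun n => deriv (h n i) (orb (h n) i (x n) (σ n))) atTop
          (𝓝 (deriv (Q i) (orb Q i x₀ σ₀))) := by
        have := e2.add hQ2
        rw [zero_add] at this
        refine this.congr fun n => ?_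
        simp only [Function.comp]
        ring
      refine ⟨f1.add hσ, ?_⟩
      rw [dT_succ]
      refine (f2.mul h2).congr fun n => ?_
      rw [dT_succ]
  exact key K le_rfl

theorem full_aux {g : ℝ → ℝ} (hm : StrictMono g) (hc : Continuous g) {x1 x2 : ℝ}
    (huniq : ∀ x ∈ Icc x1 x2, ∀ y ∈ Icc x1 x2, g x = x → g y = y → x = y) {z : ℤ → ℝ}
    (hz : ∀ k, z k ∈ Icc x1 x2) (hs : ∀ k, z (k + 1) = g (z k)) : ¬ z 0 < g (z 0) := by
  intro hlt
  have hpos : ∀ n : ℕ, z n < z (n + 1) := by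
    intro n
    induction n with
    | zero =>
      have h0 := hs 0
      rw [zero_add] at h0
      push_cast
      rw [h0]
      exact hlt
    | succ n ih =>
      have h1 := hm ih
      rw [← hs, ← hs] at h1
      push_cast
      exact h1
  have hneg : ∀ n : ℕ, z (-n) < z (-n + 1) := by
    intro n
    induction n with
    | zero =>
      have h0 := hs 0
      rw [zero_add] at h0
      push_cast
      rw [neg_zero, h0]
      exact hlt
    | succ n ih =>
      by_contra hcon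
      push Not at hcon
      have h1 := hm.monotone hcon
      rw [← hs, ← hs] at h1
      have e : (-((n + 1 : ℕ) : ℤ) + 1) = -n := by push_cast; ring
      rw [e] at h1
      linarith
  have hmono1 : Monotone fun n : ℕ => z n := by
    refine monotone_nat_of_le_succ fun n => ?_
    have := (hpos n).le
    push_cast
    exact this
  have hmono2 : Antitone fun n : ℕ => z (-n) := by
    refine antitone_nat_of_succ_le fun n => ?_
    have := (hneg (n + 1)).le
    have e : (-((n + 1 : ℕ) : ℤ) + 1) = -n := by push_cast; ring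
    rw [e] at this
    exact this
  have hb1 : BddAbove (range fun n : ℕ => z n) := ⟨x2, by rintro _ ⟨n, rfl⟩; exact (hz _).2⟩
  have hb2 : BddBelow (range fun n : ℕ => z (-n)) := ⟨x1, by rintro _ ⟨n, rfl⟩; exact (hz _).1⟩
  have hl1 := tendsto_atTop_ciSup hmono1 hb1
  have hl2 := tendsto_atTop_ciInf hmono2 hb2
  set α := ⨆ n : ℕ, z n
  set β := ⨅ n : ℕ, z (-n)
  have hα : α ∈ Icc x1 x2 := isClosed_Icc.mem_of_tendsto hl1 (Eventually.of_forall fun n => hz _)
  have hβ : β ∈ Icc x1 x2 := isClosed_Icc.mem_of_tendsto hl2 (Eventually.of_forall fun n => hz _)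
  have hgα : g α = α := by
    have h1 := hl1.comp (tendsto_add_atTop_nat 1)
    have h2 := (hc.tendsto α).comp hl1
    refine tendsto_nhds_unique h2 (h1.congr fun n => ?_)
    simp only [Function.comp]
    push_cast
    exact hs n
  have hgβ : g β = β := by
    have h1 := hl2.comp (tendsto_add_atTop_nat 1)
    have h2 := (hc.tendsto β).comp h1
    refine tendsto_nhds_unique h2 (hl2.congr fun n => ?_)
    simp only [Function.comp]
    rw [← hs]
    congr 1
    push_cast
    ring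
  have h1 : β ≤ z 0 := by
    have := ciInf_le hb2 0
    simpa using this
  have h2 : z (0 + 1) ≤ α := by
    have := le_ciSup hb1 1
    simpa using this
  rw [hs 0] at h2
  have := huniq α hα β hβ hgα hgβ
  linarith

/-- a full orbit in an arc with at most one fixed point is fixed -/
theorem full_orbit {g : ℝ → ℝ} (hm : StrictMono g) (hc : Continuous g) {x1 x2 : ℝ}
    (huniq : ∀ x ∈ Icc x1 x2, ∀ y ∈ Icc x1 x2, g x = x → g y = y → x = y) {z : ℤ → ℝ}
    (hz : ∀ k, z k ∈ Icc x1 x2) (hs : ∀ k, z (k + 1) = g (z k)) : g (z 0) = z 0 := by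
  rcases lt_trichotomy (z 0) (g (z 0)) with h | h | h
  · exact absurd h (full_aux hm hc huniq hz hs)
  · exact h.symm
  · exfalso
    refine full_aux (g := fun x => -g (-x)) (fun a b hab => ?_) (hc.comp continuous_neg).neg
      (x1 := -x2) (x2 := -x1) (fun x hx y hy h1 h2 => ?_) (z := fun k => -z k) (fun k => ?_)
      (fun k => ?_) ?_
    · exact neg_lt_neg (hm (neg_lt_neg hab))
    · have := huniq (-x) ⟨by linarith [hx.2], by linarith [hx.1]⟩ (-y)
        ⟨by linarith [hy.2], by linarith [hy.1]⟩ (by linarith) (by linarith)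
      linarith
    · exact ⟨neg_le_neg (hz k).2, neg_le_neg (hz k).1⟩
    · simp only [neg_neg]
      rw [hs]
    · simp only [neg_neg]
      linarith

/-- **Limits of the derivatives of long orbits in an arc.** -/
theorem limit_block {Q : ℕ → ℝ → ℝ} {K : ℕ} (HQ : Ch Q K) {x1 x2 σ1 σ2 : ℝ}
    (hinj : InjOn (lev Q K) (Icc x1 x2)) {h : ℕ → ℕ → ℝ → ℝ} {x σ : ℕ → ℝ}
    (hσ : ∀ n, σ n ∈ Icc σ1 σ2)
    (hclose : ∀ n i t, i < (2 * n + 1) * K → |h n i t - Q i t| ≤ 1 / ((n : ℝ) + 1) ∧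
      |deriv (h n i) t - deriv (Q i) t| ≤ 1 / ((n : ℝ) + 1))
    (hpos : ∀ n k, k ≤ 2 * n → orb (h n) (k * K) (x n) (σ n) ∈ Icc x1 x2) :
    ∃ φ : ℕ → ℕ, StrictMono φ ∧ ∃ z ∈ Icc x1 x2, Tendsto (fun n =>
      dT (fun i => h (φ n) (φ n * K + i)) K (orb (h (φ n)) (φ n * K) (x (φ n)) (σ (φ n))) (σ (φ n)))
      atTop (𝓝 (dT Q K z (lev Q K z))) := by
  set Z : ℕ → (ℤ → ℝ) × ℝ := fun n =>
    (fun k => orb (h n) (min ((n : ℤ) + k).toNat (2 * n) * K) (x n) (σ n), σ n) with hZ
  have hcomp : IsCompact ((univ.pi fun _ : ℤ => Icc x1 x2) ×ˢ Icc σ1 σ2) :=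
    (isCompact_univ_pi fun _ => isCompact_Icc).prod isCompact_Icc
  have hmem : ∀ n, Z n ∈ (univ.pi fun _ : ℤ => Icc x1 x2) ×ˢ Icc σ1 σ2 := fun n =>
    ⟨fun k _ => hpos n _ (min_le_right _ _), hσ n⟩
  obtain ⟨⟨z, σ₀⟩, ⟨hz, hσ₀⟩, φ, hφ, hlim⟩ := hcomp.tendsto_subseq hmem
  have hz' : ∀ k, z k ∈ Icc x1 x2 := fun k => hz k (mem_univ k)
  rw [nhds_prod_eq] at hlim
  have hlim1 : Tendsto (fun n => (Z (φ n)).1) atTop (𝓝 z) := tendsto_fst.comp hlim
  have hlim2 : Tendsto (fun n => σ (φ n)) atTop (𝓝 σ₀) := tendsto_snd.comp hlim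
  rw [tendsto_pi_nhds] at hlim1
  have he : Tendsto (fun n : ℕ => 1 / ((φ n : ℝ) + 1)) atTop (𝓝 0) :=
    tendsto_one_div_add_atTop_nhds_zero_nat.comp hφ.tendsto_atTop
  -- the block at the index `k`
  have hblock : ∀ k : ℤ, ∀ᶠ n in atTop, ∃ j : ℕ, (j : ℤ) = (φ n : ℤ) + k ∧ j + 1 ≤ 2 * φ n := by
    intro k
    filter_upwards [hφ.tendsto_atTop.eventually_ge_atTop (k.natAbs + 1)] with n hn
    exact ⟨((φ n : ℤ) + k).toNat, by omega, by omega⟩
  have hstep : ∀ k : ℤ,
      Tendsto (fun n => orb (fun i => h (φ n) (min ((φ n : ℤ) + k).toNat (2 * φ n) * K + i)) K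
        ((Z (φ n)).1 k) (σ (φ n))) atTop (𝓝 (orb Q K (z k) σ₀)) ∧
      Tendsto (fun n => dT (fun i => h (φ n) (min ((φ n : ℤ) + k).toNat (2 * φ n) * K + i)) K
        ((Z (φ n)).1 k) (σ (φ n))) atTop (𝓝 (dT Q K (z k) σ₀)) := by
    intro k
    refine tendsto_orb HQ.smooth (hlim1 k) hlim2 he K ?_
    filter_upwards [hblock k] with n hn i hi t
    obtain ⟨j, hj, hj2⟩ := hn
    have e1 : min ((φ n : ℤ) + k).toNat (2 * φ n) = j := by omega
    rw [e1]
    have e2 : Q i = Q (j * K + i) := (per_mul HQ j i).symm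
    rw [e2]
    refine hclose (φ n) _ t ?_
    calc j * K + i < j * K + K := by omega
      _ = (j + 1) * K := by ring
      _ ≤ (2 * φ n + 1) * K := Nat.mul_le_mul_right _ (by omega)
  have horb : ∀ k : ℤ, z (k + 1) = g Q K σ₀ (z k) := by
    intro k
    refine tendsto_nhds_unique (hlim1 (k + 1)) ((hstep k).1.congr' ?_)
    filter_upwards [hblock k] with n hn
    obtain ⟨j, hj, hj2⟩ := hn
    have e1 : min ((φ n : ℤ) + k).toNat (2 * φ n) = j := by omega
    have e2 : min ((φ n : ℤ) + (k + 1)).toNat (2 * φ n) = j + 1 := by omega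
    simp only [hZ]
    rw [e1, e2, show (j + 1) * K = j * K + K by ring, orb_add]
  have hgc : Continuous (g Q K σ₀) :=
    (orb_cont HQ.smooth K).comp (continuous_id.prodMk (continuous_const (y := σ₀)))
  have hfix : g Q K σ₀ (z 0) = z 0 := by
    refine full_orbit (g_mono HQ σ₀) hgc (x1 := x1) (x2 := x2) (fun x hx y hy h1 h2 => ?_) hz' horb
    refine hinj hx hy ?_
    rw [lev_unique HQ h1, lev_unique HQ h2]
  have hlev : lev Q K (z 0) = σ₀ := lev_unique HQ hfix
  refine ⟨φ, hφ, z 0, hz' 0, ?_⟩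
  rw [hlev]
  refine (hstep 0).2.congr fun n => ?_
  have e1 : min ((φ n : ℤ) + 0).toNat (2 * φ n) = φ n := by omega
  simp only [hZ]
  rw [e1]

end Pool.Agent.J4.H85.IS
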