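import Pool.Agent.J4.H85.IS.Arc

/-!
# The type of long words, and the contradiction
-/

set_option autoImplicit false

open Filter Set Topology

namespace Pool.Agent.J4.H85.IS

open Pool.Agent.J4.H85.LE

variable {P Q : ℕ → ℝ → ℝ} {K : ℕ} {ε δ c C : ℝ} {H : ℕ → ℕ → ℕ → ℝ → ℝ}

theorem rep_middle {Q : ℕ → ℝ → ℝ} {K : ℕ} (HQ : Ch Q K) {x1 x2 σ lam τ : ℝ} {J0 : ℕ}
    (hlam : 0 ≤ lam)
    (hU : ∀ (h : ℕ → ℝ → ℝ) (x : ℝ),
      (∀ i t, i < (2 * J0 + 1) * K → |h i t - Q i t| ≤ τ ∧ |deriv (h i) t - deriv (Q i) t| ≤ τ) →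
      (∀ k, k ≤ 2 * J0 → orb h (k * K) x σ ∈ Icc x1 x2) →
      lam ≤ dT (fun i => h (J0 * K + i)) K (orb h (J0 * K) x σ) σ)
    (h : ℕ → ℝ → ℝ) (x : ℝ) (L : ℕ)
    (hclose : ∀ i t, i < (L + 2 * J0) * K →
      |h i t - Q i t| ≤ τ ∧ |deriv (h i) t - deriv (Q i) t| ≤ τ)
    (hpos : ∀ k, k ≤ L + 2 * J0 → orb h (k * K) x σ ∈ Icc x1 x2) :
    lam ^ L ≤ dT (fun i => h (J0 * K + i)) (L * K) (orb h (J0 * K) x σ) σ := by
  refine block_rep hlam L fun j hj => ?_
  have h1 := hU (fun i => h (j * K + i)) (orb h (j * K) x σ) (fun i t hi => ?_) fun k hk => ?_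
  · rw [orb_shift] at h1 ⊢
    rw [Nat.add_comm (J0 * K) (j * K)]
    convert h1 using 2
    funext i
    congr 1
    ring
  · have e : Q i = Q (j * K + i) := (per_mul HQ j i).symm
    rw [e]
    refine hclose _ t ?_
    calc j * K + i < j * K + (2 * J0 + 1) * K := by omega
      _ = (j + 1 + 2 * J0) * K := by ring
      _ ≤ (L + 2 * J0) * K := Nat.mul_le_mul_right _ (by omega)
  · rw [orb_shift, ← Nat.add_mul]
    exact hpos _ (by omega)

theorem att_middle {Q : ℕ → ℝ → ℝ} {K : ℕ} (HQ : Ch Q K) {x1 x2 σ lam τ : ℝ} {J0 : ℕ}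
    (hU : ∀ (h : ℕ → ℝ → ℝ) (x : ℝ),
      (∀ i t, i < (2 * J0 + 1) * K → |h i t - Q i t| ≤ τ ∧ |deriv (h i) t - deriv (Q i) t| ≤ τ) →
      (∀ k, k ≤ 2 * J0 → orb h (k * K) x σ ∈ Icc x1 x2) →
      dT (fun i => h (J0 * K + i)) K (orb h (J0 * K) x σ) σ ≤ lam)
    (h : ℕ → ℝ → ℝ) (hi : ∀ i t, 0 < deriv (h i) t) (x : ℝ) (L : ℕ)
    (hclose : ∀ i t, i < (L + 2 * J0) * K →
      |h i t - Q i t| ≤ τ ∧ |deriv (h i) t - deriv (Q i) t| ≤ τ)
    (hpos : ∀ k, k ≤ L + 2 * J0 → orb h (k * K) x σ ∈ Icc x1 x2) :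
    dT (fun i => h (J0 * K + i)) (L * K) (orb h (J0 * K) x σ) σ ≤ lam ^ L := by
  refine block_att (fun i t => hi _ t) L fun j hj => ?_
  have h1 := hU (fun i => h (j * K + i)) (orb h (j * K) x σ) (fun i t hi => ?_) fun k hk => ?_
  · rw [orb_shift] at h1 ⊢
    rw [Nat.add_comm (J0 * K) (j * K)]
    convert h1 using 2
    funext i
    congr 1
    ring
  · have e : Q i = Q (j * K + i) := (per_mul HQ j i).symm
    rw [e]
    refine hclose _ t ?_
    calc j * K + i < j * K + (2 * J0 + 1) * K := by omega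
      _ = (j + 1 + 2 * J0) * K := by ring
      _ ≤ (L + 2 * J0) * K := Nat.mul_le_mul_right _ (by omega)
  · rw [orb_shift, ← Nat.add_mul]
    exact hpos _ (by omega)

namespace Words

/-- **Words with a long second block are repelling.** -/
theorem type_rep (W : Words P Q K ε δ c C H) (HP : Ch P K) (HQ : Ch Q K) (nQ : ND Q K δ)
    (hc : 0 < c) (hε : 0 < ε) {a s : ℝ} (hPa : lev P K a = s) (hQa : lev Q K a = s)
    (hQa' : lev' Q K a < 0) (hs : |s| + 3 * ε < δ) {m : ℕ} (hm : 1 ≤ m) :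
    ∃ l0, ∀ l, l0 ≤ l → 1 ≤ l → lev' (H m l) (m * K + l * K) a < 0 := by
  obtain ⟨x1, x2, hx1, hx2, hl1, hl2, hinj, hneg⟩ := arc_rep HQ nQ hQa hQa' (e := 3 * ε)
    (by linarith) hs
  obtain ⟨lam, τ, hlam, hτ, J0, hU⟩ := long_rep HQ (σ1 := s - ε) (σ2 := s + ε) hinj
    fun z hz => (lev'_neg HQ).1 (hneg z hz)
  obtain ⟨J, hJ⟩ := W.deepB τ hτ
  set E : ℝ := c ^ ((J0 + J) * K) * c ^ (m * K + J * K + J0 * K) with hE
  have hE0 : 0 < E := by positivity
  obtain ⟨L0, hL0⟩ := pow_unbounded_of_one_lt (1 / E) hlam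
  refine ⟨2 * J + 2 * J0 + L0, fun l hl hl1' => ?_⟩
  obtain ⟨L, rfl⟩ : ∃ L, l = J + (L + 2 * J0) + J := ⟨l - 2 * J - 2 * J0, by omega⟩
  set l := J + (L + 2 * J0) + J with hldef
  have hC := W.chain m l hm hl1'
  rw [lev'_neg hC]
  have hnear := abs_le.1 (W.near HP HQ hm hl1' hPa hQa)
  set σ := lev (H m l) (m * K + l * K) a with hσ
  have hret : orb (H m l) (m * K + l * K) a σ = a := lev_eq hC a
  have hK : 1 ≤ K := HQ.one
  -- positions in the second block
  have hpos : ∀ j, j ≤ l → orb (H m l) (m * K + j * K) a σ ∈ Icc x1 x2 := by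
    intro j hj
    have hjl : j * K + (l - j) * K = l * K := by rw [← Nat.add_mul, Nat.add_sub_cancel' hj]
    have hsplit : m * K + l * K = m * K + j * K + (l - j) * K := by omega
    have hidx : ∀ i, i < (l - j) * K → j * K + i < l * K := by
      intro i hi
      omega
    have hQs : ∀ i, Q i = Q (j * K + i) := fun i => (per_mul HQ j i).symm
    rw [hsplit, orb_add] at hret
    constructor
    · by_contra hcon
      push Not at hcon
      have h1 : a ≤ orb Q ((l - j) * K) x1 (σ + ε) := by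
        rw [← hret]
        refine orb_le (fun i => (h_mono HQ.incr i).monotone) _ (fun i hi t => ?_) _ _ _ ?_
        · have := (abs_le.1 (W.two m l (j * K + i) t hm hl1' (hidx i hi))).2
          rw [← hQs i, ← add_assoc] at this
          linarith
        · exact hcon.le
      rw [orb_mul HQ] at h1
      have h2 : (g Q K (σ + ε))^[l - j] x1 ≤ x1 := by
        refine barr_left (g_mono HQ _).monotone ?_ le_rfl _
        have := lev_down HQ (t := x1) (s := σ + ε) (by linarith [hnear.2])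
        unfold g
        linarith [hnear.2]
      linarith
    · by_contra hcon
      push Not at hcon
      have h1 : orb Q ((l - j) * K) x2 (σ - ε) ≤ a := by
        rw [← hret]
        refine le_orb (fun i => (h_mono HQ.incr i).monotone) _ (fun i hi t => ?_) _ _ _ ?_
        · have := (abs_le.1 (W.two m l (j * K + i) t hm hl1' (hidx i hi))).1
          rw [← hQs i, ← add_assoc] at this
          linarith
        · exact hcon.le
      rw [orb_mul HQ] at h1
      have h2 : x2 ≤ (g Q K (σ - ε))^[l - j] x2 := by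
        refine barr_right (g_mono HQ _).monotone ?_ le_rfl _
        have := lev_up HQ (t := x2) (s := σ - ε) (by linarith [hnear.1])
        unfold g
        linarith [hnear.1]
      linarith
  -- the middle part
  have hmid := rep_middle HQ (x1 := x1) (x2 := x2) (σ := σ) (lam := lam) (τ := τ) (J0 := J0)
    (by linarith) (fun h x h1 h2 => hU h x σ ⟨by linarith [hnear.1], by linarith [hnear.2]⟩ h1 h2)
    (fun i => H m l (m * K + J * K + i)) (orb (H m l) (m * K + J * K) a σ) L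
    (fun i t hi => by
      have e : Q i = Q (J * K + i) := (per_mul HQ J i).symm
      rw [e, add_assoc]
      have h1 : J * K + (L + 2 * J0) * K + J * K = l * K := by rw [hldef]; ring
      have h2 : J ≤ J * K := Nat.le_mul_of_pos_right J hK
      exact hJ m l (J * K + i) t hm hl1' (by omega) (by omega))
    (fun k hk => by
      rw [orb_shift, add_assoc, ← Nat.add_mul]
      exact hpos _ (by omega))
  rw [orb_shift] at hmid
  -- the whole product
  have hsplit : m * K + l * K = (m * K + J * K + J0 * K) + (L * K + (J0 + J) * K) := by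
    rw [hldef]
    ring
  rw [hsplit, dT_add, dT_add]
  have b1 : c ^ (m * K + J * K + J0 * K) ≤ dT (H m l) (m * K + J * K + J0 * K) a σ :=
    dT_low hc.le (fun i t => W.low m l i t hm hl1') _ _ _
  have b2 : lam ^ L ≤ dT (fun i => H m l (m * K + J * K + J0 * K + i)) (L * K)
      (orb (H m l) (m * K + J * K + J0 * K) a σ) σ := by
    refine hmid.trans (le_of_eq ?_)
    congr 1
    funext i
    congr 1
    ring
  have b3 : c ^ ((J0 + J) * K) ≤ dT (fun i => H m l (m * K + J * K + J0 * K + (L * K + i)))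
      ((J0 + J) * K) (orb (fun i => H m l (m * K + J * K + J0 * K + i)) (L * K)
      (orb (H m l) (m * K + J * K + J0 * K) a σ) σ) σ :=
    dT_low hc.le (fun i t => W.low m l _ t hm hl1') _ _ _
  have hlamL : 1 / E < lam ^ L := lt_of_lt_of_le hL0 (pow_le_pow_right₀ hlam.le (by omega))
  have h5 : 1 < E * lam ^ L := by
    rw [div_lt_iff₀ hE0] at hlamL
    linarith
  have h6 : c ^ ((J0 + J) * K) * lam ^ L * c ^ (m * K + J * K + J0 * K) ≤
      dT (fun i => H m l (m * K + J * K + J0 * K + (L * K + i))) ((J0 + J) * K)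
        (orb (fun i => H m l (m * K + J * K + J0 * K + i)) (L * K)
        (orb (H m l) (m * K + J * K + J0 * K) a σ) σ) σ *
      dT (fun i => H m l (m * K + J * K + J0 * K + i)) (L * K)
      (orb (H m l) (m * K + J * K + J0 * K) a σ) σ *
      dT (H m l) (m * K + J * K + J0 * K) a σ := by
    have p1 : 0 < c ^ ((J0 + J) * K) := by positivity
    have p2 : 0 < lam ^ L := by positivity
    have p3 : 0 < c ^ (m * K + J * K + J0 * K) := by positivity
    refine mul_le_mul (mul_le_mul b3 b2 p2.le (p1.le.trans b3)) b1 p3.le ?_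
    exact mul_nonneg (p1.le.trans b3) (p2.le.trans b2)
  have h7 : c ^ ((J0 + J) * K) * lam ^ L * c ^ (m * K + J * K + J0 * K) = E * lam ^ L := by
    rw [hE]
    ring
  linarith

/-- **Words with a long first block are attracting.** -/
theorem type_att (W : Words P Q K ε δ c C H) (HP : Ch P K) (HQ : Ch Q K) (nP : ND P K δ)
    (hC0 : 0 < C) (hε : 0 < ε) {a s : ℝ} (hPa : lev P K a = s) (hQa : lev Q K a = s)
    (hPa' : 0 < lev' P K a) (hs : |s| + 3 * ε < δ) {l : ℕ} (hl : 1 ≤ l) :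
    ∃ m0, ∀ m, m0 ≤ m → 1 ≤ m → 0 < lev' (H m l) (m * K + l * K) a := by
  obtain ⟨x1, x2, hx1, hx2, hl1, hl2, hinj, hpos'⟩ := arc_att HP nP hPa hPa' (e := 3 * ε)
    (by linarith) hs
  obtain ⟨lam, τ, hlam0, hlam, hτ, J0, hU⟩ := long_att HP (σ1 := s - ε) (σ2 := s + ε) hinj
    fun z hz => (lev'_pos HP).1 (hpos' z hz)
  obtain ⟨J, hJ⟩ := W.deepA τ hτ
  set E : ℝ := C ^ ((J0 + J) * K + l * K) * C ^ (J * K + J0 * K) with hE
  have hE0 : 0 < E := by positivity
  obtain ⟨L0, hL0⟩ := exists_pow_lt_of_lt_one (show (0 : ℝ) < 1 / E by positivity) hlam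
  refine ⟨2 * J + 2 * J0 + L0, fun m hm hm1 => ?_⟩
  obtain ⟨L, rfl⟩ : ∃ L, m = J + (L + 2 * J0) + J := ⟨m - 2 * J - 2 * J0, by omega⟩
  set m := J + (L + 2 * J0) + J with hmdef
  have hC := W.chain m l hm1 hl
  rw [lev'_pos hC]
  have hnear := abs_le.1 (W.near HP HQ hm1 hl hPa hQa)
  set σ := lev (H m l) (m * K + l * K) a with hσ
  have hK : 1 ≤ K := HQ.one
  have hpos : ∀ j, j ≤ m → orb (H m l) (j * K) a σ ∈ Icc x1 x2 := by
    intro j hj
    have hjm : j * K ≤ m * K := Nat.mul_le_mul_right _ hj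
    constructor
    · have h1 : orb P (j * K) a (σ - ε) ≤ orb (H m l) (j * K) a σ := by
        refine le_orb (fun i => (h_mono HP.incr i).monotone) _ (fun i hi t => ?_) _ _ _ le_rfl
        have := (abs_le.1 (W.one m l i t hm1 hl (by omega))).1
        linarith
      rw [orb_mul HP] at h1
      have h2 : x1 ≤ (g P K (σ - ε))^[j] a := by
        refine barr_right (g_mono HP _).monotone ?_ hx1.le _
        have := lev_up HP (t := x1) (s := σ - ε) (by linarith [hnear.1])
        unfold g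
        linarith [hnear.1]
      linarith
    · have h1 : orb (H m l) (j * K) a σ ≤ orb P (j * K) a (σ + ε) := by
        refine orb_le (fun i => (h_mono HP.incr i).monotone) _ (fun i hi t => ?_) _ _ _ le_rfl
        have := (abs_le.1 (W.one m l i t hm1 hl (by omega))).2
        linarith
      rw [orb_mul HP] at h1
      have h2 : (g P K (σ + ε))^[j] a ≤ x2 := by
        refine barr_left (g_mono HP _).monotone ?_ hx2.le _
        have := lev_down HP (t := x2) (s := σ + ε) (by linarith [hnear.2])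
        unfold g
        linarith [hnear.2]
      linarith
  have hmid := att_middle HP (x1 := x1) (x2 := x2) (σ := σ) (lam := lam) (τ := τ) (J0 := J0)
    (fun h x h1 h2 => hU h x σ ⟨by linarith [hnear.1], by linarith [hnear.2]⟩ h1 h2)
    (fun i => H m l (J * K + i)) (fun i t => hC.incr _ t) (orb (H m l) (J * K) a σ) L
    (fun i t hi => by
      have e : P i = P (J * K + i) := (per_mul HP J i).symm
      rw [e]
      have h1 : J * K + (L + 2 * J0) * K + J * K = m * K := by rw [hmdef]; ring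
      have h2 : J ≤ J * K := Nat.le_mul_of_pos_right J hK
      exact hJ m l (J * K + i) t hm1 hl (by omega) (by omega))
    (fun k hk => by
      rw [orb_shift, ← Nat.add_mul]
      exact hpos _ (by omega))
  rw [orb_shift] at hmid
  have hsplit : m * K + l * K = (J * K + J0 * K) + (L * K + ((J0 + J) * K + l * K)) := by
    rw [hmdef]
    ring
  rw [hsplit, dT_add, dT_add]
  have b1 : dT (H m l) (J * K + J0 * K) a σ ≤ C ^ (J * K + J0 * K) :=
    dT_high (fun i t => (hC.incr i t).le) (fun i t => W.high m l i t hm1 hl) _ _ _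
  have b2 : dT (fun i => H m l (J * K + J0 * K + i)) (L * K)
      (orb (H m l) (J * K + J0 * K) a σ) σ ≤ lam ^ L := by
    refine (le_of_eq ?_).trans hmid
    congr 1
    funext i
    congr 1
    ring
  have b3 : dT (fun i => H m l (J * K + J0 * K + (L * K + i)))
      ((J0 + J) * K + l * K) (orb (fun i => H m l (J * K + J0 * K + i)) (L * K)
      (orb (H m l) (J * K + J0 * K) a σ) σ) σ ≤ C ^ ((J0 + J) * K + l * K) :=
    dT_high (fun i t => (hC.incr _ t).le) (fun i t => W.high m l _ t hm1 hl) _ _ _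
  have q1 := dT_pos hC.incr (J * K + J0 * K) a σ
  have q2 := dT_pos (h := fun i => H m l (J * K + J0 * K + i)) (fun i t => hC.incr _ t) (L * K)
      (orb (H m l) (J * K + J0 * K) a σ) σ
  have q3 := dT_pos (h := fun i => H m l (J * K + J0 * K + (L * K + i))) (fun i t => hC.incr _ t)
      ((J0 + J) * K + l * K) (orb (fun i => H m l (J * K + J0 * K + i)) (L * K)
      (orb (H m l) (J * K + J0 * K) a σ) σ) σ
  have hlamL : lam ^ L < 1 / E :=
    lt_of_le_of_lt (pow_le_pow_of_le_one hlam0.le hlam.le (by omega)) hL0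
  have h5 : E * lam ^ L < 1 := by
    rw [lt_div_iff₀ hE0] at hlamL
    linarith
  have h6 : dT (fun i => H m l (J * K + J0 * K + (L * K + i)))
      ((J0 + J) * K + l * K) (orb (fun i => H m l (J * K + J0 * K + i)) (L * K)
      (orb (H m l) (J * K + J0 * K) a σ) σ) σ *
      dT (fun i => H m l (J * K + J0 * K + i)) (L * K) (orb (H m l) (J * K + J0 * K) a σ) σ *
      dT (H m l) (J * K + J0 * K) a σ ≤
      C ^ ((J0 + J) * K + l * K) * lam ^ L * C ^ (J * K + J0 * K) := by
    refine mul_le_mul (mul_le_mul b3 b2 q2.le (q3.le.trans b3)) b1 q1.le ?_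
    exact mul_nonneg (q3.le.trans b3) (q2.le.trans b2)
  have h7 : C ^ ((J0 + J) * K + l * K) * lam ^ L * C ^ (J * K + J0 * K) = E * lam ^ L := by
    rw [hE]
    ring
  linarith

/-- the contradiction at a crossing: `P` up, `Q` down -/
theorem contra (W : Words P Q K ε δ c C H) (HP : Ch P K) (HQ : Ch Q K) (nP : ND P K δ)
    (nQ : ND Q K δ) (hc : 0 < c) (hC0 : 0 < C) (hε : 0 < ε) {a b s κ : ℝ}
    (hab : a < b) (hab1 : b ≤ a + 1) (hεκ : 2 * ε < κ) (hs : |s| + 2 * κ < δ)
    (hPa : lev P K a = s) (hQa : lev Q K a = s) (hP : 0 < lev' P K a) (hQ : lev' Q K a < 0)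
    (hhigh : ∀ t ∈ Ioo a b, ¬ (s + κ ≤ lev P K t ∧ s + κ ≤ lev Q K t))
    (hlow : ∀ t ∈ Ioo a b, ¬ (lev P K t ≤ s - κ ∧ lev Q K t ≤ s - κ))
    (hopp : ∀ t ∈ Ioo a b, lev P K t = lev Q K t → |lev P K t - s| < κ →
      0 < lev' P K t * lev' Q K t)
    (hb : (s + κ ≤ lev P K b ∧ s + κ ≤ lev Q K b) ∨ (lev P K b ≤ s - κ ∧ lev Q K b ≤ s - κ)) :
    False := by
  have hκ : 0 < κ := by linarith
  have rP := reg P HP nP
  have rQ := reg Q HQ nQ
  rcases hb with ⟨hPb, hQb⟩ | ⟨hPb, hQb⟩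
  · have hcr := cross_high rP rQ hab hκ (by linarith) hPa hQa hP hQ hhigh hlow hPb hQb hopp
    obtain ⟨m, hm⟩ := exists_nat_gt ((1 + κ) / (κ - ε))
    rw [div_lt_iff₀ (by linarith)] at hm
    have hm1 : 1 ≤ m := by
      rcases Nat.eq_zero_or_pos m with h | h
      · rw [h] at hm
        push_cast at hm
        linarith
      · exact h
    obtain ⟨l0, hl0⟩ := W.type_rep HP HQ nQ hc hε hPa hQa hQ (by linarith) hm1
    have h1 := hl0 (l0 + 1) (by omega) (by omega)
    have h2 := W.high_attr HP HQ hab hab1 hε hεκ hs hPa hQa hPb hQb hcr (l := l0 + 1) (by omega) hm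
    linarith
  · have hcr := cross_low rP rQ hab hκ (by linarith) hPa hQa hP hQ hhigh hlow hPb hQb hopp
    obtain ⟨l, hl⟩ := exists_nat_gt (1 / (κ - ε))
    rw [div_lt_iff₀ (by linarith)] at hl
    have hl1 : 1 ≤ l := by
      rcases Nat.eq_zero_or_pos l with h | h
      · rw [h] at hl
        push_cast at hl
        linarith
      · exact h
    obtain ⟨m0, hm0⟩ := W.type_att HP HQ nP hC0 hε hPa hQa hP (by linarith) hl1
    have h1 := hm0 (m0 + 1) (by omega) (by omega)
    have h2 := W.low_rep HP HQ hab hab1 hε hεκ hs hPa hQa hPb hQb hcr (m := m0 + 1) (by omega) hl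
    linarith

end Words

/-- **No attracting and repelling points with the same phase.** -/
theorem no_cross {A B : ℕ → ℝ → ℝ} {H H' : ℕ → ℕ → ℕ → ℝ → ℝ} {c' C' : ℝ} (hδ : 0 < δ) (hδ1 : δ ≤ 1)
    (hε : 0 < ε) (hεδ : 32 * ε ≤ δ ^ 2) (HA : Ch A K) (HB : Ch B K) (nA : ND A K δ)
    (nB : ND B K δ) (hc : 0 < c) (hC : 0 < C) (hc' : 0 < c') (hC' : 0 < C')
    (W : Words A B K ε δ c C H) (W' : Words B A K ε δ c' C' H')
    (hA0 : orb A K 0 0 = 0) (hB0 : orb B K 0 0 = 0) (hA : dT A K 0 0 < 1) (hB : 1 < dT B K 0 0) :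
    False := by
  have lA0 : lev A K 0 = 0 := lev_unique HA hA0
  have lB0 : lev B K 0 = 0 := lev_unique HB hB0
  have hA' : 0 < lev' A K 0 := by rw [lev'_pos HA, lA0]; exact hA
  have hB' : lev' B K 0 < 0 := by rw [lev'_neg HB, lB0]; exact hB
  have hδ2 : δ ^ 2 ≤ δ := by nlinarith
  obtain ⟨R, hR0, hR1, hRA, hRB⟩ := W.barrier HA HB hε lA0 lB0 (s := δ / 2) (by linarith)
    (by linarith)
  obtain ⟨a, b, s, hab, hab1, hs, hAa, hBa, hop, hhigh, hlow, hopp, hb⟩ :=
    exists_cross (reg A HA nA) (reg B HB nB) (lev'_cont HA) (lev'_cont HB)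
      (fun t t' h => lev_slope HA h) (fun t t' h => lev_slope HB h) hδ (κ := δ ^ 2 / 8)
      (by positivity) (by linarith) (by linarith) lA0 lB0 (by nlinarith) hR0 hR1 hRA hRB
  have hεκ : 2 * ε < δ ^ 2 / 8 := by linarith
  have hsκ : |s| + 2 * (δ ^ 2 / 8) < δ := by linarith
  rcases mul_neg_iff.1 hop with ⟨h1, h2⟩ | ⟨h1, h2⟩
  · exact W.contra HA HB nA nB hc hC hε hab hab1 hεκ hsκ hAa hBa h1 h2 hhigh hlow hopp hb
  · refine W'.contra HB HA nB nA hc' hC' hε hab hab1 hεκ hsκ hBa hAa h2 h1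
      (fun t ht h => hhigh t ht h.symm) (fun t ht h => hlow t ht h.symm) (fun t ht h3 h4 => ?_) ?_
    · have := hopp t ht h3.symm (by rw [← h3]; exact h4)
      linarith
    · rcases hb with h | h
      · exact Or.inl h.symm
      · exact Or.inr h.symm

end Pool.Agent.J4.H85.IS
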