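import Pool.Agent.J4.H85.IS.Bundle
import Pool.Agent.J4.H85.IS.Type

/-!
# Words from shadowing
-/

set_option autoImplicit false
set_option linter.unusedSectionVars false

open Filter Set Topology

universe u v

namespace Pool.Agent.J4.H85.IS

open Pool.Agent.J4.H85.LE

/-- Periodic pseudo-orbits are shadowed by periodic orbits of the same period. -/
def PeriodicShadowing {B : Type v} [MetricSpace B] (f : B → B) : Prop :=
  ∀ ε : ℝ, 0 < ε → ∃ η : ℝ, 0 < η ∧ ∀ (z : ℕ → B) (M : ℕ), 1 ≤ M → (∀ i, z (i + M) = z i) →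
    (∀ i, dist (f (z i)) (z (i + 1)) ≤ η) → ∃ c, f^[M] c = c ∧ ∀ i, dist (f^[i] c) (z i) ≤ ε

variable {N : Type u} {B : Type v} {ψ : ℝ → N → N} {F : N → N} {ρ : N → ℝ} {π : N → B} {f : B → B}

section metric

variable [MetricSpace N] [CompactSpace N] [MetricSpace B] [CompactSpace B]

/-- the modulus of closeness of the fibre maps -/
theorem modulus (C : Circ ψ F ρ π f) {E : N → N → ℝ}
    (hE : ∀ ε : ℝ, 0 < ε → ∃ η : ℝ, 0 < η ∧ ∀ x x', π x = π x' → dist x x' < η → |E x x'| < ε)
    {ε : ℝ} (hε : 0 < ε) : ∃ κ : ℝ, 0 < κ ∧ ∀ x x' z z', π (F x) = π x' → dist x z < κ →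
      dist x' z' < κ → dist (F z) z' < κ → ∀ t,
        |theta ψ ρ x t + E (F x) x' - theta ψ ρ z t| ≤ ε ∧ |ρ (ψ t x) - ρ (ψ t z)| ≤ ε := by
  obtain ⟨η1, hη1, h1⟩ := C.close (ε := ε / 2) (by linarith)
  obtain ⟨η2, hη2, h2⟩ := hE (ε / 2) (by linarith)
  have hF := CompactSpace.uniformContinuous_of_continuous C.contF
  rw [Metric.uniformContinuous_iff] at hF
  obtain ⟨η3, hη3, h3⟩ := hF (η2 / 3) (by linarith)
  refine ⟨min η1 (min η3 (η2 / 3)), by positivity, fun x x' z z' hπ hx hx' hz t => ?_⟩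
  have a1 : dist x z < η1 := lt_of_lt_of_le hx (min_le_left _ _)
  have a2 : dist x z < η3 := lt_of_lt_of_le hx ((min_le_right _ _).trans (min_le_left _ _))
  have a3 : dist x' z' < η2 / 3 := lt_of_lt_of_le hx' ((min_le_right _ _).trans (min_le_right _ _))
  have a4 : dist (F z) z' < η2 / 3 := lt_of_lt_of_le hz ((min_le_right _ _).trans (min_le_right _ _))
  have a5 := h3 a2
  have a6 : dist (F x) x' < η2 := by
    have b1 := dist_triangle (F x) (F z) x'
    have b2 := dist_triangle (F z) z' x'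
    rw [dist_comm z' x'] at b2
    linarith
  obtain ⟨c1, c2⟩ := h1 x z a1 t
  have c3 := h2 (F x) x' hπ a6
  refine ⟨?_, by linarith⟩
  have e : theta ψ ρ x t + E (F x) x' - theta ψ ρ z t =
      (theta ψ ρ x t - theta ψ ρ z t) + E (F x) x' := by ring
  rw [e]
  have := abs_add_le (theta ψ ρ x t - theta ψ ρ z t) (E (F x) x')
  linarith

/-- the reference sequence of a word -/
def zz (F : N → N) (p q : N) (a M i : ℕ) : N :=
  if i % M < a then F^[i % M] p else F^[i % M - a] q

theorem zz_per (p q : N) (a M i : ℕ) : zz F p q a M (i + M) = zz F p q a M i := by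
  unfold zz
  rw [Nat.add_mod_right]

theorem zz_one {p q : N} {a M i : ℕ} (h : i < a) (hM : a ≤ M) : zz F p q a M i = F^[i] p := by
  unfold zz
  rw [Nat.mod_eq_of_lt (lt_of_lt_of_le h hM), if_pos h]

theorem zz_two {p q : N} {a b i : ℕ} (h : i < b) : zz F p q a (a + b) (a + i) = F^[i] q := by
  unfold zz
  rw [Nat.mod_eq_of_lt (by omega), if_neg (by omega), Nat.add_sub_cancel_left]

theorem zz_step {p q : N} {a b : ℕ} (ha : 1 ≤ a) (hb : 1 ≤ b) (hp : F^[a] p = p)
    (hq : F^[b] q = q) (i : ℕ) :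
    dist (F (zz F p q a (a + b) i)) (zz F p q a (a + b) (i + 1)) ≤ dist p q := by
  have hmod : i % (a + b) < a + b := Nat.mod_lt _ (by omega)
  have hred : ∀ j, zz F p q a (a + b) j = zz F p q a (a + b) (j % (a + b)) := by
    intro j
    unfold zz
    rw [Nat.mod_mod]
  have hred2 : zz F p q a (a + b) (i + 1) = zz F p q a (a + b) (i % (a + b) + 1) := by
    rw [hred (i + 1), hred (i % (a + b) + 1), Nat.mod_add_mod]
  rw [hred i, hred2]
  set j := i % (a + b)
  rcases lt_or_ge j a with h1 | h1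
  · rw [zz_one h1 (by omega)]
    rcases Nat.lt_or_ge (j + 1) a with h2 | h2
    · rw [zz_one h2 (by omega), Function.iterate_succ_apply', dist_self]
      exact dist_nonneg
    · have e : j + 1 = a := by omega
      have e2 : zz F p q a (a + b) (j + 1) = q := by
        have := zz_two (F := F) (p := p) (q := q) (a := a) (b := b) (i := 0) (by omega)
        rw [e]
        exact this
      rw [e2, ← Function.iterate_succ_apply' F j p, Nat.succ_eq_add_one, e, hp]
  · obtain ⟨k, hk⟩ : ∃ k, j = a + k := ⟨j - a, by omega⟩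
    rw [hk, zz_two (by omega)]
    rcases Nat.lt_or_ge (k + 1) b with h2 | h2
    · rw [show a + k + 1 = a + (k + 1) by ring, zz_two h2, Function.iterate_succ_apply', dist_self]
      exact dist_nonneg
    · have e : k + 1 = b := by omega
      have e2 : zz F p q a (a + b) (a + k + 1) = p := by
        rw [show a + k + 1 = a + b by omega, hred, Nat.mod_self]
        exact zz_one (by omega) (by omega)
      rw [e2, ← Function.iterate_succ_apply' F k q, Nat.succ_eq_add_one, e, hq, dist_comm]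

/-- **Words.** -/
theorem exists_words (C : Circ ψ F ρ π f) {e : ℝ} (he : 0 < e) (hX : ExpansiveWith f e)
    (hS : PeriodicShadowing f) {δ : ℝ}
    (hnd : ∀ (x : ℕ → N) (h : ℕ → ℝ → ℝ) (M : ℕ), Ch h M →
      (∀ i t, F (ψ t (x i)) = ψ (h i t) (x (i + 1))) → x M = x 0 → ND h M δ) {ε : ℝ} (hε : 0 < ε) :
    ∃ η : ℝ, 0 < η ∧ ∀ p q K, 1 ≤ K → F^[K] p = p → F^[K] q = q → dist p q < η →
      ∃ (H : ℕ → ℕ → ℕ → ℝ → ℝ) (c c' : ℝ), 0 < c ∧ 0 < c' ∧
        Words (fun i => theta ψ ρ (F^[i] p)) (fun i => theta ψ ρ (F^[i] q)) K ε δ c c' H := by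
  obtain ⟨lift, hl1, hl2⟩ := C.exists_lift
  obtain ⟨E, hE1, hE2⟩ := C.exists_angle
  obtain ⟨κ, hκ, hmod⟩ := modulus C hE2 hε
  obtain ⟨η4, hη4, hlift⟩ := hl2 κ hκ
  obtain ⟨η5, hη5, hsh⟩ := hS (min (η4 / 2) e) (by positivity)
  have hπ := CompactSpace.uniformContinuous_of_continuous C.contπ
  rw [Metric.uniformContinuous_iff] at hπ
  obtain ⟨η6, hη6, hπu⟩ := hπ η5 hη5
  refine ⟨min η6 κ, by positivity, fun p q K hK hp hq hpq => ?_⟩
  have hpq1 : dist p q < η6 := lt_of_lt_of_le hpq (min_le_left _ _)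
  have hpq2 : dist p q < κ := lt_of_lt_of_le hpq (min_le_right _ _)
  have hpK : ∀ m, F^[m * K] p = p := fun m => by
    rw [mul_comm, Function.iterate_mul]
    exact Function.iterate_fixed hp m
  have hqK : ∀ m, F^[m * K] q = q := fun m => by
    rw [mul_comm, Function.iterate_mul]
    exact Function.iterate_fixed hq m
  set Z : ℕ → ℕ → ℕ → N := fun m l => zz F p q (m * K) (m * K + l * K) with hZ
  have hmK : ∀ m, 1 ≤ m → 1 ≤ m * K := fun m hm => Nat.mul_pos hm hK
  have hZstep : ∀ m l, 1 ≤ m → 1 ≤ l → ∀ i, dist (F (Z m l i)) (Z m l (i + 1)) ≤ dist p q :=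
    fun m l hm hl i => zz_step (hmK m hm) (hmK l hl) (hpK m) (hqK l) i
  have hπη : ∀ x y, dist x y ≤ dist p q → dist (π x) (π y) ≤ η5 := fun x y hxy =>
    (hπu (lt_of_le_of_lt hxy hpq1)).le
  -- the shadowing orbits
  have hc : ∀ m l, ∃ c, 1 ≤ m → 1 ≤ l → f^[m * K + l * K] c = c ∧
      ∀ i, dist (f^[i] c) (π (Z m l i)) ≤ min (η4 / 2) e := by
    intro m l
    by_cases h : 1 ≤ m ∧ 1 ≤ l
    · obtain ⟨c, hc1, hc2⟩ := hsh (fun i => π (Z m l i)) (m * K + l * K)
        (by have := hmK m h.1; omega) (fun i => by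
          show π (Z m l (i + (m * K + l * K))) = π (Z m l i)
          rw [hZ]
          exact congrArg π (zz_per p q _ _ i))
        (fun i => by
          show dist (f (π (Z m l i))) (π (Z m l (i + 1))) ≤ η5
          rw [← C.semi]
          exact hπη _ _ (hZstep m l h.1 h.2 i))
      exact ⟨c, fun _ _ => ⟨hc1, hc2⟩⟩
    · exact ⟨π p, fun h1 h2 => absurd ⟨h1, h2⟩ h⟩
  choose c hc using hc
  set x : ℕ → ℕ → ℕ → N := fun m l i => lift (f^[i] (c m l)) (Z m l i) with hx
  set H : ℕ → ℕ → ℕ → ℝ → ℝ := fun m l i t =>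
    theta ψ ρ (x m l i) t + E (F (x m l i)) (x m l (i + 1)) with hH
  have hxπ : ∀ m l i, π (x m l i) = f^[i] (c m l) := fun m l i => hl1 _ _
  have hFx : ∀ m l i, π (F (x m l i)) = π (x m l (i + 1)) := fun m l i => by
    rw [C.semi, hxπ, hxπ, Function.iterate_succ_apply']
  have hxper : ∀ m l, 1 ≤ m → 1 ≤ l → ∀ i, x m l (i + (m * K + l * K)) = x m l i := by
    intro m l hm hl i
    simp only [hx]
    rw [Function.iterate_add_apply, (hc m l hm hl).1]
    congr 1
    exact zz_per p q _ _ i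
  have hxZ : ∀ m l, 1 ≤ m → 1 ≤ l → ∀ i, dist (x m l i) (Z m l i) < κ := by
    intro m l hm hl i
    refine hlift _ _ ?_
    have := (hc m l hm hl).2 i
    have h2 := this.trans (min_le_left _ _)
    linarith
  have hder : ∀ m l i t, HasDerivAt (H m l i) (ρ (ψ t (x m l i))) t := fun m l i t =>
    (C.theta_der _ t).add_const _
  have hderiv : ∀ m l i t, deriv (H m l i) t = ρ (ψ t (x m l i)) := fun m l i t =>
    (hder m l i t).deriv
  have hmaps : ∀ m l i t, F (ψ t (x m l i)) = ψ (H m l i t) (x m l (i + 1)) := by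
    intro m l i t
    rw [C.maps]
    show ψ (theta ψ ρ (x m l i) t) _ = _
    simp only [hH]
    rw [C.act.add, hE1 _ _ (hFx m l i)]
  have hchain : ∀ m l, 1 ≤ m → 1 ≤ l → Ch (H m l) (m * K + l * K) := by
    intro m l hm hl
    refine
      { smooth := fun i => (C.theta_smooth _).add contDiff_const
        incr := fun i t => by
          rw [hderiv]
          exact C.pos _
        pos := fun _ => one_pos
        perT := fun i t => ?_
        one := by have := hmK m hm; omega
        perk := fun _ => rfl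
        shift := fun i t => ?_ }
    · simp only [hH]
      rw [C.theta_per]
      ring
    · simp only [hH]
      rw [show i + (m * K + l * K) + 1 = (i + 1) + (m * K + l * K) by ring, hxper m l hm hl,
        hxper m l hm hl]
      ring_nf
  -- closeness in general
  have hgen : ∀ m l, 1 ≤ m → 1 ≤ l → ∀ i t, |H m l i t - theta ψ ρ (Z m l i) t| ≤ ε := by
    intro m l hm hl i t
    exact (hmod _ _ _ _ (hFx m l i) (hxZ m l hm hl i) (hxZ m l hm hl (i + 1))
      (lt_of_le_of_lt (hZstep m l hm hl i) hpq2) t).1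
  -- closeness deep inside
  have hdeep : ∀ τ : ℝ, 0 < τ → ∃ J, ∀ m l, 1 ≤ m → 1 ≤ l → ∀ (r : N) (a n : ℕ), F^[K] r = r →
      (∀ i < n, Z m l (a + i) = F^[i] r) → ∀ i t, J ≤ i → i + J ≤ n →
      |H m l (a + i) t - theta ψ ρ (F^[i] r) t| ≤ τ ∧
      |deriv (H m l (a + i)) t - deriv (theta ψ ρ (F^[i] r)) t| ≤ τ := by
    intro τ hτ
    obtain ⟨κ', hκ', hmod'⟩ := modulus C hE2 hτ
    obtain ⟨η', hη', hlift'⟩ := hl2 κ' hκ'
    obtain ⟨J', hJ'⟩ := expansive_window C.contf hX hη'
    refine ⟨J' + 2, fun m l hm hl r a n hrK hr i t hi1 hi2 => ?_⟩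
    have key : ∀ j, J' ≤ j → j + J' < n → dist (x m l (a + j)) (F^[j] r) < κ' := by
      intro j hj1 hj2
      have hcP : ∃ k, 1 ≤ k ∧ f^[k] (c m l) = c m l :=
        ⟨_, by have := hmK m hm; omega, (hc m l hm hl).1⟩
      have hrP : ∃ k, 1 ≤ k ∧ f^[k] (π r) = π r := ⟨K, hK, by rw [← C.pi_iter, hrK]⟩
      have h1 := hJ' (f^[a + j - J'] (c m l)) (f^[j - J'] (π r)) (per_iter hcP _)
        (per_iter hrP _) (fun k hk => by
        rw [← Function.iterate_add_apply, ← Function.iterate_add_apply, ← C.pi_iter,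
          ← hr _ (by omega)]
        have h2 := (hc m l hm hl).2 (k + (a + j - J'))
        rw [show a + (k + (j - J')) = k + (a + j - J') by omega]
        exact h2.trans (min_le_right _ _))
      rw [← Function.iterate_add_apply, ← Function.iterate_add_apply, ← C.pi_iter,
        show J' + (a + j - J') = a + j by omega, show J' + (j - J') = j by omega] at h1
      have h3 := hlift' _ _ h1
      simp only [hx]
      rw [hr j (by omega)]
      exact h3
    have k1 := key i (by omega) (by omega)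
    have k2 := key (i + 1) (by omega) (by omega)
    have h4 := hmod' (x m l (a + i)) (x m l (a + i + 1)) (F^[i] r) (F^[i + 1] r) (hFx m l (a + i))
      k1 k2 (by rw [Function.iterate_succ_apply', dist_self]; exact hκ') t
    refine ⟨h4.1, ?_⟩
    rw [hderiv, C.theta_deriv]
    exact h4.2
  -- bounds for the derivative
  obtain ⟨y1, -, hy1⟩ := (isCompact_univ (X := N)).exists_isMinOn ⟨p, mem_univ _⟩
    C.contρ.continuousOn
  obtain ⟨y2, -, hy2⟩ := (isCompact_univ (X := N)).exists_isMaxOn ⟨p, mem_univ _⟩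
    C.contρ.continuousOn
  have hZ1 : ∀ m l i, i < m * K → Z m l i = F^[i] p := fun m l i hi => by
    simp only [hZ]
    exact zz_one hi (Nat.le_add_right _ _)
  have hZ2 : ∀ m l i, i < l * K → Z m l (m * K + i) = F^[i] q := fun m l i hi => by
    simp only [hZ]
    exact zz_two hi
  refine ⟨H, ρ y1, ρ y2, C.pos _, C.pos _, ?_⟩
  refine
    { chain := hchain
      nondeg := fun m l hm hl => hnd (x m l) (H m l) _ (hchain m l hm hl) (hmaps m l) (by
        have := hxper m l hm hl 0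
        rwa [zero_add] at this)
      one := fun m l i t hm hl hi => by
        have := hgen m l hm hl i t
        rwa [hZ1 m l i hi] at this
      two := fun m l i t hm hl hi => by
        have := hgen m l hm hl (m * K + i) t
        rwa [hZ2 m l i hi] at this
      deepA := fun τ hτ => ?_
      deepB := fun τ hτ => ?_
      low := fun m l i t _ _ => by
        rw [hderiv]
        exact hy1 (mem_univ _)
      high := fun m l i t _ _ => by
        rw [hderiv]
        exact hy2 (mem_univ _) }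
  · obtain ⟨J, hJ⟩ := hdeep τ hτ
    refine ⟨J, fun m l i t hm hl h1 h2 => ?_⟩
    have := hJ m l hm hl p 0 (m * K) hp (fun j hj => by rw [zero_add]; exact hZ1 m l j hj) i t h1 h2
    rwa [zero_add] at this
  · obtain ⟨J, hJ⟩ := hdeep τ hτ
    exact ⟨J, fun m l i t hm hl h1 h2 =>
      hJ m l hm hl q (m * K) (l * K) hq (fun j hj => hZ2 m l j hj) i t h1 h2⟩

/-- **Index separation, metric version.** -/
theorem separation (C : Circ ψ F ρ π f) {e : ℝ} (he : 0 < e) (hX : ExpansiveWith f e)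
    (hS : PeriodicShadowing f) {δ : ℝ} (hδ : 0 < δ)
    (hnd : ∀ (x : ℕ → N) (h : ℕ → ℝ → ℝ) (M : ℕ), Ch h M →
      (∀ i t, F (ψ t (x i)) = ψ (h i t) (x (i + 1))) → x M = x 0 → ND h M δ) :
    ∃ η : ℝ, 0 < η ∧ ∀ p q K, 1 ≤ K → F^[K] p = p → F^[K] q = q →
      ∏ i ∈ Finset.range K, ρ (F^[i] p) < 1 → 1 < ∏ i ∈ Finset.range K, ρ (F^[i] q) →
      η ≤ dist p q := by
  set δ' := min δ 1 with hδ'
  have hδ'0 : 0 < δ' := by positivity
  have hnd' : ∀ (x : ℕ → N) (h : ℕ → ℝ → ℝ) (M : ℕ), Ch h M →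
      (∀ i t, F (ψ t (x i)) = ψ (h i t) (x (i + 1))) → x M = x 0 → ND h M δ' := by
    intro x h M h1 h2 h3 t s hs
    exact hnd x h M h1 h2 h3 t s (lt_of_lt_of_le hs (min_le_left _ _))
  set ε := δ' ^ 2 / 32 with hε
  have hε0 : 0 < ε := by positivity
  obtain ⟨η, hη, hW⟩ := exists_words C he hX hS hnd' hε0
  refine ⟨η, hη, fun p q K hK hp hq hpa hqr => ?_⟩
  by_contra hcon
  push Not at hcon
  obtain ⟨H, c, c', hc, hc', W⟩ := hW p q K hK hp hq hcon
  obtain ⟨H', d, d', hd, hd', W'⟩ := hW q p K hK hq hp (by rwa [dist_comm])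
  have hA := C.chain hK hp
  have hB := C.chain hK hq
  have hmapsA : ∀ y : N, ∀ i t, F (ψ t (F^[i] y)) = ψ (theta ψ ρ (F^[i] y) t) (F^[i + 1] y) := by
    intro y i t
    rw [C.maps, Function.iterate_succ_apply']
    rfl
  have nA : ND _ K δ' := hnd' (fun i => F^[i] p) _ K hA (hmapsA p) hp
  have nB : ND _ K δ' := hnd' (fun i => F^[i] q) _ K hB (hmapsA q) hq
  have horb : ∀ (y : N) (i : ℕ), orb (fun i => theta ψ ρ (F^[i] y)) i 0 0 = 0 := by
    intro y i
    induction i with
    | zero => rfl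
    | succ i ih =>
      show theta ψ ρ (F^[i] y) (orb (fun i => theta ψ ρ (F^[i] y)) i 0 0) + 0 = 0
      rw [ih, add_zero]
      exact Circ.theta_zero _
  have hdT : ∀ y : N, dT (fun i => theta ψ ρ (F^[i] y)) K 0 0 =
      ∏ i ∈ Finset.range K, ρ (F^[i] y) := by
    intro y
    unfold dT
    refine Finset.prod_congr rfl fun i _ => ?_
    rw [horb, C.theta_deriv]
    show ρ (ψ 0 (F^[i] y)) = _
    rw [C.act.zero]
  exact no_cross hδ'0 (min_le_right _ _) hε0 (by rw [hε]; linarith) hA hB nA nB hc hc' hd hd' W W'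
    (horb p K) (horb q K) (by rw [hdT]; exact hpa) (by rw [hdT]; exact hqr)

end metric

end Pool.Agent.J4.H85.IS
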