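import Pool.Agent.J4.H85.IS.Track

/-!
# Words for a family of maps, uniformly
-/

set_option autoImplicit false
set_option linter.unusedSectionVars false

open Filter Set Topology

universe u v

namespace Pool.Agent.J4.H85.IS

open Pool.Agent.J4.H85.LE

variable {N : Type u} {B : Type v} {ψ : ℝ → N → N} {F : N → N} {ρ : N → ℝ} {π : N → B} {f : B → B}

/-- the maps `ψ_s ∘ F` -/
theorem Circ.fam [TopologicalSpace N] [TopologicalSpace B] (C : Circ ψ F ρ π f) (s : ℝ) :
    Circ ψ (fun y => ψ s (F y)) ρ π f where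
  act := C.act
  cont := C.cont
  free := C.free
  contF := C.cont.comp (continuous_const.prodMk C.contF)
  inj := by
    intro x y h
    have h1 : ψ (-s) (ψ s (F x)) = ψ (-s) (ψ s (F y)) := congrArg _ h
    rw [← C.act.add, ← C.act.add, neg_add_cancel, C.act.zero, C.act.zero] at h1
    exact C.inj h1
  contρ := C.contρ
  pos := C.pos
  maps t y := by
    show ψ s (F (ψ t y)) = _
    rw [C.maps, C.act.comm]
  contπ := C.contπ
  surj := C.surj
  fib := C.fib
  contf := C.contf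
  semi y := by
    show π (ψ s (F y)) = _
    rw [C.pi_psi, C.semi]

section metric

variable [MetricSpace N] [CompactSpace N] [MetricSpace B] [CompactSpace B]

theorem fam_unif (C : Circ ψ F ρ π f) {ε : ℝ} (hε : 0 < ε) : ∃ η : ℝ, 0 < η ∧ ∀ s : ℝ, |s| ≤ 1 →
    ∀ x y, dist x y < η → dist (ψ s (F x)) (ψ s (F y)) < ε := by
  have hc : Continuous fun q : ℝ × N => ψ q.1 (F q.2) :=
    C.cont.comp (continuous_fst.prodMk (C.contF.comp continuous_snd))
  have hK : IsCompact ((Icc (-1 : ℝ) 1) ×ˢ (univ : Set N)) := isCompact_Icc.prod isCompact_univ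
  have hu := hK.uniformContinuousOn_of_continuous hc.continuousOn
  rw [Metric.uniformContinuousOn_iff] at hu
  obtain ⟨η, hη, h⟩ := hu ε hε
  refine ⟨η, hη, fun s hs x y hxy => ?_⟩
  refine h (s, x) ⟨abs_le.1 hs, mem_univ _⟩ (s, y) ⟨abs_le.1 hs, mem_univ _⟩ ?_
  rw [Prod.dist_eq, dist_self]
  exact max_lt hη hxy

/-- the flow is uniformly continuous -/
theorem flow_unif (C : Circ ψ F ρ π f) {ε : ℝ} (hε : 0 < ε) : ∃ η : ℝ, 0 < η ∧ ∀ t : ℝ,
    ∀ x y, dist x y < η → dist (ψ t x) (ψ t y) < ε := by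
  have hK : IsCompact ((Icc (0 : ℝ) 1) ×ˢ (univ : Set N)) := isCompact_Icc.prod isCompact_univ
  have hu := hK.uniformContinuousOn_of_continuous C.cont.continuousOn
  rw [Metric.uniformContinuousOn_iff] at hu
  obtain ⟨η, hη, h⟩ := hu ε hε
  refine ⟨η, hη, fun t x y hxy => ?_⟩
  rw [← C.fract x t, ← C.fract y t]
  have ht : Int.fract t ∈ Icc (0 : ℝ) 1 := ⟨Int.fract_nonneg _, (Int.fract_lt_one _).le⟩
  refine h (Int.fract t, x) ⟨ht, mem_univ _⟩ (Int.fract t, y) ⟨ht, mem_univ _⟩ ?_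
  rw [Prod.dist_eq, dist_self]
  exact max_lt hη hxy

theorem modulus' (C : Circ ψ F ρ π f) {E : N → N → ℝ}
    (hE : ∀ ε : ℝ, 0 < ε → ∃ η : ℝ, 0 < η ∧ ∀ x x', π x = π x' → dist x x' < η → |E x x'| < ε)
    {ε : ℝ} (hε : 0 < ε) : ∃ κ : ℝ, 0 < κ ∧ ∀ s : ℝ, |s| ≤ 1 → ∀ x x' z z',
      π (ψ s (F x)) = π x' → dist x z < κ →
      dist x' z' < κ → dist (ψ s (F z)) z' < κ → ∀ t,
        |theta ψ ρ x t + E (ψ s (F x)) x' - theta ψ ρ z t| ≤ ε ∧
          |ρ (ψ t x) - ρ (ψ t z)| ≤ ε := by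
  obtain ⟨η1, hη1, h1⟩ := C.close (ε := ε / 2) (by linarith)
  obtain ⟨η2, hη2, h2⟩ := hE (ε / 2) (by linarith)
  obtain ⟨η3, hη3, h3⟩ := fam_unif C (ε := η2 / 3) (by linarith)
  refine ⟨min η1 (min η3 (η2 / 3)), by positivity, fun s hs x x' z z' hπ hx hx' hz t => ?_⟩
  have a1 : dist x z < η1 := lt_of_lt_of_le hx (min_le_left _ _)
  have a2 : dist x z < η3 := lt_of_lt_of_le hx ((min_le_right _ _).trans (min_le_left _ _))
  have a3 : dist x' z' < η2 / 3 := lt_of_lt_of_le hx' ((min_le_right _ _).trans (min_le_right _ _))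
  have a4 : dist (ψ s (F z)) z' < η2 / 3 :=
    lt_of_lt_of_le hz ((min_le_right _ _).trans (min_le_right _ _))
  have a5 := h3 s hs x z a2
  have a6 : dist (ψ s (F x)) x' < η2 := by
    have b1 := dist_triangle (ψ s (F x)) (ψ s (F z)) x'
    have b2 := dist_triangle (ψ s (F z)) z' x'
    rw [dist_comm z' x'] at b2
    linarith
  obtain ⟨c1, c2⟩ := h1 x z a1 t
  have c3 := h2 (ψ s (F x)) x' hπ a6
  refine ⟨?_, by linarith⟩
  have e : theta ψ ρ x t + E (ψ s (F x)) x' - theta ψ ρ z t =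
      (theta ψ ρ x t - theta ψ ρ z t) + E (ψ s (F x)) x' := by ring
  rw [e]
  have := abs_add_le (theta ψ ρ x t - theta ψ ρ z t) (E (ψ s (F x)) x')
  linarith

/-- **Words, uniformly in the parameter.** -/
theorem exists_words' (C : Circ ψ F ρ π f) {e : ℝ} (he : 0 < e) (hX : ExpansiveWith f e)
    (hS : PeriodicShadowing f) {δ : ℝ} {ε : ℝ} (hε : 0 < ε) :
    ∃ η : ℝ, 0 < η ∧ ∀ s : ℝ, |s| ≤ 1 →
    (∀ (x : ℕ → N) (h : ℕ → ℝ → ℝ) (M : ℕ), Ch h M →
      (∀ i t, ψ s (F (ψ t (x i))) = ψ (h i t) (x (i + 1))) → x M = x 0 → ND h M δ) →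
    ∀ p q K, 1 ≤ K → (fun y => ψ s (F y))^[K] p = p →
      (fun y => ψ s (F y))^[K] q = q → dist p q < η →
      ∃ (H : ℕ → ℕ → ℕ → ℝ → ℝ) (c c' : ℝ), 0 < c ∧ 0 < c' ∧
        Words (fun i => theta ψ ρ ((fun y => ψ s (F y))^[i] p))
          (fun i => theta ψ ρ ((fun y => ψ s (F y))^[i] q)) K ε δ c c' H := by
  obtain ⟨lift, hl1, hl2⟩ := C.exists_lift
  obtain ⟨E, hE1, hE2⟩ := C.exists_angle
  obtain ⟨κ, hκ, hmod⟩ := modulus' C hE2 hε
  obtain ⟨η4, hη4, hlift⟩ := hl2 κ hκ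
  obtain ⟨η5, hη5, hsh⟩ := hS (min (η4 / 2) e) (by positivity)
  have hπ := CompactSpace.uniformContinuous_of_continuous C.contπ
  rw [Metric.uniformContinuous_iff] at hπ
  obtain ⟨η6, hη6, hπu⟩ := hπ η5 hη5
  refine ⟨min η6 κ, by positivity, fun s hs hnd p q K hK => ?_⟩
  have C' := C.fam s
  set G : N → N := fun y => ψ s (F y) with hG
  intro hp hq hpq
  have hpq1 : dist p q < η6 := lt_of_lt_of_le hpq (min_le_left _ _)
  have hpq2 : dist p q < κ := lt_of_lt_of_le hpq (min_le_right _ _)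
  have hpK : ∀ m, G^[m * K] p = p := fun m => by
    rw [mul_comm, Function.iterate_mul]
    exact Function.iterate_fixed hp m
  have hqK : ∀ m, G^[m * K] q = q := fun m => by
    rw [mul_comm, Function.iterate_mul]
    exact Function.iterate_fixed hq m
  set Z : ℕ → ℕ → ℕ → N := fun m l => zz G p q (m * K) (m * K + l * K) with hZ
  have hmK : ∀ m, 1 ≤ m → 1 ≤ m * K := fun m hm => Nat.mul_pos hm hK
  have hZstep : ∀ m l, 1 ≤ m → 1 ≤ l → ∀ i, dist (G (Z m l i)) (Z m l (i + 1)) ≤ dist p q :=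
    fun m l hm hl i => zz_step (hmK m hm) (hmK l hl) (hpK m) (hqK l) i
  have hπη : ∀ x y, dist x y ≤ dist p q → dist (π x) (π y) ≤ η5 := fun x y hxy =>
    (hπu (lt_of_le_of_lt hxy hpq1)).le
  have hc : ∀ m l, ∃ c, 1 ≤ m → 1 ≤ l → f^[m * K + l * K] c = c ∧
      ∀ i, dist (f^[i] c) (π (Z m l i)) ≤ min (η4 / 2) e := by
    intro m l
    by_cases h : 1 ≤ m ∧ 1 ≤ l
    · obtain ⟨c, hc1, hc2⟩ := hsh (fun i => π (Z m l i)) (m * K + l * K)
        (by have := hmK m h.1; omega) (fun i => by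
          show π (Z m l (i + (m * K + l * K))) = π (Z m l i)
          rw [hZ]
          exact congrArg π (zz_per p q _ _ i))
        (fun i => by
          show dist (f (π (Z m l i))) (π (Z m l (i + 1))) ≤ η5
          rw [← C'.semi]
          exact hπη _ _ (hZstep m l h.1 h.2 i))
      exact ⟨c, fun _ _ => ⟨hc1, hc2⟩⟩
    · exact ⟨π p, fun h1 h2 => absurd ⟨h1, h2⟩ h⟩
  choose c hc using hc
  set x : ℕ → ℕ → ℕ → N := fun m l i => lift (f^[i] (c m l)) (Z m l i) with hx
  set H : ℕ → ℕ → ℕ → ℝ → ℝ := fun m l i t =>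
    theta ψ ρ (x m l i) t + E (G (x m l i)) (x m l (i + 1)) with hH
  have hxπ : ∀ m l i, π (x m l i) = f^[i] (c m l) := fun m l i => hl1 _ _
  have hFx : ∀ m l i, π (G (x m l i)) = π (x m l (i + 1)) := fun m l i => by
    rw [C'.semi, hxπ, hxπ, Function.iterate_succ_apply']
  have hxper : ∀ m l, 1 ≤ m → 1 ≤ l → ∀ i, x m l (i + (m * K + l * K)) = x m l i := by
    intro m l hm hl i
    simp only [hx]
    rw [Function.iterate_add_apply, (hc m l hm hl).1]
    congr 1
    exact zz_per p q _ _ i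
  have hxZ : ∀ m l, 1 ≤ m → 1 ≤ l → ∀ i, dist (x m l i) (Z m l i) < κ := by
    intro m l hm hl i
    refine hlift _ _ ?_
    have := (hc m l hm hl).2 i
    have h2 := this.trans (min_le_left _ _)
    linarith
  have hder : ∀ m l i t, HasDerivAt (H m l i) (ρ (ψ t (x m l i))) t := fun m l i t =>
    (C'.theta_der _ t).add_const _
  have hderiv : ∀ m l i t, deriv (H m l i) t = ρ (ψ t (x m l i)) := fun m l i t =>
    (hder m l i t).deriv
  have hmaps : ∀ m l i t, G (ψ t (x m l i)) = ψ (H m l i t) (x m l (i + 1)) := by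
    intro m l i t
    rw [C'.maps]
    show ψ (theta ψ ρ (x m l i) t) _ = _
    simp only [hH]
    rw [C'.act.add, hE1 _ _ (hFx m l i)]
  have hchain : ∀ m l, 1 ≤ m → 1 ≤ l → Ch (H m l) (m * K + l * K) := by
    intro m l hm hl
    refine
      { smooth := fun i => (C'.theta_smooth _).add contDiff_const
        incr := fun i t => by
          rw [hderiv]
          exact C'.pos _
        pos := fun _ => one_pos
        perT := fun i t => ?_
        one := by have := hmK m hm; omega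
        perk := fun _ => rfl
        shift := fun i t => ?_ }
    · simp only [hH]
      rw [C'.theta_per]
      ring
    · simp only [hH]
      rw [show i + (m * K + l * K) + 1 = (i + 1) + (m * K + l * K) by ring, hxper m l hm hl,
        hxper m l hm hl]
      ring_nf
  have hgen : ∀ m l, 1 ≤ m → 1 ≤ l → ∀ i t, |H m l i t - theta ψ ρ (Z m l i) t| ≤ ε := by
    intro m l hm hl i t
    exact (hmod s hs _ _ _ _ (hFx m l i) (hxZ m l hm hl i) (hxZ m l hm hl (i + 1))
      (lt_of_le_of_lt (hZstep m l hm hl i) hpq2) t).1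
  have hdeep : ∀ τ : ℝ, 0 < τ → ∃ J, ∀ m l, 1 ≤ m → 1 ≤ l → ∀ (r : N) (a n : ℕ), G^[K] r = r →
      (∀ i < n, Z m l (a + i) = G^[i] r) → ∀ i t, J ≤ i → i + J ≤ n →
      |H m l (a + i) t - theta ψ ρ (G^[i] r) t| ≤ τ ∧
      |deriv (H m l (a + i)) t - deriv (theta ψ ρ (G^[i] r)) t| ≤ τ := by
    intro τ hτ
    obtain ⟨κ', hκ', hmod'⟩ := modulus' C hE2 hτ
    obtain ⟨η', hη', hlift'⟩ := hl2 κ' hκ'
    obtain ⟨J', hJ'⟩ := expansive_window C'.contf hX hη'
    refine ⟨J' + 2, fun m l hm hl r a n hrK hr i t hi1 hi2 => ?_⟩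
    have key : ∀ j, J' ≤ j → j + J' < n → dist (x m l (a + j)) (G^[j] r) < κ' := by
      intro j hj1 hj2
      have hcP : ∃ k, 1 ≤ k ∧ f^[k] (c m l) = c m l :=
        ⟨_, by have := hmK m hm; omega, (hc m l hm hl).1⟩
      have hrP : ∃ k, 1 ≤ k ∧ f^[k] (π r) = π r := ⟨K, hK, by rw [← C'.pi_iter, hrK]⟩
      have h1 := hJ' (f^[a + j - J'] (c m l)) (f^[j - J'] (π r)) (per_iter hcP _)
        (per_iter hrP _) (fun k hk => by
        rw [← Function.iterate_add_apply, ← Function.iterate_add_apply, ← C'.pi_iter,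
          ← hr _ (by omega)]
        have h2 := (hc m l hm hl).2 (k + (a + j - J'))
        rw [show a + (k + (j - J')) = k + (a + j - J') by omega]
        exact h2.trans (min_le_right _ _))
      rw [← Function.iterate_add_apply, ← Function.iterate_add_apply, ← C'.pi_iter,
        show J' + (a + j - J') = a + j by omega, show J' + (j - J') = j by omega] at h1
      have h3 := hlift' _ _ h1
      simp only [hx]
      rw [hr j (by omega)]
      exact h3
    have k1 := key i (by omega) (by omega)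
    have k2 := key (i + 1) (by omega) (by omega)
    have h4 := hmod' s hs (x m l (a + i)) (x m l (a + i + 1)) (G^[i] r) (G^[i + 1] r)
      (hFx m l (a + i)) k1 k2 (by
        rw [Function.iterate_succ_apply']
        show dist (G (G^[i] r)) (G (G^[i] r)) < κ'
        rw [dist_self]
        exact hκ') t
    refine ⟨h4.1, ?_⟩
    rw [hderiv, C'.theta_deriv]
    exact h4.2
  obtain ⟨y1, -, hy1⟩ := (isCompact_univ (X := N)).exists_isMinOn ⟨p, mem_univ _⟩
    C.contρ.continuousOn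
  obtain ⟨y2, -, hy2⟩ := (isCompact_univ (X := N)).exists_isMaxOn ⟨p, mem_univ _⟩
    C.contρ.continuousOn
  have hZ1 : ∀ m l i, i < m * K → Z m l i = G^[i] p := fun m l i hi => by
    simp only [hZ]
    exact zz_one hi (Nat.le_add_right _ _)
  have hZ2 : ∀ m l i, i < l * K → Z m l (m * K + i) = G^[i] q := fun m l i hi => by
    simp only [hZ]
    exact zz_two hi
  refine ⟨H, ρ y1, ρ y2, C.pos _, C.pos _, ?_⟩
  refine
    { chain := hchain
      nondeg := fun m l hm hl => hnd (x m l) (H m l) _ (hchain m l hm hl) (hmaps m l) (by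
        have := hxper m l hm hl 0
        rwa [zero_add] at this)
      one := fun m l i t hm hl hi => by
        have := hgen m l hm hl i t
        rwa [hZ1 m l i hi] at this
      two := fun m l i t hm hl hi => by
        have := hgen m l hm hl (m * K + i) t
        rwa [hZ2 m l i hi] at this
      deepA := fun τ hτ => ?_
      deepB := fun τ hτ => ?_
      low := fun m l i t _ _ => by
        rw [hderiv]
        exact hy1 (mem_univ _)
      high := fun m l i t _ _ => by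
        rw [hderiv]
        exact hy2 (mem_univ _) }
  · obtain ⟨J, hJ⟩ := hdeep τ hτ
    refine ⟨J, fun m l i t hm hl h1 h2 => ?_⟩
    have := hJ m l hm hl p 0 (m * K) hp (fun j hj => by rw [zero_add]; exact hZ1 m l j hj) i t h1 h2
    rwa [zero_add] at this
  · obtain ⟨J, hJ⟩ := hdeep τ hτ
    exact ⟨J, fun m l i t hm hl h1 h2 =>
      hJ m l hm hl q (m * K) (l * K) hq (fun j hj => hZ2 m l j hj) i t h1 h2⟩

theorem orb_theta_zero (C : Circ ψ F ρ π f) (y : N) (i : ℕ) :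
    orb (fun i => theta ψ ρ (F^[i] y)) i 0 0 = 0 := by
  induction i with
  | zero => rfl
  | succ i ih =>
    show theta ψ ρ (F^[i] y) (orb (fun i => theta ψ ρ (F^[i] y)) i 0 0) + 0 = 0
    rw [ih, add_zero]
    exact Circ.theta_zero _

theorem dT_theta (C : Circ ψ F ρ π f) (y : N) (K : ℕ) :
    dT (fun i => theta ψ ρ (F^[i] y)) K 0 0 = ∏ i ∈ Finset.range K, ρ (F^[i] y) := by
  unfold dT
  refine Finset.prod_congr rfl fun i _ => ?_
  rw [orb_theta_zero C, C.theta_deriv]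
  show ρ (ψ 0 (F^[i] y)) = _
  rw [C.act.zero]

/-- **Index separation, uniformly in the parameter.** -/
theorem separation' (C : Circ ψ F ρ π f) {e : ℝ} (he : 0 < e) (hX : ExpansiveWith f e)
    (hS : PeriodicShadowing f) {δ : ℝ} (hδ : 0 < δ) :
    ∃ η : ℝ, 0 < η ∧ ∀ s : ℝ, |s| ≤ 1 →
    (∀ (x : ℕ → N) (h : ℕ → ℝ → ℝ) (M : ℕ), Ch h M →
      (∀ i t, ψ s (F (ψ t (x i))) = ψ (h i t) (x (i + 1))) → x M = x 0 → ND h M δ) →
    ∀ p q K, 1 ≤ K → (fun y => ψ s (F y))^[K] p = p → (fun y => ψ s (F y))^[K] q = q →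
      ∏ i ∈ Finset.range K, ρ ((fun y => ψ s (F y))^[i] p) < 1 →
      1 < ∏ i ∈ Finset.range K, ρ ((fun y => ψ s (F y))^[i] q) → η ≤ dist p q := by
  set δ' := min δ 1 with hδ'
  have hδ'0 : 0 < δ' := by positivity
  set ε := δ' ^ 2 / 32 with hε
  have hε0 : 0 < ε := by positivity
  obtain ⟨η, hη, hW⟩ := exists_words' C he hX hS (δ := δ') hε0
  refine ⟨η, hη, fun s hs hnd p q K hK hp hq hpa hqr => ?_⟩
  by_contra hcon
  push Not at hcon
  have C' := C.fam s
  have hnd' : ∀ (x : ℕ → N) (h : ℕ → ℝ → ℝ) (M : ℕ), Ch h M →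
      (∀ i t, ψ s (F (ψ t (x i))) = ψ (h i t) (x (i + 1))) → x M = x 0 → ND h M δ' := by
    intro x h M h1 h2 h3 t s hs
    exact hnd x h M h1 h2 h3 t s (lt_of_lt_of_le hs (min_le_left _ _))
  obtain ⟨H, c, c', hc, hc', W⟩ := hW s hs hnd' p q K hK hp hq hcon
  obtain ⟨H', d, d', hd, hd', W'⟩ := hW s hs hnd' q p K hK hq hp (by rwa [dist_comm])
  have hA := C'.chain hK hp
  have hB := C'.chain hK hq
  have hmapsA : ∀ y : N, ∀ i t, ψ s (F (ψ t ((fun y => ψ s (F y))^[i] y))) =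
      ψ (theta ψ ρ ((fun y => ψ s (F y))^[i] y) t) ((fun y => ψ s (F y))^[i + 1] y) := by
    intro y i t
    have := C'.maps t ((fun y => ψ s (F y))^[i] y)
    rw [Function.iterate_succ_apply']
    exact this
  have nA := hnd' (fun i => (fun y => ψ s (F y))^[i] p) _ K hA (hmapsA p) hp
  have nB := hnd' (fun i => (fun y => ψ s (F y))^[i] q) _ K hB (hmapsA q) hq
  exact no_cross hδ'0 (min_le_right _ _) hε0 (by rw [hε]; linarith) hA hB nA nB hc hc' hd hd' W W'
    (orb_theta_zero C' p K) (orb_theta_zero C' q K) (by rw [dT_theta C']; exact hpa)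
    (by rw [dT_theta C']; exact hqr)

end metric

end Pool.Agent.J4.H85.IS
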