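import Pool.Agent.J4.H85.IS.Lev
import Pool.Agent.J4.H85.IS.Cross

/-!
# Words of two closed chains
-/

set_option autoImplicit false

open Filter Set Topology

namespace Pool.Agent.J4.H85.IS

open Pool.Agent.J4.H85.LE

/-- Closed chains `H m l` which follow the chain `A` for `m` turns and then the chain `B` for `l`
turns, with errors at most `ε`, and with arbitrarily small errors deep inside of the two blocks. -/
structure Words (A B : ℕ → ℝ → ℝ) (K : ℕ) (ε δ c C : ℝ) (H : ℕ → ℕ → ℕ → ℝ → ℝ) : Prop where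
  chain : ∀ m l, 1 ≤ m → 1 ≤ l → Ch (H m l) (m * K + l * K)
  nondeg : ∀ m l, 1 ≤ m → 1 ≤ l → ND (H m l) (m * K + l * K) δ
  one : ∀ m l i t, 1 ≤ m → 1 ≤ l → i < m * K → |H m l i t - A i t| ≤ ε
  two : ∀ m l i t, 1 ≤ m → 1 ≤ l → i < l * K → |H m l (m * K + i) t - B i t| ≤ ε
  deepA : ∀ τ : ℝ, 0 < τ → ∃ J, ∀ m l i t, 1 ≤ m → 1 ≤ l → J ≤ i → i + J ≤ m * K →
    |H m l i t - A i t| ≤ τ ∧ |deriv (H m l i) t - deriv (A i) t| ≤ τ
  deepB : ∀ τ : ℝ, 0 < τ → ∃ J, ∀ m l i t, 1 ≤ m → 1 ≤ l → J ≤ i → i + J ≤ l * K →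
    |H m l (m * K + i) t - B i t| ≤ τ ∧ |deriv (H m l (m * K + i)) t - deriv (B i) t| ≤ τ
  low : ∀ m l i t, 1 ≤ m → 1 ≤ l → c ≤ deriv (H m l i) t
  high : ∀ m l i t, 1 ≤ m → 1 ≤ l → deriv (H m l i) t ≤ C

theorem reg (P : ℕ → ℝ → ℝ) {K : ℕ} {δ : ℝ} (HP : Ch P K) (hn : ND P K δ) :
    Reg (lev P K) (lev' P K) δ :=
  ⟨lev_der HP, fun _ ht => lev'_ne HP hn ht⟩

variable {P Q : ℕ → ℝ → ℝ} {K : ℕ} {ε δ c C : ℝ} {H : ℕ → ℕ → ℕ → ℝ → ℝ}

namespace Words

theorem upper (W : Words P Q K ε δ c C H) (HP : Ch P K) (HQ : Ch Q K) {m l : ℕ} (hm : 1 ≤ m)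
    (hl : 1 ≤ l) (t s : ℝ) :
    orb (H m l) (m * K + l * K) t s ≤ (g Q K (s + ε))^[l] ((g P K (s + ε))^[m] t) := by
  rw [orb_add, ← orb_mul HQ, ← orb_mul HP]
  refine orb_le (fun i => (h_mono HQ.incr i).monotone) _ (fun i hi t => ?_) _ _ _ ?_
  · have := (abs_le.1 (W.two m l i t hm hl hi)).2
    linarith
  · refine orb_le (fun i => (h_mono HP.incr i).monotone) _ (fun i hi t => ?_) _ _ _ le_rfl
    have := (abs_le.1 (W.one m l i t hm hl hi)).2
    linarith

theorem lower (W : Words P Q K ε δ c C H) (HP : Ch P K) (HQ : Ch Q K) {m l : ℕ} (hm : 1 ≤ m)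
    (hl : 1 ≤ l) (t s : ℝ) :
    (g Q K (s - ε))^[l] ((g P K (s - ε))^[m] t) ≤ orb (H m l) (m * K + l * K) t s := by
  rw [orb_add, ← orb_mul HQ, ← orb_mul HP]
  refine le_orb (fun i => (h_mono HQ.incr i).monotone) _ (fun i hi t => ?_) _ _ _ ?_
  · have := (abs_le.1 (W.two m l i t hm hl hi)).1
    linarith
  · refine le_orb (fun i => (h_mono HP.incr i).monotone) _ (fun i hi t => ?_) _ _ _ le_rfl
    have := (abs_le.1 (W.one m l i t hm hl hi)).1
    linarith

/-- the level of a crossing -/
theorem near (W : Words P Q K ε δ c C H) (HP : Ch P K) (HQ : Ch Q K) {m l : ℕ} (hm : 1 ≤ m)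
    (hl : 1 ≤ l) {a s : ℝ} (hP : lev P K a = s) (hQ : lev Q K a = s) :
    |lev (H m l) (m * K + l * K) a - s| ≤ ε := by
  have e1 : g P K s a = a := by
    have := lev_eq HP a
    rw [hP] at this
    exact this
  have e2 : g Q K s a = a := by
    have := lev_eq HQ a
    rw [hQ] at this
    exact this
  have e3 : (g Q K s)^[l] ((g P K s)^[m] a) = a := by
    rw [Function.iterate_fixed e1, Function.iterate_fixed e2]
  have h1 := W.upper HP HQ hm hl a (s - ε)
  have h2 := W.lower HP HQ hm hl a (s + ε)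
  rw [sub_add_cancel, e3] at h1
  rw [add_sub_cancel_right, e3] at h2
  have h3 := le_lev (W.chain m l hm hl) h1
  have h4 := lev_le (W.chain m l hm hl) h2
  rw [abs_le]
  constructor <;> linarith

/-- **Case of a high common barrier: attracting.** -/
theorem high_attr (W : Words P Q K ε δ c C H) (HP : Ch P K) (HQ : Ch Q K) {a b s κ : ℝ}
    (hab : a < b) (hab1 : b ≤ a + 1) (hε : 0 < ε) (hεκ : 2 * ε < κ) (hs : |s| + 2 * κ < δ)
    (hPa : lev P K a = s) (hQa : lev Q K a = s) (hPb : s + κ ≤ lev P K b)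
    (hQb : s + κ ≤ lev Q K b) (hP : ∀ x ∈ Icc a b, s - κ ≤ lev P K x) {m l : ℕ} (hl : 1 ≤ l)
    (hm : 1 + κ < m * (κ - ε)) : 0 < lev' (H m l) (m * K + l * K) a := by
  have hm1 : 1 ≤ m := by
    rcases Nat.eq_zero_or_pos m with h | h
    · rw [h] at hm
      push_cast at hm
      linarith
    · exact h
  have hC := W.chain m l hm1 hl
  have hR := reg _ hC (W.nondeg m l hm1 hl)
  obtain ⟨hs1, hs2⟩ : s + 2 * κ < δ ∧ -δ < s - 2 * κ := by
    have h1 := le_abs_self s
    have h2 := neg_abs_le s
    constructor <;> linarith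
  -- the level `s - 2 κ`
  have H1 : ∀ t ∈ Icc a b, s - 2 * κ < lev (H m l) (m * K + l * K) t := by
    intro t ht
    refine lt_lev hC (lt_of_le_of_lt (W.upper HP HQ hm1 hl t _) ?_)
    have h1 : (g P K (s - 2 * κ + ε))^[m] t < a - κ := by
      refine move_left (g_mono HP _).monotone (x := a - κ) (y := b) (c := κ - ε) (by linarith)
        (by linarith) (fun x hx => ?_) (by linarith) ht.2
      have h2 : s - κ ≤ lev P K x := by
        rcases le_total a x with h3 | h3
        · exact hP x ⟨h3, hx.2⟩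
        · have := lev_slope HP h3
          linarith [hx.1]
      have := lev_down HP (t := x) (s := s - 2 * κ + ε) (by linarith)
      unfold g
      linarith
    have h2 : (g Q K (s - 2 * κ + ε))^[l] ((g P K (s - 2 * κ + ε))^[m] t) ≤ a - κ := by
      refine barr_left (g_mono HQ _).monotone ?_ h1.le l
      have h3 := lev_slope HQ (t := a - κ) (t' := a) (by linarith)
      have := lev_down HQ (t := a - κ) (s := s - 2 * κ + ε) (by linarith)
      unfold g
      linarith
    linarith [ht.1]
  -- the end point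
  have H2 : s + ε < lev (H m l) (m * K + l * K) b := by
    refine lt_lev hC (lt_of_le_of_lt (W.upper HP HQ hm1 hl b _) ?_)
    refine barr_left' (g_mono HQ _) ?_ (barr_left (g_mono HP _).monotone ?_ le_rfl m) hl
    · have := lev_down HQ (t := b) (s := s + ε + ε) (by linarith)
      unfold g
      linarith
    · have := lev_down HP (t := b) (s := s + ε + ε) (by linarith)
      unfold g
      linarith
  have H3 := abs_le.1 (W.near HP HQ hm1 hl hPa hQa)
  have H4 : lev' (H m l) (m * K + l * K) a ≠ 0 := by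
    refine hR.ne a ?_
    rw [abs_lt]
    constructor <;> linarith [H3.1, H3.2]
  rcases lt_or_gt_of_ne H4 with h1 | h1
  · exfalso
    obtain ⟨z, hz, hz1⟩ := hR.down_ge hab (by linarith [H3.2]) h1 (by linarith [H3.2])
    have := H1 z ⟨hz.1.le, hz.2.le⟩
    linarith
  · exact h1

/-- **Case of a low common barrier: repelling.** -/
theorem low_rep (W : Words P Q K ε δ c C H) (HP : Ch P K) (HQ : Ch Q K) {a b s κ : ℝ}
    (hab : a < b) (hab1 : b ≤ a + 1) (hε : 0 < ε) (hεκ : 2 * ε < κ) (hs : |s| + 2 * κ < δ)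
    (hPa : lev P K a = s) (hQa : lev Q K a = s) (hPb : lev P K b ≤ s - κ)
    (hQb : lev Q K b ≤ s - κ) (hQ : ∀ x ∈ Icc a b, lev Q K x ≤ s + κ) {m l : ℕ} (hm1 : 1 ≤ m)
    (hl : 1 < l * (κ - ε)) : lev' (H m l) (m * K + l * K) a < 0 := by
  have hl1 : 1 ≤ l := by
    rcases Nat.eq_zero_or_pos l with h | h
    · rw [h] at hl
      push_cast at hl
      linarith
    · exact h
  have hC := W.chain m l hm1 hl1
  have hR := reg _ hC (W.nondeg m l hm1 hl1)
  obtain ⟨hs1, hs2⟩ : s + 2 * κ < δ ∧ -δ < s - 2 * κ := by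
    have h1 := le_abs_self s
    have h2 := neg_abs_le s
    constructor <;> linarith
  have H1 : ∀ t ∈ Icc a b, lev (H m l) (m * K + l * K) t < s + 2 * κ := by
    intro t ht
    refine lev_lt hC (lt_of_lt_of_le ?_ (W.lower HP HQ hm1 hl1 t _))
    have h1 : a ≤ (g P K (s + 2 * κ - ε))^[m] t := by
      refine barr_right (g_mono HP _).monotone ?_ ht.1 m
      have := lev_up HP (t := a) (s := s + 2 * κ - ε) (by linarith)
      unfold g
      linarith
    have h2 : b < (g Q K (s + 2 * κ - ε))^[l] ((g P K (s + 2 * κ - ε))^[m] t) := by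
      refine move_right (g_mono HQ _).monotone (x := a) (y := b) (c := κ - ε) (by linarith)
        hab.le (fun x hx => ?_) (by linarith) h1
      have h3 := hQ x hx
      have := lev_up HQ (t := x) (s := s + 2 * κ - ε) (by linarith)
      unfold g
      linarith
    linarith [ht.2]
  have H2 : lev (H m l) (m * K + l * K) b < s - ε := by
    refine lev_lt hC (lt_of_lt_of_le ?_ (W.lower HP HQ hm1 hl1 b _))
    refine barr_right' (g_mono HQ _) ?_ (barr_right (g_mono HP _).monotone ?_ le_rfl m) hl1
    · have := lev_up HQ (t := b) (s := s - ε - ε) (by linarith)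
      unfold g
      linarith
    · have := lev_up HP (t := b) (s := s - ε - ε) (by linarith)
      unfold g
      linarith
  have H3 := abs_le.1 (W.near HP HQ hm1 hl1 hPa hQa)
  have H4 : lev' (H m l) (m * K + l * K) a ≠ 0 := by
    refine hR.ne a ?_
    rw [abs_lt]
    constructor <;> linarith [H3.1, H3.2]
  rcases lt_or_gt_of_ne H4 with h1 | h1
  · exact h1
  · exfalso
    obtain ⟨z, hz, hz1⟩ := hR.up_le hab (by linarith [H3.1]) h1 (by linarith [H3.1])
    have := H1 z ⟨hz.1.le, hz.2.le⟩
    linarith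

/-- **A common barrier.** -/
theorem barrier (W : Words P Q K ε δ c C H) (HP : Ch P K) (HQ : Ch Q K) (hε : 0 < ε)
    (hP0 : lev P K 0 = 0) (hQ0 : lev Q K 0 = 0) {s : ℝ} (hs : 0 < s) (hsδ : s + ε < δ) :
    ∃ R, 0 < R ∧ R ≤ 1 ∧ s ≤ lev P K R ∧ s ≤ lev Q K R := by
  by_contra hcon
  push Not at hcon
  set M : ℝ → ℝ := fun t => min (lev P K t) (lev Q K t) with hM
  have hMc : Continuous M := (lev_cont HP).min (lev_cont HQ)
  have hM1 : ∀ t ∈ Icc (0 : ℝ) 1, M t < s := by
    intro t ht
    rcases ht.1.eq_or_lt with h1 | h1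
    · rw [← h1]
      show min (lev P K 0) (lev Q K 0) < s
      rw [hP0, hQ0, min_self]
      exact hs
    · show min (lev P K t) (lev Q K t) < s
      rcases lt_or_ge (lev P K t) s with h2 | h2
      · exact lt_of_le_of_lt (min_le_left _ _) h2
      · exact lt_of_le_of_lt (min_le_right _ _) (hcon t h1 ht.2 h2)
  obtain ⟨x, hx, hmax⟩ := isCompact_Icc.exists_isMaxOn (nonempty_Icc.2 zero_le_one)
    hMc.continuousOn (s := Icc (0 : ℝ) 1)
  set d := s - M x with hd
  have hd0 : 0 < d := by
    have := hM1 x hx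
    linarith
  have hper : ∀ t, M (t + 1) = M t := by
    intro t
    show min (lev P K (t + 1)) (lev Q K (t + 1)) = min (lev P K t) (lev Q K t)
    rw [lev_per HP, lev_per HQ]
  have hMall : ∀ t, M t ≤ s - d := by
    intro t
    have h1 : Function.Periodic M 1 := hper
    have h2 : M (t - ⌊t⌋ * 1) = M t := h1.sub_int_mul_eq ⌊t⌋
    rw [← h2, mul_one]
    have h3 : M (t - ⌊t⌋) ≤ M x := hmax
      ⟨by linarith [Int.floor_le t], by linarith [Int.lt_floor_add_one t]⟩
    linarith
  have hPz : ∀ n : ℤ, lev P K n = 0 := by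
    intro n
    have h1 : Function.Periodic (lev P K) 1 := lev_per HP
    have h2 := h1.int_mul_eq n
    rw [mul_one, hP0] at h2
    exact h2
  have hQz : ∀ n : ℤ, lev Q K n = 0 := by
    intro n
    have h1 : Function.Periodic (lev Q K) 1 := lev_per HQ
    have h2 := h1.int_mul_eq n
    rw [mul_one, hQ0] at h2
    exact h2
  -- an interval where a level is `≥ s` is short
  have hshort : ∀ f : ℝ → ℝ, (∀ n : ℤ, f n = 0) → ∀ x y, (∀ z ∈ Icc x y, s ≤ f z) → y - x < 1 := by
    intro f hf x y hxy
    by_contra h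
    push Not at h
    have h1 := hxy (⌊y⌋ : ℝ) ⟨by linarith [Int.lt_floor_add_one y], Int.floor_le y⟩
    rw [hf] at h1
    linarith
  obtain ⟨n, hn⟩ := exists_nat_gt (1 / d)
  have hn1 : 1 < n * d := by
    rwa [div_lt_iff₀ hd0] at hn
  have hnpos : 1 ≤ n := by
    rcases Nat.eq_zero_or_pos n with h | h
    · rw [h] at hn1
      push_cast at hn1
      linarith
    · exact h
  have hgPc : Continuous (g P K s) := by
    have := (orb_cont HP.smooth K).comp (continuous_id.prodMk (continuous_const (y := s)))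
    exact this
  have hgQc : Continuous (g Q K s) := by
    have := (orb_cont HQ.smooth K).comp (continuous_id.prodMk (continuous_const (y := s)))
    exact this
  -- everything moves to the right at the level `s`
  have key : ∀ t, t < (g Q K s)^[n] ((g P K s)^[n] t) := by
    intro t
    by_contra hcon2
    push Not at hcon2
    set t' := (g P K s)^[n] t with ht'
    rcases lt_trichotomy t' t with h1 | h1 | h1
    · -- `P` moves to the left
      have h2 : ∀ z ∈ Icc t' t, s ≤ lev P K z := fun z hz =>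
        le_lev HP (down_of_iter (g_mono HP s).monotone hgPc h1 hz)
      have h3 := hshort _ hPz t' t h2
      have h4 : t < (g Q K s)^[n] t' := by
        refine move_right (g_mono HQ s).monotone hd0 h1.le (fun z hz => ?_) (by linarith) le_rfl
        have h5 : lev Q K z ≤ s - d := by
          have h6 := hMall z
          have h7 := h2 z hz
          rcases min_le_iff.1 h6 with h8 | h8
          · linarith
          · exact h8
        have := lev_up HQ (t := z) (s := s) (by linarith)
        unfold g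
        linarith
      linarith
    · -- `P` fixes `t`
      have h2 : s ≤ lev P K t := by
        refine le_lev HP ?_
        by_contra h3
        push Not at h3
        have h4 : t < g P K s t := h3
        have h5 := barr_right' (g_mono HP s) h4 le_rfl hnpos
        linarith
      have h5 : lev Q K t ≤ s - d := by
        rcases min_le_iff.1 (hMall t) with h8 | h8
        · linarith
        · exact h8
      have h6 : t < g Q K s t := by
        have := lev_up HQ (t := t) (s := s) (by linarith)
        unfold g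
        linarith
      have h7 := barr_right' (g_mono HQ s) h6 h1.ge hnpos
      linarith
    · -- `P` moves to the right and `Q` moves back
      have h0 : (g Q K s)^[n] t' < t' := by linarith
      have h2 : ∀ z ∈ Icc ((g Q K s)^[n] t') t', s ≤ lev Q K z := fun z hz =>
        le_lev HQ (down_of_iter (g_mono HQ s).monotone hgQc h0 hz)
      have h3 := hshort _ hQz _ _ h2
      have h4 : t' < (g P K s)^[n] t := by
        refine move_right (g_mono HP s).monotone (x := (g Q K s)^[n] t') hd0 h0.le
          (fun z hz => ?_) (by linarith) hcon2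
        have h5 : lev P K z ≤ s - d := by
          have h6 := hMall z
          have h7 := h2 z hz
          rcases min_le_iff.1 h6 with h8 | h8
          · exact h8
          · linarith
        have := lev_up HP (t := z) (s := s) (by linarith)
        unfold g
        linarith
      exact lt_irrefl _ h4
  have hC := W.chain n n hnpos hnpos
  have h1 := W.near HP HQ hnpos hnpos hP0 hQ0
  rw [sub_zero] at h1
  obtain ⟨t, ht⟩ := lev_surj hC (W.nondeg n n hnpos hnpos) (t₀ := 0)
    (lt_of_le_of_lt h1 (by linarith)) (s := s + ε) (by rw [abs_of_pos (by linarith)]; exact hsδ)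
  have h2 := W.lower HP HQ hnpos hnpos t (s + ε)
  rw [add_sub_cancel_right] at h2
  have h3 := lev_eq hC t
  rw [ht] at h3
  rw [h3] at h2
  have := key t
  linarith

end Words

end Pool.Agent.J4.H85.IS
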